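import Pool.Agent.Work.MP_1595dd_lc.BarDefs

/-!
The adversary: if every hypothesis has an example on which it agrees with few targets, then
many mistakes are forced.
-/

namespace Pool.Agent.Work.MP_1595dd_lc.Bar

open Finset

theorem adversary {W : Type} (L : List (Finset ℕ × Bool) → Finset ℕ → Bool)
    (c : W → Finset ℕ → Bool) (U : Finset W) (good : Finset ℕ → Prop) (q : ℕ)
    (hf : ∀ h, ∃ x, good x ∧ (U.filter fun w => c w x = L h x).card ≤ q) :
    ∀ (M : ℕ) (h : List (Finset ℕ × Bool)) (V : Finset W), V ⊆ U → q * M < V.card →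
      ∃ w ∈ V, ∃ xs : List (Finset ℕ), (∀ x ∈ xs, good x) ∧ M ≤ mistakes L (c w) h xs := by
  intro M
  induction M with
  | zero =>
    intro h V _ hV
    obtain ⟨w, hw⟩ := card_pos.mp (by omega : 0 < V.card)
    exact ⟨w, hw, [], by simp, Nat.zero_le _⟩
  | succ M ih =>
    intro h V hVU hV
    obtain ⟨x, hx, hq⟩ := hf h
    have h1 : (V.filter fun w => c w x = L h x).card ≤ q :=
      (card_le_card (filter_subset_filter _ hVU)).trans hq
    have h2 := card_filter_add_card_filter_not (s := V) (fun w => c w x = L h x)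
    obtain ⟨w, hw, xs, hxs, hM⟩ := ih (h ++ [(x, !L h x)]) (V.filter fun w => ¬ c w x = L h x)
      ((filter_subset _ _).trans hVU) (by rw [Nat.mul_succ] at hV; omega)
    rw [mem_filter] at hw
    refine ⟨w, hw.1, x :: xs, ?_, ?_⟩
    · intro y hy
      rcases List.mem_cons.mp hy with rfl | hy
      · exact hx
      · exact hxs y hy
    · have e : c w x = !L h x := by
        have := hw.2
        cases h3 : c w x <;> cases h4 : L h x <;> simp_all
      have ne : ¬ L h x = c w x := fun h5 => hw.2 h5.symm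
      simp only [mistakes, if_neg ne]
      rw [e]
      omega

/-- The final counting form. -/
theorem adversary' {W : Type} (L : List (Finset ℕ × Bool) → Finset ℕ → Bool)
    (c : W → Finset ℕ → Bool) (U : Finset W) (hU : U.Nonempty) (good : Finset ℕ → Prop) (q : ℕ)
    (hq : 0 < q)
    (hf : ∀ h, ∃ x, good x ∧ (U.filter fun w => c w x = L h x).card ≤ q) :
    ∃ w ∈ U, ∃ xs : List (Finset ℕ), (∀ x ∈ xs, good x) ∧
      U.card ≤ q * (mistakes L (c w) [] xs + 1) := by
  have hc := card_pos.mpr hU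
  have h1 : q * ((U.card - 1) / q) < U.card := by
    have := Nat.mul_div_le (U.card - 1) q
    omega
  obtain ⟨w, hw, xs, hxs, hM⟩ := adversary L c U good q hf _ [] U Subset.rfl h1
  refine ⟨w, hw, xs, hxs, ?_⟩
  have h2 : U.card - 1 < q * ((U.card - 1) / q + 1) := Nat.lt_mul_div_succ _ hq
  have h3 : q * ((U.card - 1) / q + 1) ≤ q * (mistakes L (c w) [] xs + 1) :=
    Nat.mul_le_mul_left _ (by omega)
  omega

/-- The part of degree at most `d` of a polynomial. -/
def lowVal {R : Type} [AddCommMonoid R] (d : ℕ) (a : Finset ℕ → R) (x : Finset ℕ) : R :=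
  ∑ S ∈ x.powerset with S.card ≤ d, a S

theorem exists_choice_fin {ι : Type} [Fintype ι] [DecidableEq ι] (K d : ℕ) (π : ι → Fin K → ℕ)
    (hπ : ∀ i b j c, π i b = π j c → i = j ∧ b = c) (W : Finset (Finset ℕ))
    (hW : W.card < K ^ (d + 1)) :
    ∃ σ : ι → Fin K, ∀ S ∈ W, d < S.card → ¬ S ⊆ univ.image fun i => π i (σ i) := by
  have hK : 0 < K := by
    rcases Nat.eq_zero_or_pos K with rfl | h
    · simp at hW
    · exact h
  by_contra hcon
  push Not at hcon
  let E : Finset ℕ → Finset (ι → Fin K) := fun S =>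
    univ.filter fun σ => d < S.card ∧ S ⊆ univ.image fun i => π i (σ i)
  have h1 : ∀ S, (E S).card * K ^ (d + 1) ≤ K ^ Fintype.card ι := by
    intro S
    rcases (E S).eq_empty_or_nonempty with h | ⟨σ₀, h⟩
    · simp [h]
    obtain ⟨hd, hS⟩ := (mem_filter.mp h).2
    let J : Finset ι := univ.filter fun i => π i (σ₀ i) ∈ S
    have hJ : d + 1 ≤ J.card := by
      have h2 : S ⊆ J.image fun i => π i (σ₀ i) := by
        intro v hv
        obtain ⟨i, _, rfl⟩ := mem_image.mp (hS hv)
        exact mem_image.mpr ⟨i, mem_filter.mpr ⟨mem_univ _, hv⟩, rfl⟩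
      have := (card_le_card h2).trans card_image_le
      omega
    have h3 : E S ⊆ Fintype.piFinset fun i => if i ∈ J then {σ₀ i} else univ := by
      intro σ hσ
      rw [Fintype.mem_piFinset]
      intro i
      split_ifs with hi
      · obtain ⟨j, _, hj⟩ := mem_image.mp ((mem_filter.mp hσ).2.2 (mem_filter.mp hi).2)
        obtain ⟨rfl, h4⟩ := hπ _ _ _ _ hj
        exact mem_singleton.mpr h4
      · exact mem_univ _
    have h4 := card_le_card h3
    rw [Fintype.card_piFinset] at h4
    have h5 : ∏ i, (if i ∈ J then ({σ₀ i} : Finset (Fin K)) else univ).card = K ^ Jᶜ.card := by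
      rw [← prod_mul_prod_compl J, prod_eq_one fun i hi => by simp [hi], one_mul,
        prod_congr rfl (g := fun _ => K) fun i hi => by simp [mem_compl.mp hi], prod_const]
    rw [h5] at h4
    calc (E S).card * K ^ (d + 1) ≤ K ^ Jᶜ.card * K ^ J.card :=
          Nat.mul_le_mul h4 (Nat.pow_le_pow_right hK hJ)
      _ = K ^ Fintype.card ι := by rw [← pow_add, add_comm, card_add_card_compl]
  have h2 : (univ : Finset (ι → Fin K)) ⊆ W.biUnion E := by
    intro σ _
    obtain ⟨S, hS, h⟩ := hcon σ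
    exact mem_biUnion.mpr ⟨S, hS, mem_filter.mpr ⟨mem_univ _, h⟩⟩
  have h3 := (card_le_card h2).trans card_biUnion_le
  rw [card_univ, Fintype.card_fun, Fintype.card_fin] at h3
  have h4 : (∑ S ∈ W, (E S).card) * K ^ (d + 1) ≤ W.card * K ^ Fintype.card ι := by
    rw [sum_mul]
    exact (sum_le_card_nsmul _ _ _ fun S _ => h1 S).trans (by simp)
  have h5 : 0 < K ^ Fintype.card ι := by positivity
  have h6 := Nat.mul_le_mul_right (K ^ (d + 1)) h3
  nlinarith

/-- One copy of each variable can be kept so that all wide monomials vanish. -/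
theorem exists_choice {R ι : Type} [AddCommMonoid R] [DecidableEq ι] (I : Finset ι) (K d s : ℕ)
    (hs : s < K ^ (d + 1)) (π : ι → Fin K → ℕ)
    (hπ : ∀ i b j c, π i b = π j c → i = j ∧ b = c) (a : Finset ℕ → R) (ha : FewWide d s a) :
    ∃ σ : ι → Fin K, ∀ x ⊆ I.image fun i => π i (σ i), polyVal a x = lowVal d a x := by
  have hK : 0 < K := by
    rcases Nat.eq_zero_or_pos K with rfl | h
    · simp at hs
    · exact h
  obtain ⟨W, hW, ha⟩ := ha
  obtain ⟨σ, hσ⟩ := exists_choice_fin (ι := I) K d (fun i b => π i b)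
    (fun i b j c h => ⟨Subtype.ext (hπ _ _ _ _ h).1, (hπ _ _ _ _ h).2⟩) W (by omega)
  refine ⟨fun i => if h : i ∈ I then σ ⟨i, h⟩ else ⟨0, hK⟩, fun x hx => ?_⟩
  rw [polyVal, lowVal, sum_filter_of_ne]
  intro S hS h
  by_contra h1
  refine hσ S (ha S (by omega) h) (by omega) fun v hv => ?_
  obtain ⟨i, hi, rfl⟩ := mem_image.mp (hx (mem_powerset.mp hS hv))
  exact mem_image.mpr ⟨⟨i, hi⟩, mem_univ _, by simp [hi]⟩

end Pool.Agent.Work.MP_1595dd_lc.Bar
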