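import Mathlib

/-!
Online learning in the infinite attribute model with restricted hypotheses.
An example is the finite set of (the indices of) its true variables.
-/

namespace Pool.Agent.Work.MP_1595dd_lc.Bar

/-- The monotone decision list with the listed (variable, label) rules and default label `b`. -/
def evalDL : List (ℕ × Bool) → Bool → Finset ℕ → Bool
  | [], b, _ => b
  | r :: c, b, x => if r.1 ∈ x then r.2 else evalDL c b x

/-- The parity of the variables in `T`. -/
def parityOn (T x : Finset ℕ) : Bool := decide (Odd (T ∩ x).card)

/-- The value at the example `x` of the multilinear polynomial whose monomial on the variable set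
`S` has the coefficient `a S`. -/
def polyVal {R : Type} [AddCommMonoid R] (a : Finset ℕ → R) (x : Finset ℕ) : R :=
  ∑ S ∈ x.powerset, a S

/-- At most `s` monomials of degree more than `d` have a nonzero coefficient. -/
def FewWide {R : Type} [Zero R] (d s : ℕ) (a : Finset ℕ → R) : Prop :=
  ∃ W : Finset (Finset ℕ), W.card ≤ s ∧ ∀ S, d < S.card → a S ≠ 0 → S ∈ W

/-- On every finite set of variables, and on the examples with at most `n` true variables, `g` is
the sign of a real polynomial with at most `s` monomials of degree more than `d`. -/
def IsPTF (d s n : ℕ) (g : Finset ℕ → Bool) : Prop :=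
  ∀ Ω : Finset ℕ, ∃ a : Finset ℕ → ℝ, FewWide d s a ∧
    ∀ x ⊆ Ω, x.card ≤ n → (g x = true ↔ 0 < polyVal a x)

/-- On the examples with at most `n` true variables, `g` is a polynomial over the field with two
elements with at most `s` monomials of degree more than `d`. -/
def IsF2Poly (d s n : ℕ) (g : Finset ℕ → Bool) : Prop :=
  ∃ a : Finset ℕ → ZMod 2, FewWide d s a ∧
    ∀ x : Finset ℕ, x.card ≤ n → (g x = true ↔ polyVal a x = 1)

/-- The number of wrong predictions of the learner `L` (a map from the labelled history to the
current hypothesis) on the examples `xs` with target `c`, started from the history `h`. -/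
def mistakes (L : List (Finset ℕ × Bool) → Finset ℕ → Bool) (c : Finset ℕ → Bool) :
    List (Finset ℕ × Bool) → List (Finset ℕ) → ℕ
  | _, [] => 0
  | h, x :: xs => (if L h x = c x then 0 else 1) + mistakes L c (h ++ [(x, c x)]) xs

end Pool.Agent.Work.MP_1595dd_lc.Bar
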