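import Pool.Agent.Work.MP_1595dd_lc.BarAdv

/-!
Hypotheses of low degree over the field with two elements cannot learn parities fast.
-/

namespace Pool.Agent.Work.MP_1595dd_lc.Bar.F2

open Finset

/-- Vectors. -/
abbrev V : Type := ℕ → ZMod 2

/-- Monomials. -/
def mono (S : Finset ℕ) : V → ZMod 2 := fun φ => ∏ v ∈ S, φ v

/-- Functions of degree less than `e`. -/
def DF (e : ℕ) : Submodule (ZMod 2) (V → ZMod 2) :=
  Submodule.span (ZMod 2) {f | ∃ S : Finset ℕ, S.card < e ∧ f = mono S}

theorem DF_zero {f : V → ZMod 2} (hf : f ∈ DF 0) : f = 0 := by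
  have : {f : V → ZMod 2 | ∃ S : Finset ℕ, S.card < 0 ∧ f = mono S} = ∅ := by
    ext f; simp
  rw [DF, this, Submodule.span_empty] at hf
  simpa using hf

theorem DF_diff {e : ℕ} (g : V) {f : V → ZMod 2} (hf : f ∈ DF (e + 1)) :
    (fun φ => f (g + φ) - f φ) ∈ DF e := by
  induction hf using Submodule.span_induction with
  | mem f hf =>
    obtain ⟨S, hS, rfl⟩ := hf
    have key : (fun φ => mono S (g + φ) - mono S φ) =
        ∑ t ∈ S.powerset.erase S, (∏ v ∈ S \ t, g v) • mono t := by
      funext φ
      have h1 : mono S (g + φ) = ∑ t ∈ S.powerset, (∏ v ∈ t, φ v) * ∏ v ∈ S \ t, g v := by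
        rw [← prod_add]
        simp [mono, add_comm]
      rw [h1, ← add_sum_erase _ _ (mem_powerset_self S)]
      simp [mono, mul_comm, Finset.sum_apply]
    rw [key]
    refine Submodule.sum_mem _ fun t ht => Submodule.smul_mem _ _ (Submodule.subset_span ?_)
    rw [mem_erase, mem_powerset] at ht
    have := card_lt_card (Finset.ssubset_iff_subset_ne.mpr ⟨ht.2, ht.1⟩)
    exact ⟨t, by omega, rfl⟩
  | zero =>
    have := (DF e).zero_mem
    convert this using 1
    funext φ
    simp
  | add f₁ f₂ _ _ h₁ h₂ =>
    have := (DF e).add_mem h₁ h₂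
    convert this using 1
    funext φ
    simp only [Pi.add_apply]
    ring
  | smul a f _ h =>
    have := (DF e).smul_mem a h
    convert this using 1
    funext φ
    simp only [Pi.smul_apply, smul_eq_mul]
    ring

theorem vanish {ι : Type} (gen : ι → V) (P : ι → Prop) {φ : V}
    (hφ : φ ∈ AddSubmonoid.closure (gen '' {u | P u})) :
    ∀ (e : ℕ) (f : V → ZMod 2), f ∈ DF e →
      (∀ K : List ι, (∀ u ∈ K, P u) → K.length < e → f (K.map gen).sum = 0) → f φ = 0 := by
  induction hφ using AddSubmonoid.closure_induction_left with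
  | zero =>
    intro e f hf h
    rcases e with _ | e
    · rw [DF_zero hf]; rfl
    · simpa using h [] (by simp) (by simp)
  | add_left g hg ψ _ ih =>
    intro e f hf h
    obtain ⟨u, hu, rfl⟩ := hg
    rcases e with _ | e
    · rw [DF_zero hf]; rfl
    · have h1 := ih (e + 1) f hf h
      have h2 := ih e _ (DF_diff (gen u) hf) (by
        intro K hK hl
        have h3 := h (u :: K) (by
          intro v hv
          rcases List.mem_cons.mp hv with rfl | hv
          · exact hu
          · exact hK v hv) (by simp; omega)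
        have h4 := h K hK (by omega)
        simp only [List.map_cons, List.sum_cons] at h3
        simp only [h3, h4, sub_zero])
      simp only [h1, sub_zero] at h2
      exact h2

variable {b : ℕ} (en : List (Fin b) → ℕ)

/-- The unit vector of a node. -/
def unit (u : List (Fin b)) : V := Pi.single (en u) 1

/-- The generators. -/
def gen (T : ℕ) (u : List (Fin b)) : V :=
  if u.length < T then unit en u + ∑ i : Fin b, unit en (i :: u) else unit en u

theorem unit_mem (T : ℕ) : ∀ (t : ℕ) (u : List (Fin b)), u.length + t = T →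
    unit en u ∈ AddSubmonoid.closure (gen en T '' {u : List (Fin b) | u.length ≤ T}) := by
  intro t
  induction t with
  | zero =>
    intro u hu
    refine AddSubmonoid.subset_closure ⟨u, by simp; omega, ?_⟩
    rw [gen, if_neg (by omega)]
  | succ t ih =>
    intro u hu
    have h1 : gen en T u ∈
        AddSubmonoid.closure (gen en T '' {u : List (Fin b) | u.length ≤ T}) :=
      AddSubmonoid.subset_closure ⟨u, by simp; omega, rfl⟩
    have h2 : ∑ i : Fin b, unit en (i :: u) ∈
        AddSubmonoid.closure (gen en T '' {u : List (Fin b) | u.length ≤ T}) :=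
      AddSubmonoid.sum_mem _ fun i _ => ih (i :: u) (by simp; omega)
    have h3 := AddSubmonoid.add_mem _ h1 h2
    rw [gen, if_pos (by omega), add_assoc] at h3
    have h4 : ∀ ψ : V, ψ + ψ = 0 := fun ψ => by
      funext v
      exact CharTwo.add_self_eq_zero _
    rwa [h4, add_zero] at h3

/-- The variables on the path from a node to the root. -/
def path (w : List (Fin b)) : Finset ℕ := w.tails.toFinset.image en

theorem tails_nodup {α : Type} (w : List α) : w.tails.Nodup := by
  induction w with
  | nil => simp
  | cons a w ih =>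
    rw [List.tails_cons, List.nodup_cons]
    refine ⟨fun h => ?_, ih⟩
    have := ((List.mem_tails _ _).mp h).length_le
    simp at this

/-- The linear form of a target. -/
def form (w : List (Fin b)) : V →+ ZMod 2 where
  toFun φ := ∑ v ∈ path en w, φ v
  map_zero' := by simp
  map_add' φ ψ := by simp [sum_add_distrib]

/-- The example of a vector. -/
def ex (Ω : Finset ℕ) (φ : V) : Finset ℕ := Ω.filter fun v => φ v = 1

theorem ex_sub (Ω : Finset ℕ) (φ : V) : ex Ω φ ⊆ Ω := filter_subset _ _

theorem two_cases (a : ZMod 2) : a = 0 ∨ a = 1 := by revert a; decide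

theorem card_ex_add (Ω : Finset ℕ) (φ ψ : V) :
    (ex Ω (φ + ψ)).card ≤ (ex Ω φ).card + (ex Ω ψ).card := by
  refine (card_le_card ?_).trans (card_union_le _ _)
  intro v hv
  simp only [ex, mem_filter, mem_union, Pi.add_apply] at hv ⊢
  rcases two_cases (φ v) with h | h
  · right; rw [h, zero_add] at hv; exact hv
  · left; exact ⟨hv.1, h⟩

theorem card_ex_zero (Ω : Finset ℕ) : (ex Ω 0).card = 0 := by
  simp [ex]

theorem card_ex_unit (Ω : Finset ℕ) (u : List (Fin b)) : (ex Ω (unit en u)).card ≤ 1 := by
  refine (card_le_card (t := {en u}) ?_).trans (by simp)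
  intro v hv
  simp only [ex, mem_filter, unit, Pi.single_apply] at hv
  by_contra h
  rw [mem_singleton] at h
  rw [if_neg h] at hv
  exact absurd hv.2 (by decide)

theorem card_ex_sum {ι : Type} (Ω : Finset ℕ) (g : ι → V) (k : ℕ)
    (hg : ∀ u, (ex Ω (g u)).card ≤ k) (K : List ι) :
    (ex Ω (K.map g).sum).card ≤ K.length * k := by
  induction K with
  | nil => simp [card_ex_zero]
  | cons u K ih =>
    simp only [List.map_cons, List.sum_cons, List.length_cons]
    have := card_ex_add Ω (g u) (K.map g).sum
    have := hg u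
    nlinarith

theorem card_ex_gen (Ω : Finset ℕ) (T : ℕ) (u : List (Fin b)) :
    (ex Ω (gen en T u)).card ≤ b + 1 := by
  unfold gen
  split_ifs
  · have h1 := card_ex_add Ω (unit en u) (∑ i : Fin b, unit en (i :: u))
    have h2 := card_ex_unit en Ω u
    have h3 := card_ex_sum Ω (fun i : Fin b => unit en (i :: u)) 1
      (fun i => card_ex_unit en Ω _) (List.finRange b)
    rw [← Fin.sum_univ_def] at h3
    simp only [List.length_finRange] at h3
    omega
  · have := card_ex_unit en Ω u
    omega

theorem parity_ex {Ω : Finset ℕ} {w : List (Fin b)} (hw : path en w ⊆ Ω) (φ : V) :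
    parityOn (path en w) (ex Ω φ) = true ↔ form en w φ = 1 := by
  have h1 : path en w ∩ ex Ω φ = (path en w).filter fun v => φ v = 1 := by
    ext v
    simp only [ex, mem_inter, mem_filter]
    exact ⟨fun h => ⟨h.1, h.2.2⟩, fun h => ⟨h.1, hw h.1, h.2⟩⟩
  have h2 : form en w φ = (((path en w).filter fun v => φ v = 1).card : ZMod 2) := by
    change ∑ v ∈ path en w, φ v = _
    rw [card_filter, Nat.cast_sum]
    refine sum_congr rfl fun v _ => ?_
    rcases two_cases (φ v) with h | h <;> simp [h]
  rw [parityOn, decide_eq_true_iff, h1, h2, ZMod.natCast_eq_one_iff_odd]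

theorem lowVal_ex (d : ℕ) (a : Finset ℕ → ZMod 2) (Ω : Finset ℕ) :
    (fun φ => lowVal d a (ex Ω φ)) ∈ DF (d + 1) := by
  have key : (fun φ => lowVal d a (ex Ω φ)) =
      ∑ S ∈ Ω.powerset with S.card ≤ d, a S • mono S := by
    funext φ
    rw [Finset.sum_apply, lowVal]
    have h1 : ((ex Ω φ).powerset.filter fun S => S.card ≤ d) =
        (Ω.powerset.filter fun S => S.card ≤ d).filter fun S => ∀ v ∈ S, φ v = 1 := by
      ext S
      simp only [mem_filter, mem_powerset, ex, subset_iff]
      constructor
      · rintro ⟨h1, h2⟩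
        exact ⟨⟨fun v hv => (h1 hv).1, h2⟩, fun v hv => (h1 hv).2⟩
      · rintro ⟨⟨h1, h2⟩, h3⟩
        exact ⟨fun v hv => ⟨h1 hv, h3 v hv⟩, h2⟩
    rw [h1, sum_filter]
    refine sum_congr rfl fun S _ => ?_
    simp only [Pi.smul_apply, smul_eq_mul, mono]
    split_ifs with h
    · rw [prod_eq_one h, mul_one]
    · push Not at h
      obtain ⟨v, hv, h⟩ := h
      rw [prod_eq_zero hv ((two_cases _).resolve_right h), mul_zero]
  rw [key]
  refine Submodule.sum_mem _ fun S hS => Submodule.smul_mem _ _ (Submodule.subset_span ?_)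
  exact ⟨S, by have := (mem_filter.mp hS).2; omega, rfl⟩

variable {en}

theorem mem_path (hen : Function.Injective en) {u w : List (Fin b)} :
    en u ∈ path en w ↔ u <:+ w := by
  simp only [path, mem_image, List.mem_toFinset, List.mem_tails]
  constructor
  · rintro ⟨s, hs, h⟩
    rwa [← hen h]
  · exact fun h => ⟨u, h, rfl⟩

theorem form_unit (hen : Function.Injective en) (w u : List (Fin b)) :
    form en w (unit en u) = if u <:+ w then 1 else 0 := by
  change ∑ v ∈ path en w, unit en u v = _
  simp only [unit, Pi.single_apply, sum_ite_eq', mem_path hen]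

theorem form_gen (hen : Function.Injective en) {T : ℕ} {w u : List (Fin b)} (hw : w.length = T)
    (hu : u.length ≤ T) (h : form en w (gen en T u) ≠ 0) : u = w := by
  by_cases hl : u.length < T
  · exfalso
    apply h
    rw [gen, if_pos hl, map_add, map_sum]
    simp only [form_unit hen]
    by_cases hs : u <:+ w
    · obtain ⟨s, rfl⟩ := hs
      have hne : s ≠ [] := by
        rintro rfl
        simp at hw
        omega
      obtain ⟨s', i, rfl⟩ : ∃ s' i, s = s' ++ [i] :=
        ⟨s.dropLast, s.getLast hne, (List.dropLast_append_getLast hne).symm⟩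
      have h1 : (i :: u) <:+ s' ++ [i] ++ u := ⟨s', by simp⟩
      rw [if_pos (List.suffix_append _ _), sum_eq_single i, if_pos h1]
      · rfl
      · intro j _ hj
        rw [if_neg]
        intro h2
        have h3 := List.suffix_of_suffix_length_le h1 h2 (by simp)
        have h4 := h3.eq_of_length (by simp)
        exact hj (List.cons.inj h4).1.symm
      · simp
    · rw [if_neg hs, zero_add]
      refine sum_eq_zero fun i _ => if_neg fun h2 => hs ((List.suffix_cons i u).trans h2)
  · rw [gen, if_neg hl, form_unit hen] at h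
    have h1 : u <:+ w := by
      by_contra h2
      exact h (if_neg h2)
    exact h1.eq_of_length (by omega)

theorem fingerprint (hen : Function.Injective en) (d T : ℕ) (hd : 1 ≤ d) (Ω : Finset ℕ)
    (U : Finset (List (Fin b))) (hU : ∀ w ∈ U, w.length = T) (hp : ∀ w ∈ U, path en w ⊆ Ω)
    (g : Finset ℕ → Bool) (a : Finset ℕ → ZMod 2)
    (ha : ∀ x ⊆ Ω, x.card ≤ d * (b + 1) → (g x = true ↔ lowVal d a x = 1)) :
    ∃ x ⊆ Ω, x.card ≤ d * (b + 1) ∧
      (U.filter fun w => parityOn (path en w) x = g x).card ≤ d := by
  by_cases h0 : lowVal d a (ex Ω (unit en [])) = 0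
  · have hc : (ex Ω (unit en [])).card ≤ d * (b + 1) := by
      have := card_ex_unit en Ω []
      nlinarith
    refine ⟨ex Ω (unit en []), filter_subset _ _, hc, ?_⟩
    rw [filter_eq_empty_iff.mpr]
    · simp
    · intro w hw h
      have h1 : parityOn (path en w) (ex Ω (unit en [])) = true := by
        rw [parity_ex en (hp w hw), form_unit hen, if_pos List.nil_suffix]
      rw [h, ha _ (ex_sub _ _) hc, h0] at h1
      exact absurd h1 (by decide)
  · by_contra hcon
    apply h0
    refine vanish (gen en T) (fun u : List (Fin b) => u.length ≤ T)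
      (unit_mem en T T [] (by simp)) (d + 1) _ (lowVal_ex d a Ω) ?_
    intro K hK hl
    by_contra h1
    have h2 := (two_cases _).resolve_left h1
    apply hcon
    have hc : (ex Ω (K.map (gen en T)).sum).card ≤ d * (b + 1) :=
      (card_ex_sum Ω (gen en T) (b + 1) (card_ex_gen en Ω T) K).trans
        (Nat.mul_le_mul_right _ (by omega))
    refine ⟨ex Ω (K.map (gen en T)).sum, filter_subset _ _, hc, ?_⟩
    refine (card_le_card (t := K.toFinset) ?_).trans
      ((List.toFinset_card_le K).trans (by omega))
    intro w hw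
    rw [mem_filter] at hw
    have h3 := (ha _ (ex_sub _ _) hc).mpr h2
    rw [h3, parity_ex en (hp w hw.1), map_list_sum] at hw
    rw [List.mem_toFinset]
    by_contra h4
    have h5 : (List.map (form en w) (K.map (gen en T))).sum = 0 := by
      refine List.sum_eq_zero ?_
      intro z hz
      simp only [List.map_map, List.mem_map, Function.comp] at hz
      obtain ⟨u, hu, rfl⟩ := hz
      by_contra h6
      exact h4 (form_gen hen (hU w hw.1) (hK u hu) h6 ▸ hu)
    rw [h5] at hw
    exact absurd hw.2 (by decide)

variable {K : ℕ}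

/-- The copies of the variable of a node. -/
def var (u : List (Fin b)) (c : Fin K) : ℕ := Encodable.encode (u, c)

theorem var_inj (u : List (Fin b)) (c : Fin K) (w : List (Fin b)) (e : Fin K)
    (h : var u c = var w e) : u = w ∧ c = e := Prod.mk.inj (Encodable.encode_injective h)

/-- The target of a leaf. -/
def target (K : ℕ) (w : List (Fin b)) : Finset ℕ :=
  (w.tails.toFinset ×ˢ (univ : Finset (Fin K))).image fun p => var p.1 p.2

theorem card_target (K : ℕ) (w : List (Fin b)) : (target K w).card = K * (w.length + 1) := by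
  rw [target, card_image_of_injective, card_product,
    List.toFinset_card_of_nodup (tails_nodup w), List.length_tails]
  · simp [mul_comm]
  · intro p q h
    exact Prod.ext (var_inj _ _ _ _ h).1 (var_inj _ _ _ _ h).2

theorem fingerprint' (d b T K s : ℕ) (hd : 1 ≤ d) (hs : s < K ^ (d + 1)) (g : Finset ℕ → Bool)
    (hg : IsF2Poly d s (d * (b + 1)) g) (U : Finset (List (Fin b)))
    (hU : ∀ w ∈ U, w.length = T) :
    ∃ x : Finset ℕ, x.card ≤ d * (b + 1) ∧
      (U.filter fun w => parityOn (target K w) x = g x).card ≤ d := by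
  obtain ⟨a, ha, hg⟩ := hg
  obtain ⟨σ, hσ⟩ := exists_choice (List.finite_length_le (Fin b) T).toFinset K d s hs var var_inj
    a ha
  have hen : Function.Injective fun u : List (Fin b) => var u (σ u) :=
    fun u w h => (var_inj _ _ _ _ h).1
  obtain ⟨x, hx, h1, h2⟩ := fingerprint hen d T hd _ U hU (by
    intro w hw v hv
    obtain ⟨u, hu, rfl⟩ := mem_image.mp hv
    rw [List.mem_toFinset, List.mem_tails] at hu
    refine mem_image_of_mem (fun u => var u (σ u))
      (s := (List.finite_length_le (Fin b) T).toFinset) ?_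
    have := hu.length_le
    have := hU w hw
    simp; omega) g a fun x hx hc => by rw [← hσ x hx]; exact hg x hc
  refine ⟨x, h1, le_of_eq_of_le ?_ h2⟩
  congr 1
  refine filter_congr fun w _ => ?_
  have h3 : target K w ∩ x = path (fun u => var u (σ u)) w ∩ x := by
    ext v
    simp only [mem_inter]
    refine and_congr_left fun hv => ?_
    obtain ⟨u, _, rfl⟩ := mem_image.mp (hx hv)
    rw [mem_path hen]
    simp only [target, mem_image, mem_product, List.mem_toFinset, List.mem_tails, mem_univ,
      and_true]
    constructor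
    · rintro ⟨p, hp, h⟩
      rwa [← (var_inj _ _ _ _ h).1]
    · exact fun h => ⟨(u, σ u), h, rfl⟩
  rw [parityOn, parityOn, h3]

theorem barrier (d b T K s : ℕ) (hd : 1 ≤ d) (hb : 1 ≤ b) (hs : s < K ^ (d + 1))
    (L : List (Finset ℕ × Bool) → Finset ℕ → Bool)
    (hL : ∀ h, IsF2Poly d s (d * (b + 1)) (L h)) :
    ∃ (S : Finset ℕ) (xs : List (Finset ℕ)), S.card = K * (T + 1) ∧
      (∀ x ∈ xs, x.card ≤ d * (b + 1)) ∧ b ^ T ≤ d * (mistakes L (parityOn S) [] xs + 1) := by
  set U : Finset (List (Fin b)) := (univ : Finset (Fin T → Fin b)).image List.ofFn with hUdef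
  have hU : ∀ w ∈ U, w.length = T := by
    intro w hw
    obtain ⟨f, _, rfl⟩ := mem_image.mp hw
    simp
  have hc : U.card = b ^ T := by
    rw [hUdef, card_image_of_injective _ List.ofFn_injective]
    simp
  have hne : U.Nonempty := card_pos.mp (by rw [hc]; positivity)
  obtain ⟨w, hw, xs, hxs, hM⟩ := adversary' L (fun w => parityOn (target K w)) U hne
    (fun x => x.card ≤ d * (b + 1)) d hd
    fun h => fingerprint' d b T K s hd hs (L h) (hL h) U hU
  exact ⟨target K w, xs, by rw [card_target, hU w hw], hxs, hc ▸ hM⟩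

end Pool.Agent.Work.MP_1595dd_lc.Bar.F2
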