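import Mathlib
import Pool.Agent.Work.MP_1595dd_lc.BarAdv

-- merged part: Pool.Agent.Work.MP_1595dd_lc.BarU
section
/-!
Extrapolation weights: a polynomial of degree at most `d` at `1` from its values at `m i²`.
-/

namespace Pool.Agent.Work.MP_1595dd_lc.Bar

open Finset Nat

theorem prod_sq_base (n : ℕ) :
    2 * ∏ j ∈ range (n + 1), |((n + 1 : ℕ) : ℝ) ^ 2 - (j : ℝ) ^ 2| = ((2 * (n + 1))! : ℝ) := by
  have h1 : ∏ j ∈ range (n + 1), |((n + 1 : ℕ) : ℝ) ^ 2 - (j : ℝ) ^ 2| =
      ((∏ j ∈ range (n + 1), (n + 1 - j) : ℕ) : ℝ) * ((∏ j ∈ range (n + 1), (n + 1 + j) : ℕ) : ℝ) := by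
    rw [Nat.cast_prod, Nat.cast_prod, ← prod_mul_distrib]
    refine prod_congr rfl fun j hj => ?_
    have hj' : j ≤ n + 1 := (mem_range.mp hj).le
    have hj2 : (j : ℝ) ≤ ((n + 1 : ℕ) : ℝ) := by exact_mod_cast hj'
    have hj3 : (0 : ℝ) ≤ j := Nat.cast_nonneg j
    rw [Nat.cast_sub hj', abs_of_nonneg (by linarith only [hj2, mul_nonneg_of_nonpos_of_nonpos (Mathlib.Tactic.Linarith.sub_nonpos_of_le (Mathlib.Tactic.Linarith.natCast_nonneg ℝ j)) (Mathlib.Tactic.Linarith.sub_nonpos_of_le hj2), mul_nonneg_of_nonpos_of_nonpos (Mathlib.Tactic.Linarith.sub_nonpos_of_le (Mathlib.Tactic.Linarith.natCast_nonneg ℝ (n + (1 : ℕ)))) (Mathlib.Tactic.Linarith.sub_nonpos_of_le hj2)])]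
    push_cast
    ring
  rw [h1, ← Nat.descFactorial_eq_prod_range, ← Nat.ascFactorial_eq_prod_range,
    Nat.descFactorial_self]
  have h2 := Nat.factorial_mul_ascFactorial n (n + 1)
  have h3 : (2 * (n + 1))! = 2 * ((n + 1)! * (n + 1).ascFactorial (n + 1)) := by
    rw [show 2 * (n + 1) = (n + (n + 1)) + 1 by ring, Nat.factorial_succ, ← h2,
      Nat.factorial_succ n]
    ring
  rw [h3]
  push_cast
  ring

theorem prod_sq_diff (i e : ℕ) (hi : 1 ≤ i) :
    2 * ∏ j ∈ (range (i + e + 1)).erase i, |(i : ℝ) ^ 2 - (j : ℝ) ^ 2| =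
      (e ! : ℝ) * ((2 * i + e)! : ℝ) := by
  induction e with
  | zero =>
    obtain ⟨n, rfl⟩ : ∃ n, i = n + 1 := ⟨i - 1, by omega⟩
    have h : (range (n + 1 + 0 + 1)).erase (n + 1) = range (n + 1) := by
      ext j; simp; omega
    rw [h, prod_sq_base]
    simp
  | succ e ih =>
    have h : (range (i + (e + 1) + 1)).erase i =
        insert (i + e + 1) ((range (i + e + 1)).erase i) := by
      ext j; simp; omega
    rw [h, prod_insert (by simp), mul_left_comm, ih,
      show 2 * i + (e + 1) = (2 * i + e) + 1 by ring, Nat.factorial_succ, Nat.factorial_succ]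
    have h1 : (0 : ℝ) ≤ i := Nat.cast_nonneg i
    have h2 : (0 : ℝ) ≤ e := Nat.cast_nonneg e
    rw [abs_of_nonpos (by push_cast; linarith only [mul_nonneg_of_nonpos_of_nonpos (Mathlib.Tactic.Linarith.sub_nonpos_of_le (Mathlib.Tactic.Linarith.natCast_nonneg ℝ i)) (Mathlib.Tactic.Linarith.sub_nonpos_of_le (Mathlib.Tactic.Linarith.natCast_nonneg ℝ e)), mul_nonneg_of_nonpos_of_nonpos (Mathlib.Tactic.Linarith.sub_nonpos_of_le (Mathlib.Tactic.Linarith.natCast_nonneg ℝ e)) (Mathlib.Tactic.Linarith.sub_nonpos_of_le (Mathlib.Tactic.Linarith.natCast_nonneg ℝ e))])]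
    push_cast
    ring

theorem fact_sq_le (d : ℕ) : ∀ i, i ≤ d → d ! * d ! ≤ (d - i)! * (d + i)! := by
  intro i
  induction i with
  | zero => simp
  | succ i ih =>
    intro hi
    refine (ih (by omega)).trans ?_
    obtain ⟨k, hk⟩ : ∃ k, d - i = k + 1 := ⟨d - i - 1, by omega⟩
    rw [hk, show d - (i + 1) = k by omega, ← add_assoc, Nat.factorial_succ, Nat.factorial_succ]
    have : k + 1 ≤ d + i + 1 := by omega
    calc (k + 1) * k ! * (d + i)! ≤ (d + i + 1) * k ! * (d + i)! := by gcongr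
      _ = k ! * ((d + i + 1) * (d + i)!) := by ring

theorem sum_inv_sq (d : ℕ) : ∑ i ∈ range d, 1 / ((i : ℝ) + 1) ^ 2 ≤ 2 - 1 / ((d : ℝ) + 1 / 2) := by
  induction d with
  | zero => norm_num
  | succ d ih =>
    rw [sum_range_succ]
    have h1 : (0 : ℝ) ≤ d := Nat.cast_nonneg d
    have h2 : 1 / ((d : ℝ) + 1) ^ 2 ≤ 1 / ((d : ℝ) + 1 / 2) - 1 / ((d : ℝ) + 1 + 1 / 2) := by
      rw [div_sub_div _ _ (by positivity) (by positivity), div_le_div_iff₀ (by positivity)
        (by positivity)]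
      linarith only []
    push_cast
    linarith only [ih, h2]

theorem basis_bound (d m i : ℕ) (hm : 1 ≤ m) (hi : 1 ≤ i) (hid : i ≤ d) :
    |∏ j ∈ (range (d + 1)).erase i,
      (((m * i ^ 2 : ℕ) : ℝ) - ((m * j ^ 2 : ℕ) : ℝ))⁻¹ * (1 - ((m * j ^ 2 : ℕ) : ℝ))| ≤
      2 / (m * (i : ℝ) ^ 2) := by
  have hm' : (1 : ℝ) ≤ m := by exact_mod_cast hm
  have hi' : (1 : ℝ) ≤ i := by exact_mod_cast hi
  obtain ⟨e, rfl⟩ : ∃ e, d = i + e := ⟨d - i, by omega⟩
  have hP := prod_sq_diff i e hi
  set P := ∏ j ∈ (range (i + e + 1)).erase i, |(i : ℝ) ^ 2 - (j : ℝ) ^ 2| with hPdef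
  have hF : (((i + e)! : ℕ) : ℝ) * ((i + e)! : ℕ) ≤ (e ! : ℝ) * ((2 * i + e)! : ℝ) := by
    have := fact_sq_le (i + e) i (by omega)
    rw [show i + e - i = e by omega, show i + e + i = 2 * i + e by ring] at this
    exact_mod_cast this
  have hPpos : 0 < P := by
    have : (0 : ℝ) < (e ! : ℝ) * ((2 * i + e)! : ℝ) := by positivity
    linarith only [hP, this]
  have h1 : |∏ j ∈ (range (i + e + 1)).erase i,
      (((m * i ^ 2 : ℕ) : ℝ) - ((m * j ^ 2 : ℕ) : ℝ))⁻¹ * (1 - ((m * j ^ 2 : ℕ) : ℝ))| =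
      P⁻¹ * ∏ j ∈ (range (i + e + 1)).erase i, (|1 - (m : ℝ) * (j : ℝ) ^ 2| / (m : ℝ)) := by
    rw [hPdef, ← prod_inv_distrib, ← prod_mul_distrib, abs_prod]
    refine prod_congr rfl fun j _ => ?_
    push_cast
    rw [← mul_sub, abs_mul, abs_inv, abs_mul, abs_of_pos (by linarith only [hm'] : (0 : ℝ) < m), mul_inv]
    ring
  have h0 : 0 ∈ (range (i + e + 1)).erase i := by simp; omega
  have h2 : ∏ j ∈ (range (i + e + 1)).erase i, (|1 - (m : ℝ) * (j : ℝ) ^ 2| / (m : ℝ)) ≤
      1 / (m : ℝ) * ∏ j ∈ ((range (i + e + 1)).erase i).erase 0, (j : ℝ) ^ 2 := by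
    rw [← mul_prod_erase _ _ h0]
    simp only [Nat.cast_zero, ne_eq, OfNat.ofNat_ne_zero, not_false_eq_true, zero_pow, mul_zero,
      sub_zero, abs_one]
    refine mul_le_mul_of_nonneg_left (prod_le_prod (fun j _ => by positivity) fun j hj => ?_)
      (by positivity)
    have hj1 : (1 : ℝ) ≤ j := by
      have := (mem_erase.mp hj).1
      exact_mod_cast Nat.one_le_iff_ne_zero.mpr this
    have hj2 : (1 : ℝ) ≤ (j : ℝ) ^ 2 := one_le_pow₀ hj1
    rw [div_le_iff₀ (by linarith only [hm']), abs_of_nonpos (by linarith only [hj2, hm', mul_nonneg_of_nonpos_of_nonpos (Mathlib.Tactic.Linarith.sub_nonpos_of_le (sq_nonneg ↑j)) (Mathlib.Tactic.Linarith.sub_nonpos_of_le hm')])]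
    linarith only []
  have h3 : (i : ℝ) ^ 2 * ∏ j ∈ ((range (i + e + 1)).erase i).erase 0, (j : ℝ) ^ 2 =
      (((i + e)! : ℕ) : ℝ) * ((i + e)! : ℕ) := by
    have h4 : i ∈ (range (i + e + 1)).erase 0 := by simp; omega
    rw [erase_right_comm, mul_prod_erase ((range (i + e + 1)).erase 0) (fun j => (j : ℝ) ^ 2) h4,
      prod_pow, ← sq]
    congr 1
    have h5 : (range (i + e + 1)).erase 0 = Ico 1 (i + e + 1) := by
      ext j; simp; omega
    rw [h5, ← Nat.cast_prod, prod_Ico_id_eq_factorial]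
  set Q := ∏ j ∈ ((range (i + e + 1)).erase i).erase 0, (j : ℝ) ^ 2
  rw [h1]
  refine (mul_le_mul_of_nonneg_left h2 (by positivity)).trans ?_
  have h6 : (i : ℝ) ^ 2 * Q ≤ 2 * P := by linarith only [hP, hF, h3]
  rw [le_div_iff₀ (by positivity)]
  calc P⁻¹ * (1 / m * Q) * (m * (i : ℝ) ^ 2) = P⁻¹ * ((i : ℝ) ^ 2 * Q) := by field_simp
    _ ≤ P⁻¹ * (2 * P) := by gcongr
    _ = 2 := by field_simp

theorem exists_mu (d m : ℕ) (hm : 1 ≤ m) : ∃ μ : ℕ → ℝ,
    (∀ s ≤ d, ((Nat.choose 1 s : ℕ) : ℝ) =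
      ∑ i ∈ range (d + 1), μ i * (Nat.choose (m * i ^ 2) s : ℝ)) ∧
    ∑ i ∈ range d, |μ (i + 1)| ≤ 4 / m := by
  have hm' : (1 : ℝ) ≤ m := by exact_mod_cast hm
  let v : ℕ → ℝ := fun i => ((m * i ^ 2 : ℕ) : ℝ)
  have hv : Set.InjOn v (range (d + 1) : Finset ℕ) := by
    intro i _ j _ h
    have h1 : m * i ^ 2 = m * j ^ 2 := Nat.cast_injective (R := ℝ) h
    have h2 := Nat.eq_of_mul_eq_mul_left (by omega) h1
    exact Nat.pow_left_injective (by norm_num) h2
  refine ⟨fun i => (Lagrange.basis (range (d + 1)) v i).eval 1, ?_, ?_⟩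
  · intro s hs
    have hdeg : (descPochhammer ℝ s).degree < (range (d + 1)).card := by
      refine (Polynomial.degree_le_natDegree).trans_lt ?_
      rw [descPochhammer_natDegree, card_range]
      exact_mod_cast Nat.lt_succ_of_le hs
    have h1 := congrArg (Polynomial.eval (1 : ℝ)) (Lagrange.eq_interpolate hv hdeg)
    rw [Lagrange.interpolate_apply, Polynomial.eval_finsetSum] at h1
    have h2 := descPochhammer_eval_eq_descFactorial ℝ 1 s
    rw [Nat.cast_one] at h2
    rw [h2, Nat.descFactorial_eq_factorial_mul_choose] at h1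
    have hs0 : (s ! : ℝ) ≠ 0 := by positivity
    apply mul_left_cancel₀ hs0
    rw [mul_sum]
    push_cast at h1
    rw [h1]
    refine sum_congr rfl fun i _ => ?_
    rw [Polynomial.eval_mul, Polynomial.eval_C, descPochhammer_eval_eq_descFactorial,
      Nat.descFactorial_eq_factorial_mul_choose]
    push_cast
    ring
  · have h1 : ∀ i ∈ range d, |(Lagrange.basis (range (d + 1)) v (i + 1)).eval 1| ≤
        2 / m * (1 / ((i : ℝ) + 1) ^ 2) := by
      intro i hi
      have h2 := basis_bound d m (i + 1) hm (by omega) (by simpa using hi)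
      have h3 : (Lagrange.basis (range (d + 1)) v (i + 1)).eval 1 =
          ∏ j ∈ (range (d + 1)).erase (i + 1),
            (((m * (i + 1) ^ 2 : ℕ) : ℝ) - ((m * j ^ 2 : ℕ) : ℝ))⁻¹ *
              (1 - ((m * j ^ 2 : ℕ) : ℝ)) := by
        rw [Lagrange.basis, Polynomial.eval_prod]
        refine prod_congr rfl fun j _ => ?_
        simp [Lagrange.basisDivisor, v]
      rw [h3]
      refine h2.trans (le_of_eq ?_)
      push_cast
      field_simp
    refine (sum_le_sum h1).trans ?_
    rw [← mul_sum]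
    have h4 := sum_inv_sq d
    have h5 : (0 : ℝ) ≤ 1 / ((d : ℝ) + 1 / 2) := by positivity
    calc 2 / (m : ℝ) * ∑ i ∈ range d, 1 / ((i : ℝ) + 1) ^ 2 ≤ 2 / m * 2 := by
          gcongr; linarith only [h4, h5]
      _ = 4 / m := by ring

end Pool.Agent.Work.MP_1595dd_lc.Bar
end

-- merged part: Pool.Agent.Work.MP_1595dd_lc.BarD
section
/-!
Real functions of low degree on finite sets, block averages and positive kernels.
-/

namespace Pool.Agent.Work.MP_1595dd_lc.Bar

open Finset

/-- Real functions on examples. -/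
abbrev Fn : Type := Finset ℕ → ℝ

/-- Monomials. -/
def ind (S : Finset ℕ) : Fn := fun x => if S ⊆ x then 1 else 0

/-- Functions of degree less than `e`. -/
def Dg (e : ℕ) : Submodule ℝ Fn := Submodule.span ℝ {f | ∃ S : Finset ℕ, S.card < e ∧ f = ind S}

/-- Adding a set to the argument. -/
def shift (U : Finset ℕ) : Module.End ℝ Fn := LinearMap.funLeft ℝ ℝ fun x => x ∪ U

theorem shift_apply (U : Finset ℕ) (f : Fn) (x : Finset ℕ) : shift U f x = f (x ∪ U) := rfl

theorem ind_mem {e : ℕ} {S : Finset ℕ} (h : S.card < e) : ind S ∈ Dg e :=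
  Submodule.subset_span ⟨S, h, rfl⟩

theorem Dg_zero {f : Fn} (hf : f ∈ Dg 0) : f = 0 := by
  have : {f : Fn | ∃ S : Finset ℕ, S.card < 0 ∧ f = ind S} = ∅ := by
    ext f; simp
  rw [Dg, this, Submodule.span_empty] at hf
  simpa using hf

theorem sub_union_iff {S x U : Finset ℕ} : S ⊆ x ∪ U ↔ S \ U ⊆ x := by
  simp only [subset_iff, mem_union, mem_sdiff]
  constructor
  · exact fun h v hv => (h hv.1).resolve_right hv.2
  · intro h v hv
    by_cases hU : v ∈ U
    · exact Or.inr hU
    · exact Or.inl (h ⟨hv, hU⟩)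

theorem Dg_map {e e' : ℕ} (T : Module.End ℝ Fn)
    (h : ∀ S : Finset ℕ, S.card < e → T (ind S) ∈ Dg e') {f : Fn} (hf : f ∈ Dg e) :
    T f ∈ Dg e' := by
  have : Dg e ≤ (Dg e').comap T := by
    rw [Dg, Submodule.span_le]
    rintro _ ⟨S, hS, rfl⟩
    exact h S hS
  exact this hf

theorem shift_mem {e : ℕ} (U : Finset ℕ) {f : Fn} (hf : f ∈ Dg e) : shift U f ∈ Dg e := by
  refine Dg_map _ (fun S hS => ?_) hf
  have : shift U (ind S) = ind (S \ U) := by
    funext x
    simp only [shift_apply, ind, sub_union_iff]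
  rw [this]
  exact ind_mem ((card_le_card sdiff_subset).trans_lt hS)

theorem diff_mem {e : ℕ} (U : Finset ℕ) {f : Fn} (hf : f ∈ Dg (e + 1)) :
    (fun x => f (x ∪ U) - f (x \ U)) ∈ Dg e := by
  have := Dg_map (e := e + 1) (e' := e)
    (shift U - LinearMap.funLeft ℝ ℝ fun x => x \ U) (fun S hS => ?_) hf
  · exact this
  · by_cases h : Disjoint S U
    · have : (shift U - LinearMap.funLeft ℝ ℝ fun x => x \ U) (ind S) = 0 := by
        funext x
        simp only [LinearMap.sub_apply, Pi.sub_apply, shift_apply, LinearMap.funLeft_apply, ind,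
          sub_union_iff, sdiff_eq_self_of_disjoint h, subset_sdiff, h, and_true, sub_self,
          Pi.zero_apply]
      rw [this]
      exact Submodule.zero_mem _
    · have : (shift U - LinearMap.funLeft ℝ ℝ fun x => x \ U) (ind S) = ind (S \ U) := by
        funext x
        simp only [LinearMap.sub_apply, Pi.sub_apply, shift_apply, LinearMap.funLeft_apply, ind,
          sub_union_iff, subset_sdiff, h, and_false, if_false, sub_zero]
      rw [this]
      refine ind_mem ?_
      have : S \ U ⊂ S := by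
        refine Finset.ssubset_iff_subset_ne.mpr ⟨sdiff_subset, fun h1 => h ?_⟩
        exact sdiff_eq_left.mp h1
      have := card_lt_card this
      omega

theorem extrapolate {ι : Type} [DecidableEq ι] (nd : ℕ → ι) (x : Finset ℕ) (A : Finset ι) :
    ∀ (e : ℕ) (f : Fn) (W : ℝ), f ∈ Dg e →
      (∀ K ⊆ A, |f (x.filter fun v => nd v ∈ K)| ≤ 5 ^ K.card * W) →
      |f (x.filter fun v => nd v ∈ A)| ≤ 2 ^ A.card * 6 ^ e * W := by
  induction A using Finset.induction_on with
  | empty =>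
    intro e f W _ h
    have h1 := h ∅ Subset.rfl
    have h2 : 0 ≤ W := by simpa using (abs_nonneg _).trans h1
    have h3 : (1 : ℝ) ≤ 6 ^ e := one_le_pow₀ (by norm_num)
    simp only [card_empty, pow_zero, one_mul] at h1 ⊢
    linarith only [h1, h2, h3, mul_nonneg_of_nonpos_of_nonpos (Mathlib.Tactic.Linarith.sub_nonpos_of_le h2) (Mathlib.Tactic.Linarith.sub_nonpos_of_le h3)]
  | insert k A hk ih =>
    intro e f W hf h
    have hW : 0 ≤ W := by simpa using (abs_nonneg _).trans (h ∅ (empty_subset _))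
    rcases e with _ | e
    · rw [Dg_zero hf]
      simp only [Pi.zero_apply, abs_zero]
      positivity
    · set U := x.filter fun v => nd v = k with hU
      have e1 : ∀ K : Finset ι, (x.filter fun v => nd v ∈ K) ∪ U =
          x.filter fun v => nd v ∈ insert k K := by
        intro K
        ext v
        simp only [hU, mem_union, mem_filter, mem_insert]
        tauto
      have e2 : ∀ K ⊆ A, (x.filter fun v => nd v ∈ K) \ U = x.filter fun v => nd v ∈ K := by
        intro K hK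
        ext v
        simp only [hU, mem_sdiff, mem_filter]
        constructor
        · exact fun h => h.1
        · exact fun h => ⟨h, fun h1 => hk (hK (h1.2 ▸ h.2))⟩
      have h1 := ih (e + 1) f W hf fun K hK => h K (hK.trans (subset_insert _ _))
      have h2 := ih e _ (6 * W) (diff_mem U hf) (by
        intro K hK
        simp only [e1, e2 K hK]
        have h3 := h (insert k K) (insert_subset_insert _ hK)
        have h4 := h K (hK.trans (subset_insert _ _))
        rw [card_insert_of_notMem fun h5 => hk (hK h5), pow_succ] at h3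
        refine (abs_sub _ _).trans ?_
        linarith)
      simp only [e1, e2 A Subset.rfl] at h2
      rw [card_insert_of_notMem hk]
      have h5 := abs_add_le (f (x.filter fun v => nd v ∈ insert k A) -
        f (x.filter fun v => nd v ∈ A)) (f (x.filter fun v => nd v ∈ A))
      rw [sub_add_cancel] at h5
      rw [pow_succ (6 : ℝ)] at h1
      rw [pow_succ, pow_succ]
      linarith

/-- The average over the subsets of size `c` of the block `β`. -/
noncomputable def avg (β : Finset ℕ) (c : ℕ) : Module.End ℝ Fn :=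
  ((β.card.choose c : ℕ) : ℝ)⁻¹ • ∑ U ∈ β.powersetCard c, shift U

theorem avg_apply (β : Finset ℕ) (c : ℕ) (f : Fn) (x : Finset ℕ) :
    avg β c f x = ((β.card.choose c : ℕ) : ℝ)⁻¹ * ∑ U ∈ β.powersetCard c, f (x ∪ U) := by
  simp only [avg, LinearMap.smul_apply, LinearMap.sum_apply, Pi.smul_apply, Finset.sum_apply,
    smul_eq_mul, shift_apply]

theorem avg_ind {β x : Finset ℕ} (hx : Disjoint x β) {c : ℕ} (hc : c ≤ β.card) (S : Finset ℕ) :
    avg β c (ind S) x = ind (S \ β) x * ((β.card.choose (S ∩ β).card : ℕ) : ℝ)⁻¹ *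
      (c.choose (S ∩ β).card : ℕ) := by
  rw [avg_apply]
  have h1 : ∀ U ∈ β.powersetCard c,
      ind S (x ∪ U) = ind (S \ β) x * if S ∩ β ⊆ U then 1 else 0 := by
    intro U hU
    have hUβ := (mem_powersetCard.mp hU).1
    have : S ⊆ x ∪ U ↔ S \ β ⊆ x ∧ S ∩ β ⊆ U := by
      simp only [subset_iff, mem_union, mem_sdiff, mem_inter]
      constructor
      · intro h
        refine ⟨fun v hv => (h hv.1).resolve_right fun h1 => hv.2 (hUβ h1),
          fun v hv => (h hv.1).resolve_left fun h1 => disjoint_left.mp hx h1 hv.2⟩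
      · intro h v hv
        by_cases hb : v ∈ β
        · exact Or.inr (h.2 ⟨hv, hb⟩)
        · exact Or.inl (h.1 ⟨hv, hb⟩)
    simp only [ind, this]
    by_cases h2 : S \ β ⊆ x <;> by_cases h3 : S ∩ β ⊆ U <;> simp [h2, h3]
  rw [sum_congr rfl h1, ← mul_sum, sum_boole]
  set s := (S ∩ β).card with hs
  have hsB : s ≤ β.card := card_le_card inter_subset_right
  have p1 : (0 : ℝ) < (β.card.choose c : ℕ) := by exact_mod_cast Nat.choose_pos hc
  have p2 : (0 : ℝ) < (β.card.choose s : ℕ) := by exact_mod_cast Nat.choose_pos hsB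
  by_cases hsc : s ≤ c
  · rw [card_filter_powersetCard_subset _ _ _ inter_subset_right hsc, ← hs]
    have h2 : ((β.card.choose c : ℕ) : ℝ) * (c.choose s : ℕ) =
        (β.card.choose s : ℕ) * ((β.card - s).choose (c - s) : ℕ) := by
      exact_mod_cast Nat.choose_mul hsc
    field_simp
    linear_combination (-ind (S \ β) x) * h2
  · rw [Nat.choose_eq_zero_of_lt (by omega : c < s), filter_eq_empty_iff.mpr]
    · simp
    · intro U hU h
      have := card_le_card h
      have := (mem_powersetCard.mp hU).2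
      omega

theorem avg_zero (β : Finset ℕ) (f : Fn) (x : Finset ℕ) : avg β 0 f x = f x := by
  simp [avg_apply]

theorem avg_identity {d m : ℕ} (hd : 1 ≤ d) (hm : 1 ≤ m) {μ : ℕ → ℝ}
    (hμ : ∀ s ≤ d, ((Nat.choose 1 s : ℕ) : ℝ) =
      ∑ i ∈ range (d + 1), μ i * (Nat.choose (m * i ^ 2) s : ℝ))
    {β x : Finset ℕ} (hβ : β.card = m * d ^ 2) (hx : Disjoint x β) {f : Fn}
    (hf : f ∈ Dg (d + 1)) :
    avg β 1 f x = ∑ i ∈ range (d + 1), μ i * avg β (m * i ^ 2) f x := by
  induction hf using Submodule.span_induction with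
  | mem f hf =>
    obtain ⟨S, hS, rfl⟩ := hf
    have h1 : 1 ≤ β.card := by rw [hβ]; exact Nat.mul_pos hm (by positivity)
    have hs : (S ∩ β).card ≤ d := by
      have := card_le_card (inter_subset_left : S ∩ β ⊆ S)
      omega
    rw [avg_ind hx h1, hμ _ hs, mul_sum]
    refine sum_congr rfl fun i hi => ?_
    have h2 : m * i ^ 2 ≤ β.card := by
      rw [hβ]
      have : i ≤ d := by have := mem_range.mp hi; omega
      gcongr
    rw [avg_ind hx h2]
    ring
  | zero => simp
  | add f g _ _ h₁ h₂ =>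
    simp only [map_add, Pi.add_apply, h₁, h₂, mul_add, sum_add_distrib]
  | smul a f _ h =>
    simp only [map_smul, Pi.smul_apply, smul_eq_mul, h, mul_sum]
    exact sum_congr rfl fun i _ => by ring

/-- Positive kernels supported on `Q`, keeping the degree, with a moment bound. -/
structure Ker (e : ℕ) (Θ : Fn) (T : Module.End ℝ Fn) (Q : Finset ℕ → Prop) (c : ℝ) : Prop where
  pos : ∀ f x, (∀ y, Q y → 0 ≤ f (x ∪ y)) → 0 ≤ T f x
  deg : ∀ f ∈ Dg e, T f ∈ Dg e
  mom : ∀ x, T Θ x ≤ c * Θ x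
  nn : 0 ≤ c

namespace Ker

variable {e : ℕ} {Θ : Fn} {T T' : Module.End ℝ Fn} {Q Q' : Finset ℕ → Prop} {c c' : ℝ}

theorem le (h : Ker e Θ T Q c) {f g : Fn} {x : Finset ℕ}
    (hfg : ∀ y, Q y → f (x ∪ y) ≤ g (x ∪ y)) : T f x ≤ T g x := by
  have := h.pos (g - f) x fun y hy => sub_nonneg.mpr (hfg y hy)
  rw [map_sub] at this
  exact sub_nonneg.mp this

theorem congr (h : Ker e Θ T Q c) {f g : Fn} {x : Finset ℕ}
    (hfg : ∀ y, Q y → f (x ∪ y) = g (x ∪ y)) : T f x = T g x :=
  le_antisymm (h.le fun y hy => (hfg y hy).le) (h.le fun y hy => (hfg y hy).ge)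

theorem bound (h : Ker e Θ T Q c) {f : Fn} {x : Finset ℕ} {W : ℝ} (hW : 0 ≤ W)
    (hf : ∀ y, Q y → f (x ∪ y) ≤ W * Θ (x ∪ y)) : T f x ≤ c * (W * Θ x) := by
  have h1 := h.le (f := f) (g := W • Θ) (x := x) hf
  rw [map_smul, Pi.smul_apply, smul_eq_mul] at h1
  have h2 := mul_le_mul_of_nonneg_left (h.mom x) hW
  linarith

theorem mono (h : Ker e Θ T Q c) (hΘ : ∀ x, 0 ≤ Θ x) (hQ : ∀ y, Q y → Q' y) (hc : c ≤ c') :
    Ker e Θ T Q' c' where
  pos f x hf := h.pos f x fun y hy => hf y (hQ y hy)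
  deg := h.deg
  mom x := (h.mom x).trans (mul_le_mul_of_nonneg_right hc (hΘ x))
  nn := h.nn.trans hc

theorem one (hQ : Q ∅) : Ker e Θ 1 Q 1 where
  pos f x hf := by simpa using hf ∅ hQ
  deg f hf := hf
  mom x := by simp
  nn := zero_le_one

theorem zero : Ker e Θ 0 Q 0 where
  pos f x _ := by simp
  deg f _ := by simp
  mom x := by simp
  nn := le_rfl

theorem add (h : Ker e Θ T Q c) (h' : Ker e Θ T' Q c') : Ker e Θ (T + T') Q (c + c') where
  pos f x hf := add_nonneg (h.pos f x hf) (h'.pos f x hf)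
  deg f hf := Submodule.add_mem _ (h.deg f hf) (h'.deg f hf)
  mom x := by
    have := h.mom x
    have := h'.mom x
    simp only [LinearMap.add_apply, Pi.add_apply]
    linarith
  nn := add_nonneg h.nn h'.nn

theorem smul (h : Ker e Θ T Q c) {a : ℝ} (ha : 0 ≤ a) : Ker e Θ (a • T) Q (a * c) where
  pos f x hf := mul_nonneg ha (h.pos f x hf)
  deg f hf := Submodule.smul_mem _ _ (h.deg f hf)
  mom x := by
    have := mul_le_mul_of_nonneg_left (h.mom x) ha
    simp only [LinearMap.smul_apply, Pi.smul_apply, smul_eq_mul]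
    linarith
  nn := mul_nonneg ha h.nn

theorem mul {Q'' : Finset ℕ → Prop} (h : Ker e Θ T Q c) (h' : Ker e Θ T' Q' c')
    (hQ : ∀ y y', Q y → Q' y' → Q'' (y ∪ y')) : Ker e Θ (T * T') Q'' (c * c') where
  pos f x hf := h.pos _ x fun y hy => h'.pos f _ fun y' hy' => by
    rw [union_assoc]; exact hf _ (hQ y y' hy hy')
  deg f hf := h.deg _ (h'.deg f hf)
  mom x := by
    have := h.bound (f := T' Θ) (x := x) h'.nn fun y _ => h'.mom _
    rw [Module.End.mul_apply]
    linarith
  nn := mul_nonneg h.nn h'.nn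

theorem sum {ι : Type} (s : Finset ι) (K : ι → Module.End ℝ Fn) (k : ι → ℝ)
    (h : ∀ i ∈ s, Ker e Θ (K i) Q (k i)) : Ker e Θ (∑ i ∈ s, K i) Q (∑ i ∈ s, k i) := by
  classical
  induction s using Finset.induction_on with
  | empty => simpa using zero
  | insert i s hi ih =>
    rw [sum_insert hi, sum_insert hi]
    exact (h i (mem_insert_self _ _)).add (ih fun j hj => h j (mem_insert_of_mem hj))

end Ker

theorem ker_avg (e : ℕ) {Θ : Fn} {β : Finset ℕ} (hΘ : ∀ x, ∀ U ⊆ β, Θ (x ∪ U) ≤ 10 * Θ x)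
    {c : ℕ} (hc : 1 ≤ c) (hcβ : c ≤ β.card) :
    Ker e Θ (avg β c) (fun y => y ⊆ β ∧ y.Nonempty) 10 where
  pos f x hf := by
    rw [avg_apply]
    refine mul_nonneg (by positivity) (sum_nonneg fun U hU => hf U ?_)
    obtain ⟨h1, h2⟩ := mem_powersetCard.mp hU
    exact ⟨h1, card_pos.mp (by omega)⟩
  deg f hf := by
    rw [avg, LinearMap.smul_apply, LinearMap.sum_apply]
    exact Submodule.smul_mem _ _ (Submodule.sum_mem _ fun U _ => shift_mem U hf)
  mom x := by
    rw [avg_apply]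
    have p1 : (0 : ℝ) < (β.card.choose c : ℕ) := by exact_mod_cast Nat.choose_pos hcβ
    have h1 : ∑ U ∈ β.powersetCard c, Θ (x ∪ U) ≤ ∑ U ∈ β.powersetCard c, 10 * Θ x :=
      sum_le_sum fun U hU => hΘ x U (mem_powersetCard.mp hU).1
    rw [sum_const, card_powersetCard, nsmul_eq_mul] at h1
    rw [inv_mul_le_iff₀ p1]
    exact h1
  nn := by norm_num

theorem block_kernels {d : ℕ} (hd : 1 ≤ d) {Θ : Fn} (hΘ0 : ∀ x, 0 ≤ Θ x) {β : Finset ℕ}
    (hβ : β.card = 8000 * d ^ 2) (hΘ : ∀ x, ∀ U ⊆ β, Θ (x ∪ U) ≤ 10 * Θ x) :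
    ∃ N L : Module.End ℝ Fn,
      Ker (d + 1) Θ N (fun y => y ⊆ β ∧ y.Nonempty) (101 / 10) ∧
      Ker (d + 1) Θ L (fun y => y ⊆ β ∧ y.Nonempty) (1 / 199) ∧
      ∀ f ∈ Dg (d + 1), ∀ x, Disjoint x β → N f x = f x + L f x := by
  obtain ⟨μ, hμ, hγ⟩ := exists_mu d 8000 (by norm_num)
  have h0 := hμ 0 (Nat.zero_le _)
  simp only [Nat.choose_zero_right, Nat.cast_one, mul_one] at h0
  rw [sum_range_succ'] at h0
  have h1 : ∑ i ∈ range d, μ (i + 1) ≤ ∑ i ∈ range d, |μ (i + 1)| :=
    sum_le_sum fun i _ => le_abs_self _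
  have hμ0 : 1999 / 2000 ≤ μ 0 := by
    norm_num at hγ
    linarith only [h0, h1, hγ]
  have hinv : (μ 0)⁻¹ ≤ 2000 / 1999 := by
    rw [inv_le_comm₀ (by linarith only [hγ, h0, h1]) (by norm_num)]
    norm_num
    linarith only [hγ, h0, h1]
  have hinv0 : 0 ≤ (μ 0)⁻¹ := by positivity
  have hK : ∀ i ∈ range d, Ker (d + 1) Θ (avg β (8000 * (i + 1) ^ 2))
      (fun y => y ⊆ β ∧ y.Nonempty) 10 := by
    intro i hi
    refine ker_avg _ hΘ (Nat.mul_pos (by norm_num) (by positivity)) ?_
    rw [hβ]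
    have : i + 1 ≤ d := mem_range.mp hi
    gcongr
  have hK1 : Ker (d + 1) Θ (avg β 1) (fun y => y ⊆ β ∧ y.Nonempty) 10 :=
    ker_avg _ hΘ le_rfl (by rw [hβ]; exact Nat.mul_pos (by norm_num) (by positivity))
  have hs : ∀ g : ℕ → ℝ, (∀ i, g i ≤ |μ (i + 1)|) → ∑ i ∈ range d, g i * 10 ≤ 1 / 200 := by
    intro g hg
    rw [← sum_mul]
    have := sum_le_sum (s := range d) fun i _ => hg i
    norm_num at hγ
    linarith only [this, hγ]
  refine ⟨(μ 0)⁻¹ • (avg β 1 + ∑ i ∈ range d, max (-μ (i + 1)) 0 • avg β (8000 * (i + 1) ^ 2)),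
    (μ 0)⁻¹ • ∑ i ∈ range d, max (μ (i + 1)) 0 • avg β (8000 * (i + 1) ^ 2), ?_, ?_, ?_⟩
  · refine ((hK1.add (Ker.sum _ _ _ fun i hi => (hK i hi).smul (le_max_right _ _))).smul
      hinv0).mono hΘ0 (fun _ h => h) ?_
    have h2 := hs (fun i => max (-μ (i + 1)) 0) fun i => max_le (neg_le_abs _) (abs_nonneg _)
    have h3 : 0 ≤ ∑ i ∈ range d, max (-μ (i + 1)) 0 * 10 :=
      sum_nonneg fun i _ => by positivity
    linarith only [hinv, h2, h3, mul_nonneg_of_nonpos_of_nonpos (Mathlib.Tactic.Linarith.sub_nonpos_of_le hinv) (Mathlib.Tactic.Linarith.sub_nonpos_of_le h3)]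
  · refine ((Ker.sum _ _ _ fun i hi => (hK i hi).smul (le_max_right _ _)).smul
      hinv0).mono hΘ0 (fun _ h => h) ?_
    have h2 := hs (fun i => max (μ (i + 1)) 0) fun i => max_le (le_abs_self _) (abs_nonneg _)
    have h3 : 0 ≤ ∑ i ∈ range d, max (μ (i + 1)) 0 * 10 :=
      sum_nonneg fun i _ => by positivity
    linarith only [h2, hinv, h3, mul_nonneg_of_nonpos_of_nonpos (Mathlib.Tactic.Linarith.sub_nonpos_of_le hinv) (Mathlib.Tactic.Linarith.sub_nonpos_of_le h3)]
  · intro f hf x hx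
    have h2 := avg_identity hd (by norm_num) hμ hβ hx hf
    rw [sum_range_succ'] at h2
    simp only [LinearMap.smul_apply, LinearMap.add_apply, LinearMap.sum_apply, Pi.smul_apply,
      Pi.add_apply, Finset.sum_apply, smul_eq_mul]
    have h3 : ∑ i ∈ range d, max (μ (i + 1)) 0 * avg β (8000 * (i + 1) ^ 2) f x =
        ∑ i ∈ range d, μ (i + 1) * avg β (8000 * (i + 1) ^ 2) f x +
          ∑ i ∈ range d, max (-μ (i + 1)) 0 * avg β (8000 * (i + 1) ^ 2) f x := by
      rw [← sum_add_distrib]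
      refine sum_congr rfl fun i _ => ?_
      rw [← add_mul]
      congr 1
      rcases le_total (μ (i + 1)) 0 with h | h
      · rw [max_eq_right h, max_eq_left (by linarith only [h])]; ring
      · rw [max_eq_left h, max_eq_right (by linarith only [h])]; ring
    have h4 : avg β (8000 * 0 ^ 2) f x = f x := avg_zero β f x
    rw [h4] at h2
    rw [h3, h2]
    have h5 : μ 0 ≠ 0 := by linarith only [hγ, h0, h1]
    field_simp
    ring

end Pool.Agent.Work.MP_1595dd_lc.Bar
end

-- merged part: Pool.Agent.Work.MP_1595dd_lc.BarT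
section
/-!
Flipping the value of all leaves of a binary tree of blocks by positive kernels.
-/

namespace Pool.Agent.Work.MP_1595dd_lc.Bar

open Finset

/-- The label of a node alternates with the depth. -/
def lab : List Bool → Bool
  | [] => true
  | _ :: u => !lab u

/-- The label of the deepest activated ancestor, `false` if there is none. -/
def val (A : Finset (List Bool)) : List Bool → Bool
  | [] => decide ([] ∈ A)
  | b :: u => if b :: u ∈ A then lab (b :: u) else val A u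

/-- All descendants of `u` at distance `t` have the value `μ`, up to exceptions. -/
def Leg (A : Finset (List Bool)) (t : ℕ) (u : List Bool) (μ : Bool) (E : Finset (List Bool)) :
    Prop :=
  ∀ s : List Bool, s.length = t → val A (s ++ u) = μ ∨ s ++ u ∈ A ∨ s ++ u ∈ E

theorem val_of_mem {A : Finset (List Bool)} {u : List Bool} (h : u ∈ A) : val A u = lab u := by
  cases u with
  | nil => simp [val, lab, h]
  | cons b u => simp [val, h]

theorem val_cons_of_notMem {A : Finset (List Bool)} {b : Bool} {u : List Bool}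
    (h : b :: u ∉ A) : val A (b :: u) = val A u := by
  simp [val, h]

theorem val_congr {A A' : Finset (List Bool)} :
    ∀ {u : List Bool}, (∀ w, w <:+ u → (w ∈ A ↔ w ∈ A')) → val A u = val A' u
  | [], h => by simp [val, h [] List.suffix_rfl]
  | b :: u, h => by
    have h1 := val_congr (u := u) fun w hw => h w (hw.trans (List.suffix_cons b u))
    simp only [val, h _ List.suffix_rfl, h1]

theorem val_append {A : Finset (List Bool)} {u : List Bool} (h : ∀ w ∈ A, ¬ u <:+ w) :
    ∀ s : List Bool, val A (s ++ u) = val A u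
  | [] => rfl
  | b :: s => by
    have h1 : b :: (s ++ u) ∉ A := fun h1 => h _ h1 ⟨b :: s, rfl⟩
    rw [List.cons_append, val_cons_of_notMem h1, val_append h s]

theorem leg_succ {A E : Finset (List Bool)} {t : ℕ} {u : List Bool} {μ : Bool} :
    Leg A (t + 1) u μ E ↔ ∀ b, Leg A t (b :: u) μ E := by
  constructor
  · intro h b s hs
    have := h (s ++ [b]) (by simp [hs])
    simpa using this
  · intro h s hs
    have hne : s ≠ [] := by rintro rfl; simp at hs
    obtain ⟨s', b, rfl⟩ : ∃ s' b, s = s' ++ [b] :=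
      ⟨s.dropLast, s.getLast hne, (List.dropLast_append_getLast hne).symm⟩
    have := h b s' (by simpa using hs)
    simpa using this

theorem Leg.mono {A E E' : Finset (List Bool)} {t : ℕ} {u : List Bool} {μ : Bool}
    (h : Leg A t u μ E) (hE : E ⊆ E') : Leg A t u μ E' :=
  fun s hs => (h s hs).imp_right fun h1 => h1.imp_right fun h2 => hE h2

theorem not_both {u w : List Bool} {b c : Bool} (h0 : (b :: u) <:+ w) (h1 : (c :: u) <:+ w) :
    b = c := by
  have h3 := List.suffix_of_suffix_length_le h0 h1 (by simp)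
  exact (List.cons.inj (h3.eq_of_length (by simp))).1

theorem not_suffix_of_cons {u w : List Bool} {b : Bool} (h0 : (b :: u) <:+ w) : ¬ w <:+ u := by
  intro h
  have := (h0.trans h).length_le
  simp at this

/-- The tree of blocks. -/
structure Setup (d T : ℕ) (nd : ℕ → List Bool) (blk : List Bool → Finset ℕ) (Ω : Finset ℕ) :
    Prop where
  hd : 1 ≤ d
  nd_blk : ∀ u, ∀ v ∈ blk u, nd v = u
  card_blk : ∀ u, (blk u).card = 8000 * d ^ 2
  blk_sub : ∀ u : List Bool, u.length ≤ T → blk u ⊆ Ω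
  mem_blk : ∀ v ∈ Ω, v ∈ blk (nd v)

/-- The weight function. -/
noncomputable def Th (nd : ℕ → List Bool) : Fn := fun x => 10 ^ (x.image nd).card

/-- Sets inside the subtree of `u`. -/
def Sub (nd : ℕ → List Bool) (Ω : Finset ℕ) (u : List Bool) (y : Finset ℕ) : Prop :=
  ∀ v ∈ y, u <:+ nd v ∧ v ∈ Ω

/-- The support condition. -/
def Supp (nd : ℕ → List Bool) (Ω : Finset ℕ) (X : Finset ℕ → Prop) (t : ℕ) (u : List Bool)
    (μ : Bool) (E : Finset (List Bool)) (y : Finset ℕ) : Prop :=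
  Sub nd Ω u y ∧ ∀ x, X x → Leg ((x ∪ y).image nd) t u μ E

/-- A pair of kernels flipping the subtree of `u` to the value `μ`. -/
def GP (d : ℕ) (nd : ℕ → List Bool) (Ω : Finset ℕ) (X : Finset ℕ → Prop) (t : ℕ)
    (u : List Bool) (μ : Bool) (E : Finset (List Bool)) (p r : ℝ) : Prop :=
  ∃ K₁ K₂ : Module.End ℝ Fn,
    Ker (d + 1) (Th nd) K₁ (Supp nd Ω X t u μ E) p ∧
    Ker (d + 1) (Th nd) K₂ (Supp nd Ω X t u (!μ) E) r ∧
    (∀ f ∈ Dg (d + 1), ∀ x, X x → K₁ f x = f x + K₂ f x) ∧
    ∀ x, X x → Leg (x.image nd) t u (!μ) E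

variable {d T : ℕ} {nd : ℕ → List Bool} {blk : List Bool → Finset ℕ} {Ω : Finset ℕ}

theorem Th_pos (x : Finset ℕ) : 0 < Th nd x := by unfold Th; positivity

theorem Th_nn (x : Finset ℕ) : 0 ≤ Th nd x := (Th_pos x).le

theorem Setup.image_blk (S : Setup d T nd blk Ω) {u : List Bool} {y : Finset ℕ} (hy : y ⊆ blk u)
    (hne : y.Nonempty) : y.image nd = {u} := by
  ext w
  simp only [mem_image, mem_singleton]
  constructor
  · rintro ⟨v, hv, rfl⟩
    exact S.nd_blk u v (hy hv)
  · rintro rfl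
    obtain ⟨v, hv⟩ := hne
    exact ⟨v, hv, S.nd_blk _ v (hy hv)⟩

theorem Setup.kernels (S : Setup d T nd blk Ω) (u : List Bool) :
    ∃ N L : Module.End ℝ Fn,
      Ker (d + 1) (Th nd) N (fun y => y ⊆ blk u ∧ y.Nonempty) (101 / 10) ∧
      Ker (d + 1) (Th nd) L (fun y => y ⊆ blk u ∧ y.Nonempty) (1 / 199) ∧
      ∀ f ∈ Dg (d + 1), ∀ x, Disjoint x (blk u) → N f x = f x + L f x := by
  refine block_kernels S.hd Th_nn (S.card_blk u) fun x U hU => ?_
  have h1 : ((x ∪ U).image nd).card ≤ (x.image nd).card + 1 := by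
    refine (card_le_card (t := insert u (x.image nd)) ?_).trans (card_insert_le _ _)
    intro w hw
    obtain ⟨v, hv, rfl⟩ := mem_image.mp hw
    rcases mem_union.mp hv with h | h
    · exact mem_insert_of_mem (mem_image_of_mem _ h)
    · rw [S.nd_blk u v (hU h)]; exact mem_insert_self _ _
  unfold Th
  rw [← pow_succ']
  exact pow_le_pow_right₀ (by norm_num) h1

theorem Sub.union {u : List Bool} {y y' : Finset ℕ} (h : Sub nd Ω u y) (h' : Sub nd Ω u y') :
    Sub nd Ω u (y ∪ y') := fun v hv => (mem_union.mp hv).elim (h v) (h' v)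

theorem Sub.up {u : List Bool} {b : Bool} {y : Finset ℕ} (h : Sub nd Ω (b :: u) y) :
    Sub nd Ω u y := fun v hv => ⟨(List.suffix_cons b u).trans (h v hv).1, (h v hv).2⟩

theorem Sub.empty (u : List Bool) : Sub nd Ω u ∅ := fun v hv => absurd hv (notMem_empty v)

theorem GP.mono {X X' : Finset ℕ → Prop} {t : ℕ} {u : List Bool} {μ : Bool}
    {E : Finset (List Bool)} {p r p' r' : ℝ} (h : GP d nd Ω X t u μ E p r)
    (hX : ∀ x, X' x → X x) (hp : p ≤ p') (hr : r ≤ r') : GP d nd Ω X' t u μ E p' r' := by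
  obtain ⟨K₁, K₂, h1, h2, h3, h4⟩ := h
  exact ⟨K₁, K₂, h1.mono Th_nn (fun y hy => ⟨hy.1, fun x hx => hy.2 x (hX x hx)⟩) hp,
    h2.mono Th_nn (fun y hy => ⟨hy.1, fun x hx => hy.2 x (hX x hx)⟩) hr,
    fun f hf x hx => h3 f hf x (hX x hx), fun x hx => h4 x (hX x hx)⟩

theorem GP.prod {X X₀ X₁ : Finset ℕ → Prop} {t : ℕ} {u : List Bool} {μ : Bool}
    {E₀ E₁ : Finset (List Bool)} {p₀ r₀ p₁ r₁ : ℝ}
    (g₀ : GP d nd Ω X₀ t (false :: u) μ E₀ p₀ r₀) (g₁ : GP d nd Ω X₁ t (true :: u) μ E₁ p₁ r₁)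
    (h₀ : ∀ x, X x → ∀ y, Sub nd Ω (true :: u) y → X₀ (x ∪ y))
    (h₁ : ∀ x, X x → ∀ y, Sub nd Ω (false :: u) y → X₁ (x ∪ y)) :
    GP d nd Ω X (t + 1) u μ (E₀ ∪ E₁) (p₀ * p₁) (r₁ + r₀ + r₀ * r₁) := by
  obtain ⟨P₀, R₀, a1, a2, a3, a4⟩ := g₀
  obtain ⟨P₁, R₁, b1, b2, b3, b4⟩ := g₁
  have key : ∀ ν y y', Supp nd Ω X₀ t (false :: u) ν E₀ y → Supp nd Ω X₁ t (true :: u) ν E₁ y' →
      Supp nd Ω X (t + 1) u ν (E₀ ∪ E₁) (y ∪ y') := by
    intro ν y y' hy hy'
    refine ⟨hy.1.up.union hy'.1.up, fun x hx => leg_succ.mpr fun b => ?_⟩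
    cases b
    · have := hy.2 _ (h₀ x hx y' hy'.1)
      rw [union_assoc, union_comm y' y] at this
      exact this.mono subset_union_left
    · have := hy'.2 _ (h₁ x hx y hy.1)
      rw [union_assoc] at this
      exact this.mono subset_union_right
  have e₀ : Supp nd Ω X₀ t (false :: u) (!μ) E₀ ∅ :=
    ⟨Sub.empty _, fun x hx => by simpa using a4 x hx⟩
  have e₁ : Supp nd Ω X₁ t (true :: u) (!μ) E₁ ∅ :=
    ⟨Sub.empty _, fun x hx => by simpa using b4 x hx⟩
  refine ⟨P₀ * P₁, R₁ + R₀ + R₀ * R₁, a1.mul b1 (key μ), ?_, ?_, ?_⟩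
  · refine Ker.add (Ker.add ?_ ?_) (a2.mul b2 (key _))
    · exact b2.mono Th_nn (fun y hy => by simpa using key _ ∅ y e₀ hy) le_rfl
    · exact a2.mono Th_nn (fun y hy => by simpa using key _ y ∅ hy e₁) le_rfl
  · intro f hf x hx
    have x₀ : X₀ x := by simpa using h₀ x hx ∅ (Sub.empty _)
    have x₁ : X₁ x := by simpa using h₁ x hx ∅ (Sub.empty _)
    have c1 := a3 (P₁ f) (b1.deg f hf) x x₀
    have c2 := b3 f hf x x₁
    have c3 : R₀ (P₁ f) x = R₀ (f + R₁ f) x :=
      a2.congr fun y hy => b3 f hf _ (h₁ x hx y hy.1)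
    rw [map_add] at c3
    simp only [Module.End.mul_apply, LinearMap.add_apply, Pi.add_apply] at c3 ⊢
    linarith only [c1, c2, c3]
  · intro x hx
    simpa using (key _ ∅ ∅ e₀ e₁).2 x hx

/-- The subtree of `u` is untouched and carries the value opposite to the label of `u`. -/
def XA (nd : ℕ → List Bool) (u : List Bool) (x : Finset ℕ) : Prop :=
  (∀ v ∈ x, ¬ u <:+ nd v) ∧ val (x.image nd) u = !lab u

theorem val_union_sub {u : List Bool} {b : Bool} (x : Finset ℕ) {y : Finset ℕ}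
    (hy : Sub nd Ω (b :: u) y) : val ((x ∪ y).image nd) u = val (x.image nd) u := by
  refine val_congr fun w hw => ?_
  rw [image_union, mem_union]
  refine ⟨fun h => h.resolve_right fun h1 => ?_, Or.inl⟩
  obtain ⟨v, hv, rfl⟩ := mem_image.mp h1
  exact not_suffix_of_cons (hy v hv).1 hw

theorem XA_child {u : List Bool} {b c : Bool} (hbc : b ≠ c) {x y : Finset ℕ}
    (hx : ∀ v ∈ x, ¬ (b :: u) <:+ nd v) (hv : val (x.image nd) u = lab u)
    (hy : Sub nd Ω (c :: u) y) : XA nd (b :: u) (x ∪ y) := by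
  have h1 : ∀ v ∈ x ∪ y, ¬ (b :: u) <:+ nd v := by
    intro v h
    rcases mem_union.mp h with h | h
    · exact hx v h
    · exact fun h2 => hbc (not_both h2 (hy v h).1)
  refine ⟨h1, ?_⟩
  rw [val_cons_of_notMem, val_union_sub x hy, hv]
  · simp [lab]
  · intro h
    obtain ⟨v, h2, h3⟩ := mem_image.mp h
    exact h1 v h2 (h3 ▸ List.suffix_rfl)

theorem leg_of_untouched {u : List Bool} {x : Finset ℕ} (h : ∀ v ∈ x, ¬ u <:+ nd v) (t : ℕ)
    (E : Finset (List Bool)) : Leg (x.image nd) t u (val (x.image nd) u) E := by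
  intro s _
  left
  refine val_append (fun w hw => ?_) s
  obtain ⟨v, hv, rfl⟩ := mem_image.mp hw
  exact h v hv

theorem Setup.lemmaA (S : Setup d T nd blk Ω) : ∀ (t : ℕ) (u : List Bool), u.length + t ≤ T →
    GP d nd Ω (XA nd u) t u (lab u) ∅ 12 1 := by
  intro t
  induction t with
  | zero =>
    intro u hu
    obtain ⟨N, L, hN, hL, hid⟩ := S.kernels u
    have key : ∀ ν y, (y ⊆ blk u ∧ y.Nonempty) → Supp nd Ω (XA nd u) 0 u ν ∅ y := by
      intro ν y hy
      refine ⟨fun v hv => ⟨S.nd_blk u v (hy.1 hv) ▸ List.suffix_rfl,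
        S.blk_sub u (by omega) (hy.1 hv)⟩, fun x _ s hs => ?_⟩
      rw [List.length_eq_zero_iff.mp hs, image_union, S.image_blk hy.1 hy.2]
      simp
    refine ⟨N, L, hN.mono Th_nn (key _) (by norm_num), hL.mono Th_nn (key _) (by norm_num),
      fun f hf x hx => hid f hf x ?_, fun x hx => hx.2 ▸ leg_of_untouched hx.1 _ _⟩
    exact disjoint_left.mpr fun v hv h => hx.1 v hv (S.nd_blk u v h ▸ List.suffix_rfl)
  | succ t ih =>
    intro u hu
    obtain ⟨N, L, hN, hL, hid⟩ := S.kernels u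
    let Y : Finset ℕ → Prop := fun z => (∀ v ∈ z, ∀ b, ¬ (b :: u) <:+ nd v) ∧ u ∈ z.image nd
    have g : GP d nd Ω Y (t + 1) u (!lab u) (∅ ∪ ∅) (12 * 12) (1 + 1 + 1 * 1) :=
      GP.prod (ih (false :: u) (by simp; omega)) (ih (true :: u) (by simp; omega))
        (fun x hx y hy => XA_child (by simp) (fun v hv => hx.1 v hv _) (val_of_mem hx.2) hy)
        (fun x hx y hy => XA_child (by simp) (fun v hv => hx.1 v hv _) (val_of_mem hx.2) hy)
    rw [union_empty] at g
    obtain ⟨P, R, hP, hR, hPR, hleg⟩ := g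
    rw [Bool.not_not] at hR hleg
    have hY : ∀ x, XA nd u x → ∀ y, (y ⊆ blk u ∧ y.Nonempty) → Y (x ∪ y) := by
      intro x hx y hy
      refine ⟨fun v hv b h => ?_, ?_⟩
      · rcases mem_union.mp hv with h1 | h1
        · exact hx.1 v h1 ((List.suffix_cons b u).trans h)
        · rw [S.nd_blk u v (hy.1 h1)] at h
          exact not_suffix_of_cons h List.suffix_rfl
      · rw [image_union, S.image_blk hy.1 hy.2]
        simp
    have hS : ∀ y, (y ⊆ blk u ∧ y.Nonempty) → Sub nd Ω u y := fun y hy v hv =>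
      ⟨S.nd_blk u v (hy.1 hv) ▸ List.suffix_rfl, S.blk_sub u (by omega) (hy.1 hv)⟩
    have key : ∀ ν y y', (y ⊆ blk u ∧ y.Nonempty) → Supp nd Ω Y (t + 1) u ν ∅ y' →
        Supp nd Ω (XA nd u) (t + 1) u ν ∅ (y ∪ y') := by
      intro ν y y' hy hy'
      refine ⟨(hS y hy).union hy'.1, fun x hx => ?_⟩
      rw [← union_assoc]
      exact hy'.2 _ (hY x hx y hy)
    refine ⟨N + L * R, L * P, ?_, ?_, ?_, fun x hx => hx.2 ▸ leg_of_untouched hx.1 _ _⟩
    · refine (Ker.add (hN.mono Th_nn (fun y hy => ?_) le_rfl) (hL.mul hR (key _))).mono Th_nn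
        (fun _ h => h) (by norm_num)
      exact ⟨hS y hy, fun x hx => hleg _ (hY x hx y hy)⟩
    · exact (hL.mul hP (key _)).mono Th_nn (fun _ h => h) (by norm_num)
    · intro f hf x hx
      have c1 := hid f hf x
        (disjoint_left.mpr fun v hv h => hx.1 v hv (S.nd_blk u v h ▸ List.suffix_rfl))
      have c3 : L (P f) x = L (f + R f) x := hL.congr fun y hy => hPR f hf _ (hY x hx y hy)
      rw [map_add] at c3
      simp only [Module.End.mul_apply, LinearMap.add_apply, Pi.add_apply] at c3 ⊢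
      linarith only [c1, c3]

/-- Agreement with `x₀` on the subtree of `u`. -/
def XB (nd : ℕ → List Bool) (x₀ : Finset ℕ) (u : List Bool) (x : Finset ℕ) : Prop :=
  (∀ v, u <:+ nd v → (v ∈ x ↔ v ∈ x₀)) ∧ val (x.image nd) u = val (x₀.image nd) u

theorem XB_child {u : List Bool} {b c : Bool} (hbc : b ≠ c) {x₀ x y : Finset ℕ}
    (hx : XB nd x₀ u x) (hy : Sub nd Ω (c :: u) y) : XB nd x₀ (b :: u) (x ∪ y) := by
  have h1 : ∀ v, (b :: u) <:+ nd v → (v ∈ x ∪ y ↔ v ∈ x₀) := by
    intro v hv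
    rw [mem_union, ← hx.1 v ((List.suffix_cons b u).trans hv)]
    exact ⟨fun h => h.resolve_right fun h2 => hbc (not_both hv (hy v h2).1), Or.inl⟩
  refine ⟨h1, ?_⟩
  have h2 : b :: u ∈ (x ∪ y).image nd ↔ b :: u ∈ x₀.image nd := by
    simp only [mem_image]
    constructor
    · rintro ⟨v, hv, h⟩
      exact ⟨v, (h1 v (h ▸ List.suffix_rfl)).mp hv, h⟩
    · rintro ⟨v, hv, h⟩
      exact ⟨v, (h1 v (h ▸ List.suffix_rfl)).mpr hv, h⟩
  simp only [val, h2, val_union_sub x hy, hx.2]

theorem Setup.lemmaB (S : Setup d T nd blk Ω) (x₀ : Finset ℕ) (μ : Bool) :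
    ∀ (t : ℕ) (u : List Bool), u.length + t ≤ T → Leg (x₀.image nd) t u (!μ) ∅ →
      ∀ J, (t + 1) * ((x₀.image nd).filter fun w => u <:+ w).card + 1 ≤ J →
        ∃ E : Finset (List Bool), E.card ≤ J ∧
          GP d nd Ω (XB nd x₀ u) t u μ E (144 ^ J) (144 ^ J - 1) := by
  intro t
  induction t with
  | zero =>
    intro u _ _ J hJ
    have h1 : (1 : ℝ) ≤ 144 ^ J := one_le_pow₀ (by norm_num)
    have key : ∀ (ν : Bool) (A : Finset (List Bool)), Leg A 0 u ν {u} := by
      intro ν A s hs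
      rw [List.length_eq_zero_iff.mp hs]
      simp
    refine ⟨{u}, by simp; omega, 1, 0, ?_, ?_, fun f _ x _ => by simp, fun x _ => key _ _⟩
    · exact (Ker.one ⟨Sub.empty _, fun x _ => key _ _⟩).mono Th_nn (fun _ h => h) h1
    · exact Ker.zero.mono Th_nn (fun _ h => h) (by linarith only [h1])
  | succ t ih =>
    intro u hu hleg J hJ
    have hJ1 : (144 : ℝ) ≤ 144 ^ J := le_self_pow₀ (by norm_num) (by omega)
    by_cases hemp : ∀ v ∈ x₀, ¬ u <:+ nd v
    · have hval : val (x₀.image nd) u = !μ := by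
        have h1 := hleg (List.replicate (t + 1) false) (by simp)
        have h2 : ∀ w ∈ x₀.image nd, ¬ u <:+ w := by
          intro w hw
          obtain ⟨v, hv, rfl⟩ := mem_image.mp hw
          exact hemp v hv
        rw [val_append h2] at h1
        rcases h1 with h1 | h1 | h1
        · exact h1
        · exact absurd (List.suffix_append _ _) (h2 _ h1)
        · simp at h1
      have hX : ∀ x, XB nd x₀ u x → ∀ v ∈ x, ¬ u <:+ nd v :=
        fun x hx v hv h => hemp v ((hx.1 v h).mp hv) h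
      by_cases hl : lab u = μ
      · refine ⟨∅, by simp, ?_⟩
        have g := S.lemmaA (t + 1) u hu
        rw [hl] at g
        exact g.mono (fun x hx => ⟨hX x hx, by rw [hx.2, hval, hl]⟩) (by linarith only [hJ1]) (by linarith only [hJ1])
      · have hl' : lab u = !μ := by cases h1 : lab u <;> cases h2 : μ <;> simp_all
        have hl2 : ∀ b, lab (b :: u) = μ := fun b => by simp [lab, hl']
        refine ⟨∅ ∪ ∅, by simp, ?_⟩
        have g₀ := S.lemmaA t (false :: u) (by simp; omega)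
        have g₁ := S.lemmaA t (true :: u) (by simp; omega)
        rw [hl2] at g₀ g₁
        refine (GP.prod (X := XB nd x₀ u) g₀ g₁ ?_ ?_).mono (fun _ h => h) (by linarith only [hJ1])
          (by linarith only [hJ1])
        · exact fun x hx y hy => XA_child (by simp)
            (fun v hv h => hX x hx v hv ((List.suffix_cons _ u).trans h))
            (by rw [hx.2, hval, hl']) hy
        · exact fun x hx y hy => XA_child (by simp)
            (fun v hv h => hX x hx v hv ((List.suffix_cons _ u).trans h))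
            (by rw [hx.2, hval, hl']) hy
    · push Not at hemp
      obtain ⟨v, hv, huv⟩ := hemp
      set a := ((x₀.image nd).filter fun w => u <:+ w).card with ha
      set a₀ := ((x₀.image nd).filter fun w => (false :: u) <:+ w).card with ha₀
      set a₁ := ((x₀.image nd).filter fun w => (true :: u) <:+ w).card with ha₁
      have h1 : 1 ≤ a := card_pos.mpr ⟨nd v, mem_filter.mpr ⟨mem_image_of_mem _ hv, huv⟩⟩
      have h2 : a₀ + a₁ ≤ a := by
        rw [ha₀, ha₁, ← card_union_of_disjoint]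
        · refine card_le_card (union_subset ?_ ?_) <;>
            exact fun w hw => mem_filter.mpr ⟨(mem_filter.mp hw).1,
              (List.suffix_cons _ u).trans (mem_filter.mp hw).2⟩
        · exact disjoint_left.mpr fun w h0 h1 =>
            absurd (not_both (mem_filter.mp h0).2 (mem_filter.mp h1).2) (by simp)
      obtain ⟨E₀, c₀, g₀⟩ := ih (false :: u) (by simp; omega) (leg_succ.mp hleg _) _ le_rfl
      obtain ⟨E₁, c₁, g₁⟩ := ih (true :: u) (by simp; omega) (leg_succ.mp hleg _) _ le_rfl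
      rw [← ha₀] at c₀ g₀
      rw [← ha₁] at c₁ g₁
      have h3 : ((t + 1) * a₀ + 1) + ((t + 1) * a₁ + 1) ≤ J := by nlinarith only [hJ, h1, h2]
      have h4 : (144 : ℝ) ^ ((t + 1) * a₀ + 1) * 144 ^ ((t + 1) * a₁ + 1) ≤ 144 ^ J := by
        rw [← pow_add]
        exact pow_le_pow_right₀ (by norm_num) h3
      refine ⟨E₀ ∪ E₁, (card_union_le _ _).trans (by omega), ?_⟩
      refine (GP.prod (X := XB nd x₀ u) g₀ g₁ (fun x hx y hy => XB_child (by simp) hx hy)
        (fun x hx y hy => XB_child (by simp) hx hy)).mono (fun _ h => h) h4 (by linarith only [h4])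

end Pool.Agent.Work.MP_1595dd_lc.Bar
end

-- merged part: Pool.Agent.Work.MP_1595dd_lc.BarMain
section
/-!
Polynomial threshold hypotheses of low degree cannot learn decision lists fast.
-/

namespace Pool.Agent.Work.MP_1595dd_lc.Bar

open Finset

variable {d T : ℕ} {nd : ℕ → List Bool} {blk : List Bool → Finset ℕ} {Ω : Finset ℕ}

/-- The sign condition on all small legal sets. -/
def Signs (d T : ℕ) (nd : ℕ → List Bool) (Ω : Finset ℕ) (f : Fn) : Prop :=
  ∀ z ⊆ Ω, (z.image nd).card ≤ 110 * (d * (T + 1)) → ∀ E : Finset (List Bool),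
    E.card ≤ 10 * (d * (T + 1)) →
      (Leg (z.image nd) T [] true E → 0 ≤ f z) ∧ (Leg (z.image nd) T [] false E → f z ≤ 0)

theorem Setup.small (S : Setup d T nd blk Ω) {f : Fn} (hf : f ∈ Dg (d + 1))
    (hs : Signs d T nd Ω f) {V : ℝ} (hV0 : 0 ≤ V)
    (hV : ∀ z ⊆ Ω, |f z| ≤ 5 ^ (z.image nd).card * V)
    {x : Finset ℕ} (hx : x ⊆ Ω) (ha : (x.image nd).card ≤ 9 * d)
    (hl : Leg (x.image nd) T [] false ∅) :
    |f x| ≤ 2 * 144 ^ (10 * (d * (T + 1))) * (V / 2 ^ (110 * (d * (T + 1)))) * Th nd x := by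
  have hd := S.hd
  set W := V / 2 ^ (110 * (d * (T + 1))) with hW
  have hW0 : 0 ≤ W := by positivity
  obtain ⟨E, hE, K₁, K₂, h1, h2, h3, -⟩ := S.lemmaB x true T [] (by simp) hl
    (10 * (d * (T + 1))) (by
      have := card_filter_le (x.image nd) fun w => [] <:+ w
      have h4 : (T + 1) * ((x.image nd).filter fun w => [] <:+ w).card ≤ (T + 1) * (9 * d) :=
        Nat.mul_le_mul_left _ (by omega)
      linarith only [hd, h4, mul_nonneg_of_nonpos_of_nonpos (Mathlib.Tactic.Linarith.sub_nonpos_of_le (Mathlib.Tactic.Linarith.natCast_nonneg ℤ d)) (Mathlib.Tactic.Linarith.sub_nonpos_of_le (Mathlib.Tactic.Linarith.natCast_nonneg ℤ T))])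
  have hX : XB nd x [] x := ⟨fun _ _ => Iff.rfl, rfl⟩
  have big : ∀ z ⊆ Ω, ¬ (z.image nd).card ≤ 110 * (d * (T + 1)) → |f z| ≤ W * Th nd z := by
    intro z hz h
    refine (hV z hz).trans ?_
    have h4 : (2 : ℝ) ^ (110 * (d * (T + 1))) ≤ 2 ^ (z.image nd).card :=
      pow_le_pow_right₀ (by norm_num) (by omega)
    have h5 : Th nd z = 5 ^ (z.image nd).card * 2 ^ (z.image nd).card := by
      rw [← mul_pow]; norm_num [Th]
    rw [h5, hW, div_mul_eq_mul_div, le_div_iff₀ (by positivity)]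
    have h6 : 0 ≤ (5 : ℝ) ^ (z.image nd).card * V := by positivity
    linarith only [h4, h6, mul_nonneg_of_nonpos_of_nonpos (Mathlib.Tactic.Linarith.sub_nonpos_of_le h4) (Mathlib.Tactic.Linarith.sub_nonpos_of_le h6)]
  have sub : ∀ y, Sub nd Ω [] y → x ∪ y ⊆ Ω := fun y hy =>
    union_subset hx fun v hv => (hy v hv).2
  have b1 := h1.bound (f := -f) (x := x) hW0 (by
    intro y hy
    by_cases h : ((x ∪ y).image nd).card ≤ 110 * (d * (T + 1))
    · have := (hs _ (sub y hy.1) h E hE).1 (hy.2 x hX)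
      have := mul_nonneg hW0 (Th_nn (nd := nd) (x ∪ y))
      simp only [Pi.neg_apply]
      linarith
    · exact (neg_le_abs _).trans (big _ (sub y hy.1) h))
  have b2 := h2.bound (f := f) (x := x) hW0 (by
    intro y hy
    by_cases h : ((x ∪ y).image nd).card ≤ 110 * (d * (T + 1))
    · have := (hs _ (sub y hy.1) h E hE).2 (hy.2 x hX)
      have := mul_nonneg hW0 (Th_nn (nd := nd) (x ∪ y))
      linarith
    · exact (le_abs_self _).trans (big _ (sub y hy.1) h))
  have b3 := h3 f hf x hX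
  have b4 : f x ≤ 0 := (hs x hx (by linarith only [ha, hd, mul_nonneg_of_nonpos_of_nonpos (Mathlib.Tactic.Linarith.sub_nonpos_of_le (Mathlib.Tactic.Linarith.natCast_nonneg ℤ d)) (Mathlib.Tactic.Linarith.sub_nonpos_of_le (Mathlib.Tactic.Linarith.natCast_nonneg ℤ T))]) ∅ (by simp)).2 hl
  rw [map_neg, Pi.neg_apply] at b1
  have b5 := mul_nonneg hW0 (Th_nn (nd := nd) x)
  rw [abs_of_nonpos b4]
  linarith only [b1, b2, b3, b5]

theorem Setup.fill (S : Setup d T nd blk Ω) {f : Fn} (hf : f ∈ Dg (d + 1)) {ε : ℝ} (hε : 0 ≤ ε)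
    (F : Finset (List Bool)) : (∀ u ∈ F, u.length ≤ T) → ∀ x ⊆ Ω, Disjoint F (x.image nd) →
      (∀ z ⊆ Ω, z.image nd = x.image nd ∪ F → |f z| ≤ ε * Th nd z) →
      |f x| ≤ 11 ^ F.card * ε * Th nd x := by
  induction F using Finset.induction_on with
  | empty =>
    intro _ x hx _ h
    simpa using h x hx (by simp)
  | insert k F hk ih =>
    intro hF x hx hdis h
    obtain ⟨N, L, hN, hL, hid⟩ := S.kernels k
    rw [disjoint_insert_left] at hdis
    have hW : 0 ≤ 11 ^ F.card * ε := by positivity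
    have h1 : ∀ y, (y ⊆ blk k ∧ y.Nonempty) →
        |f (x ∪ y)| ≤ 11 ^ F.card * ε * Th nd (x ∪ y) := by
      intro y hy
      have e : (x ∪ y).image nd = x.image nd ∪ {k} := by
        rw [image_union, S.image_blk hy.1 hy.2]
      refine ih (fun u hu => hF u (mem_insert_of_mem hu)) _
        (union_subset hx (hy.1.trans (S.blk_sub k (hF k (mem_insert_self _ _))))) ?_ ?_
      · rw [e, disjoint_union_right]
        exact ⟨hdis.2, disjoint_singleton_right.mpr hk⟩
      · intro z hz hz2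
        refine h z hz ?_
        rw [hz2, e, union_assoc, insert_eq]
    have h2 := hid f hf x (disjoint_left.mpr fun v hv h3 =>
      hdis.1 (mem_image.mpr ⟨v, hv, S.nd_blk k v h3⟩))
    have c1 := hN.bound (f := f) (x := x) hW fun y hy => (le_abs_self _).trans (h1 y hy)
    have c2 := hN.bound (f := -f) (x := x) hW fun y hy => (neg_le_abs _).trans (h1 y hy)
    have c3 := hL.bound (f := f) (x := x) hW fun y hy => (le_abs_self _).trans (h1 y hy)
    have c4 := hL.bound (f := -f) (x := x) hW fun y hy => (neg_le_abs _).trans (h1 y hy)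
    rw [map_neg, Pi.neg_apply] at c2 c4
    have c5 := mul_nonneg hW (Th_nn (nd := nd) x)
    rw [card_insert_of_notMem hk, pow_succ, abs_le]
    constructor <;> linarith only [h2, c1, c2, c3, c4]

/-- The nodes that have to be activated to make all leaves false. -/
def cover (T : ℕ) (A : Finset (List Bool)) : Finset (List Bool) :=
  ((A.filter fun u => lab u = true ∧ u.length < T).biUnion fun u => {false :: u, true :: u}) \ A

theorem card_cover (T : ℕ) (A : Finset (List Bool)) : (cover T A).card ≤ 2 * A.card := by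
  refine (card_le_card sdiff_subset).trans ((card_biUnion_le_card_mul _ _ 2 ?_).trans ?_)
  · exact fun u _ => card_le_two
  · have := card_filter_le A fun u => lab u = true ∧ u.length < T
    omega

theorem mem_cover {A : Finset (List Bool)} {w : List Bool} :
    w ∈ cover T A ↔ (∃ b u, w = b :: u ∧ u ∈ A ∧ lab u = true ∧ u.length < T) ∧ w ∉ A := by
  simp only [cover, mem_sdiff, mem_biUnion, mem_filter, mem_insert, mem_singleton]
  refine and_congr_left fun _ => ⟨?_, ?_⟩
  · rintro ⟨u, h, h1 | h1⟩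
    · exact ⟨_, u, h1, h⟩
    · exact ⟨_, u, h1, h⟩
  · rintro ⟨b, u, h1, h⟩
    refine ⟨u, h, ?_⟩
    cases b
    · exact Or.inl h1
    · exact Or.inr h1

theorem val_cover (A : Finset (List Bool)) : ∀ w : List Bool, w.length ≤ T →
    val (A ∪ cover T A) w = true → w ∈ A ∧ lab w = true
  | [], _, h => by
    simp only [val, decide_eq_true_iff, mem_union, mem_cover] at h
    rcases h with h | ⟨⟨b, u, h, _⟩, _⟩
    · exact ⟨h, rfl⟩
    · simp at h
  | b :: u, hl, h => by
    by_cases h1 : b :: u ∈ A ∪ cover T A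
    · rw [val_of_mem h1] at h
      refine ⟨?_, h⟩
      rcases mem_union.mp h1 with h2 | h2
      · exact h2
      · obtain ⟨⟨c, w, h3, _, h4, _⟩, _⟩ := mem_cover.mp h2
        rw [(List.cons.inj h3).2, lab, h4] at h
        simp at h
    · rw [val_cons_of_notMem h1] at h
      have h2 := val_cover A u (by simp at hl; omega) h
      rw [mem_union, not_or] at h1
      exact absurd (mem_cover.mpr ⟨⟨b, u, rfl, h2.1, h2.2, by simpa using hl⟩, h1.1⟩) h1.2

theorem leg_cover (A : Finset (List Bool)) : Leg (A ∪ cover T A) T [] false ∅ := by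
  intro s hs
  cases h : val (A ∪ cover T A) (s ++ [])
  · exact Or.inl rfl
  · exact Or.inr (Or.inl (mem_union_left _ (val_cover A _ (by simp [hs]) h).1))

theorem Setup.core (S : Setup d T nd blk Ω) {f : Fn} (hf : f ∈ Dg (d + 1))
    (hs : Signs d T nd Ω f) : ∀ z ⊆ Ω, f z = 0 := by
  intro z hz
  have hd := S.hd
  obtain ⟨x, hx, hmax⟩ := exists_max_image Ω.powerset
    (fun y => |f y| / 5 ^ (y.image nd).card) ⟨∅, empty_mem_powerset _⟩
  rw [mem_powerset] at hx
  set V := |f x| / 5 ^ (x.image nd).card with hVdef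
  have hV0 : 0 ≤ V := by positivity
  have hV : ∀ y ⊆ Ω, |f y| ≤ 5 ^ (y.image nd).card * V := by
    intro y hy
    have := hmax y (mem_powerset.mpr hy)
    rwa [div_le_iff₀' (by positivity)] at this
  have hxV : |f x| = 5 ^ (x.image nd).card * V := by
    rw [hVdef]; field_simp
  suffices h : V ≤ 0 by
    have h1 := hV z hz
    rw [le_antisymm h hV0, mul_zero] at h1
    exact abs_nonpos_iff.mp h1
  by_contra hV1
  push Not at hV1
  set A := x.image nd with hA
  have ha : A.card ≤ 3 * d := by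
    have h1 := extrapolate nd x A (d + 1) f V hf (by
      intro K _
      refine (hV _ ((filter_subset _ _).trans hx)).trans ?_
      refine mul_le_mul_of_nonneg_right (pow_le_pow_right₀ (by norm_num) (card_le_card ?_)) hV0
      intro w hw
      obtain ⟨v, hv, rfl⟩ := mem_image.mp hw
      exact (mem_filter.mp hv).2)
    rw [filter_true_of_mem fun v hv => mem_image_of_mem nd hv, hxV] at h1
    have h2 : (5 : ℝ) ^ A.card ≤ 2 ^ A.card * 6 ^ (d + 1) := le_of_mul_le_mul_right h1 hV1
    by_contra h3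
    have h4 : (5 / 2 : ℝ) ^ (2 * (d + 1)) ≤ (5 / 2) ^ A.card :=
      pow_le_pow_right₀ (by norm_num) (by omega)
    have h5 : (6 : ℝ) ^ (d + 1) < (5 / 2 : ℝ) ^ (2 * (d + 1)) := by
      rw [pow_mul]
      exact pow_lt_pow_left₀ (by norm_num) (by norm_num) (by omega)
    rw [div_pow _ _ A.card, le_div_iff₀ (by positivity)] at h4
    have h6 : (0 : ℝ) < 2 ^ A.card := by positivity
    linarith only [h2, h4, h5, h6, mul_pos_of_neg_of_neg (Mathlib.Tactic.Linarith.sub_neg_of_lt h5) (Mathlib.Tactic.Linarith.sub_neg_of_lt h6)]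
  have hc := card_cover T A
  set D := d * (T + 1) with hD
  have hdD : d ≤ D := by rw [hD]; linarith only [mul_nonneg_of_nonpos_of_nonpos (Mathlib.Tactic.Linarith.sub_nonpos_of_le (Mathlib.Tactic.Linarith.natCast_nonneg ℤ d)) (Mathlib.Tactic.Linarith.sub_nonpos_of_le (Mathlib.Tactic.Linarith.natCast_nonneg ℤ T))]
  have h1 := S.fill hf (ε := 2 * 144 ^ (10 * D) * (V / 2 ^ (110 * D))) (by positivity)
    (cover T A) (fun u hu => by
      obtain ⟨⟨b, w, rfl, _, _, h⟩, _⟩ := mem_cover.mp hu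
      simpa using h) x hx sdiff_disjoint (by
      intro y hy he
      refine S.small hf hs hV0 hV hy ?_ (he ▸ leg_cover A)
      have := card_union_le A (cover T A)
      rw [he, ← hA]
      omega)
  rw [hxV] at h1
  have h2 : Th nd x = 5 ^ A.card * 2 ^ A.card := by
    rw [← mul_pow]; norm_num [Th, hA]
  have h3 : (11 : ℝ) ^ (cover T A).card ≤ 2 ^ (24 * D) :=
    calc (11 : ℝ) ^ (cover T A).card ≤ (2 ^ 4) ^ (cover T A).card := by
          gcongr; norm_num
      _ = 2 ^ (4 * (cover T A).card) := by rw [← pow_mul]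
      _ ≤ 2 ^ (24 * D) := pow_le_pow_right₀ (by norm_num) (by omega)
  have h4 : (144 : ℝ) ^ (10 * D) ≤ 2 ^ (80 * D) :=
    calc (144 : ℝ) ^ (10 * D) ≤ (2 ^ 8) ^ (10 * D) := by gcongr; norm_num
      _ = 2 ^ (80 * D) := by rw [← pow_mul]; congr 1; ring
  have h5 : (2 : ℝ) ^ A.card ≤ 2 ^ (3 * D) := pow_le_pow_right₀ (by norm_num) (by omega)
  have h6 : (2 : ℝ) ^ (24 * D) * (2 * 2 ^ (80 * D)) * 2 ^ (3 * D) < 2 ^ (110 * D) := by
    rw [← pow_succ', ← pow_add, ← pow_add]
    exact pow_lt_pow_right₀ (by norm_num) (by omega)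
  have h7 : (11 : ℝ) ^ (cover T A).card * (2 * 144 ^ (10 * D)) * 2 ^ A.card ≤
      2 ^ (24 * D) * (2 * 2 ^ (80 * D)) * 2 ^ (3 * D) := by gcongr
  have h8 : (11 : ℝ) ^ (cover T A).card * (2 * 144 ^ (10 * D) * (V / 2 ^ (110 * D))) * Th nd x =
      5 ^ A.card * V *
        ((11 ^ (cover T A).card * (2 * 144 ^ (10 * D)) * 2 ^ A.card) / 2 ^ (110 * D)) := by
    rw [h2]; ring
  have h9 : ((11 : ℝ) ^ (cover T A).card * (2 * 144 ^ (10 * D)) * 2 ^ A.card) / 2 ^ (110 * D) <
      1 := by
    rw [div_lt_one (by positivity)]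
    exact h7.trans_lt h6
  have h10 : (0 : ℝ) < 5 ^ A.card * V := by positivity
  rw [h8] at h1
  linarith only [h1, h9, h10, mul_pos_of_neg_of_neg (Mathlib.Tactic.Linarith.sub_neg_of_lt h9) (Mathlib.Tactic.Linarith.sub_neg_of_lt h10)]

/-- The rules of one block. -/
noncomputable def rules (blk : List Bool → Finset ℕ) (u : List Bool) : List (ℕ × Bool) :=
  (blk u).toList.map fun v => (v, lab u)

/-- The decision list of a leaf. -/
noncomputable def dl (blk : List Bool → Finset ℕ) : List Bool → List (ℕ × Bool)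
  | [] => rules blk []
  | b :: u => rules blk (b :: u) ++ dl blk u

theorem evalDL_block (l : List ℕ) (c : Bool) (rest : List (ℕ × Bool)) (b : Bool)
    (x : Finset ℕ) : evalDL (l.map (fun v => (v, c)) ++ rest) b x =
      if ∃ v ∈ l, v ∈ x then c else evalDL rest b x := by
  induction l with
  | nil => simp
  | cons v l ih =>
    simp only [List.map_cons, List.cons_append, evalDL, ih, List.mem_cons, exists_eq_or_imp]
    by_cases h : v ∈ x <;> simp [h]

theorem eval_dl (hb : ∀ u, ∀ v ∈ blk u, nd v = u) {z : Finset ℕ}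
    (hz : ∀ v ∈ z, v ∈ blk (nd v)) : ∀ w, evalDL (dl blk w) false z = val (z.image nd) w := by
  have key : ∀ u, (∃ v ∈ (blk u).toList, v ∈ z) ↔ u ∈ z.image nd := by
    intro u
    simp only [mem_toList, mem_image]
    constructor
    · rintro ⟨v, h1, h2⟩
      exact ⟨v, h2, hb u v h1⟩
    · rintro ⟨v, h1, rfl⟩
      exact ⟨v, hz v h1, h1⟩
  intro w
  induction w with
  | nil =>
    have := evalDL_block (blk []).toList (lab []) [] false z
    rw [List.append_nil] at this
    rw [dl, rules, this]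
    simp only [key, val, lab, evalDL]
    by_cases h : [] ∈ z.image nd <;> simp [h]
  | cons b u ih =>
    rw [dl, rules, evalDL_block, ih]
    simp only [key, val]

theorem length_dl {k : ℕ} (hc : ∀ u, (blk u).card = k) :
    ∀ w : List Bool, (dl blk w).length = k * (w.length + 1)
  | [] => by simp [dl, rules, hc]
  | b :: u => by
    simp only [dl, rules, List.length_append, List.length_map, length_toList, hc,
      length_dl hc u, List.length_cons]
    ring

theorem lowVal_mem (d : ℕ) (a : Finset ℕ → ℝ) (Ω : Finset ℕ) :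
    (fun x => lowVal d a (x ∩ Ω)) ∈ Dg (d + 1) := by
  have key : (fun x => lowVal d a (x ∩ Ω)) =
      ∑ S ∈ Ω.powerset with S.card ≤ d, a S • ind S := by
    funext x
    rw [Finset.sum_apply, lowVal]
    have h1 : ((x ∩ Ω).powerset.filter fun S => S.card ≤ d) =
        (Ω.powerset.filter fun S => S.card ≤ d).filter fun S => S ⊆ x := by
      ext S
      simp only [mem_filter, mem_powerset, subset_inter_iff]
      tauto
    rw [h1, sum_filter]
    refine sum_congr rfl fun S _ => ?_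
    simp [ind]
  rw [key]
  refine Submodule.sum_mem _ fun S hS => Submodule.smul_mem _ _ (ind_mem ?_)
  have := (mem_filter.mp hS).2
  omega

theorem Setup.fingerprint (S : Setup d T nd blk Ω) (c : List Bool → Finset ℕ → Bool)
    (hc : ∀ z ⊆ Ω, ∀ w, c w z = val (z.image nd) w) (g : Finset ℕ → Bool) (a : Finset ℕ → ℝ)
    (ha : ∀ z ⊆ Ω, z.card ≤ 880000 * d ^ 3 * (T + 1) → (g z = true ↔ 0 < lowVal d a z))
    (U : Finset (List Bool)) (hU : ∀ w ∈ U, w.length = T) :
    ∃ z : Finset ℕ, z.card ≤ 880000 * d ^ 3 * (T + 1) ∧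
      (U.filter fun w => c w z = g z).card ≤ 120 * (d * (T + 1)) := by
  by_contra hcon
  push Not at hcon
  have hd := S.hd
  have hD : 1 ≤ d * (T + 1) := Nat.mul_pos hd (by omega)
  have size : ∀ z ⊆ Ω, (z.image nd).card ≤ 110 * (d * (T + 1)) →
      z.card ≤ 880000 * d ^ 3 * (T + 1) := by
    intro z hz ha
    have h2 : z ⊆ (z.image nd).biUnion blk := fun v hv =>
      mem_biUnion.mpr ⟨nd v, mem_image_of_mem _ hv, S.mem_blk v (hz hv)⟩
    refine (card_le_card h2).trans ((card_biUnion_le_card_mul _ _ (8000 * d ^ 2)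
      fun u _ => (S.card_blk u).le).trans ?_)
    calc (z.image nd).card * (8000 * d ^ 2) ≤ 110 * (d * (T + 1)) * (8000 * d ^ 2) :=
          Nat.mul_le_mul_right _ ha
      _ = 880000 * d ^ 3 * (T + 1) := by ring
  have key : ∀ z ⊆ Ω, (z.image nd).card ≤ 110 * (d * (T + 1)) → ∀ E : Finset (List Bool),
      E.card ≤ 10 * (d * (T + 1)) → ∀ μ, Leg (z.image nd) T [] μ E → g z = μ := by
    intro z hz ha E hE μ hl
    by_contra hne
    have h3 := hcon z (size z hz ha)
    have h4 : (U.filter fun w => c w z = g z) ⊆ z.image nd ∪ E := by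
      intro w hw
      rw [mem_filter, hc z hz] at hw
      have h5 := hl w (hU w hw.1)
      rw [List.append_nil, hw.2] at h5
      exact mem_union.mpr (h5.resolve_left hne)
    have h6 := (card_le_card h4).trans (card_union_le _ _)
    omega
  have hsign : Signs d T nd Ω fun x => lowVal d a (x ∩ Ω) := by
    intro z hz h1 E hE
    simp only [inter_eq_left.mpr hz]
    refine ⟨fun hl => ?_, fun hl => ?_⟩
    · exact ((ha z hz (size z hz h1)).mp (key z hz h1 E hE _ hl)).le
    · have := key z hz h1 E hE _ hl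
      exact not_lt.mp fun h => by simp [(ha z hz (size z hz h1)).mpr h] at this
  have hne : (blk []).Nonempty := card_pos.mp (by rw [S.card_blk]; positivity)
  have hb := S.blk_sub [] (by simp)
  have him := S.image_blk Subset.rfl hne
  have h0 : ((blk []).image nd).card ≤ 110 * (d * (T + 1)) := by
    rw [him, card_singleton]; omega
  have h1 := key (blk []) hb h0 ∅ (by simp) true (by
    rw [him]
    intro s _
    left
    have h2 : ∀ w : List Bool, val {[]} w = true := by
      intro w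
      induction w with
      | nil => simp [val]
      | cons b w ih => simp [val, ih]
    exact h2 _)
  have h3 := S.core (lowVal_mem d a Ω) hsign _ hb
  simp only [inter_eq_left.mpr hb] at h3
  have h4 := (ha _ hb (size _ hb h0)).mp h1
  linarith only [h3, h4]

/-- The variables: node, position in the block, copy. -/
def var (p : List Bool × ℕ) (b : Fin 2) : ℕ := Encodable.encode (p.1, p.2, b)

/-- The node of a variable. -/
def node (v : ℕ) : List Bool :=
  ((Encodable.decode (α := List Bool × ℕ × Fin 2) v).map Prod.fst).getD []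

theorem node_var (p : List Bool × ℕ) (b : Fin 2) : node (var p b) = p.1 := by
  simp only [node, var, Encodable.encodek, Option.map_some, Option.getD_some]

theorem var_inj (p : List Bool × ℕ) (b : Fin 2) (q : List Bool × ℕ) (c : Fin 2)
    (h : var p b = var q c) : p = q ∧ b = c := by
  have h1 := Encodable.encode_injective h
  simp only [Prod.mk.injEq] at h1
  exact ⟨Prod.ext h1.1 h1.2.1, h1.2.2⟩

/-- The full blocks. -/
def full (k : ℕ) (u : List Bool) : Finset ℕ :=
  (range k ×ˢ (univ : Finset (Fin 2))).image fun p => var (u, p.1) p.2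

theorem card_full (k : ℕ) (u : List Bool) : (full k u).card = 2 * k := by
  rw [full, card_image_of_injective]
  · simp [mul_comm]
  · intro p q h
    have := var_inj _ _ _ _ h
    exact Prod.ext (Prod.mk.inj this.1).2 this.2

theorem ptf_fingerprint (d T : ℕ) (hd : 1 ≤ d) (g : Finset ℕ → Bool)
    (hg : IsPTF d (2 ^ d) (880000 * d ^ 3 * (T + 1)) g)
    (U : Finset (List Bool)) (hU : ∀ w ∈ U, w.length = T) :
    ∃ z : Finset ℕ, z.card ≤ 880000 * d ^ 3 * (T + 1) ∧
      (U.filter fun w => evalDL (dl (full (8000 * d ^ 2)) w) false z = g z).card ≤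
        120 * (d * (T + 1)) := by
  let I : Finset (List Bool × ℕ) :=
    (List.finite_length_le Bool T).toFinset ×ˢ range (8000 * d ^ 2)
  obtain ⟨a, ha, hg⟩ := hg ((I ×ˢ (univ : Finset (Fin 2))).image fun p => var p.1 p.2)
  obtain ⟨σ, hσ⟩ := exists_choice I 2 d (2 ^ d)
    (Nat.pow_lt_pow_right (by norm_num) (by omega)) var var_inj a ha
  have S : Setup d T node (fun u => (range (8000 * d ^ 2)).image fun i => var (u, i) (σ (u, i)))
      (I.image fun p => var p (σ p)) := by
    refine ⟨hd, ?_, ?_, ?_, ?_⟩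
    · intro u v hv
      obtain ⟨i, _, rfl⟩ := mem_image.mp hv
      exact node_var _ _
    · intro u
      rw [card_image_of_injective, card_range]
      intro i j h
      exact (Prod.mk.inj (var_inj _ _ _ _ h).1).2
    · intro u hu v hv
      obtain ⟨i, hi, rfl⟩ := mem_image.mp hv
      exact mem_image.mpr ⟨(u, i), mem_product.mpr ⟨by simpa using hu, hi⟩, rfl⟩
    · intro v hv
      obtain ⟨p, hp, rfl⟩ := mem_image.mp hv
      rw [node_var]
      exact mem_image.mpr ⟨p.2, (mem_product.mp hp).2, rfl⟩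
  refine S.fingerprint _ (fun z hz => eval_dl ?_ ?_) g a (fun z hz hc => ?_) U hU
  · intro u v hv
    obtain ⟨p, _, rfl⟩ := mem_image.mp hv
    exact node_var _ _
  · intro v hv
    obtain ⟨p, hp, rfl⟩ := mem_image.mp (hz hv)
    rw [node_var]
    exact mem_image.mpr ⟨(p.2, σ p), mem_product.mpr ⟨(mem_product.mp hp).2, mem_univ _⟩, rfl⟩
  · rw [← hσ z hz]
    refine hg z (fun v hv => ?_) hc
    obtain ⟨p, hp, rfl⟩ := mem_image.mp (hz hv)
    exact mem_image.mpr ⟨(p, σ p), mem_product.mpr ⟨hp, mem_univ _⟩, rfl⟩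

theorem ptf_barrier (d T : ℕ) (hd : 1 ≤ d) (L : List (Finset ℕ × Bool) → Finset ℕ → Bool)
    (hL : ∀ h, IsPTF d (2 ^ d) (880000 * d ^ 3 * (T + 1)) (L h)) :
    ∃ (c : List (ℕ × Bool)) (xs : List (Finset ℕ)), c.length = 16000 * d ^ 2 * (T + 1) ∧
      (∀ x ∈ xs, x.card ≤ 880000 * d ^ 3 * (T + 1)) ∧
      2 ^ T ≤ 120 * d * (T + 1) * (mistakes L (evalDL c false) [] xs + 1) := by
  set U : Finset (List Bool) := (univ : Finset (Fin T → Bool)).image List.ofFn with hUdef
  have hU : ∀ w ∈ U, w.length = T := by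
    intro w hw
    obtain ⟨f, _, rfl⟩ := mem_image.mp hw
    simp
  have hc : U.card = 2 ^ T := by
    rw [hUdef, card_image_of_injective _ List.ofFn_injective]
    simp
  have hne : U.Nonempty := card_pos.mp (by rw [hc]; positivity)
  obtain ⟨w, hw, xs, hxs, hM⟩ := adversary' L
    (fun w => evalDL (dl (full (8000 * d ^ 2)) w) false) U hne
    (fun x => x.card ≤ 880000 * d ^ 3 * (T + 1)) (120 * (d * (T + 1))) (by positivity)
    fun h => ptf_fingerprint d T hd (L h) (hL h) U hU
  refine ⟨_, xs, ?_, hxs, by rw [mul_assoc 120, ← hc]; exact hM⟩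
  rw [length_dl (card_full _), hU w hw]
  ring

end Pool.Agent.Work.MP_1595dd_lc.Bar
end
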