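import Mathlib
import Pool.Prelude.Def_H_3587d628

/-!
Online learning of parities in the infinite attribute model.
An example is the list of (the indices of) its true variables.
-/

namespace Pool.Agent.Work.MP_1595dd_lc

open N487b59b3 Turing

/-- The parity `f_T` on the example whose true variables are listed in `x`. -/
def parity (T : Finset ℕ) (x : List ℕ) : Bool := decide (Odd (T.filter fun v => v ∈ x).card)

/-- The memory of a learner started in `s` after the trials `xs` with target `c`. -/
def memory {σ : Type} (update : σ × List ℕ × Bool → σ) (c : List ℕ → Bool) (s : σ)
    (xs : List (List ℕ)) : σ :=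
  xs.foldl (fun s x => update (s, x, c x)) s

/-- The number of wrong predictions on the trials `xs` with target `c`, from memory `s`. -/
def mistakes {σ : Type} (predict : σ × List ℕ → Bool) (update : σ × List ℕ × Bool → σ)
    (c : List ℕ → Bool) : σ → List (List ℕ) → ℕ
  | _, [] => 0
  | s, x :: xs => (if predict (s, x) = c x then 0 else 1) +
      mistakes predict update c (update (s, x, c x)) xs

/-- Some deterministic learner (bit-encoded memory, prediction and memory update computed by
Turing machines) makes, for every parity of size `k` and all examples with at most `n` true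
variables and at most `l` bits, at most `M k n` mistakes, and each machine run in a trial takes
at most `τ k n l` steps. -/
def ParityLearnable (M : ℕ → ℕ → ℕ) (τ : ℕ → ℕ → ℕ → ℕ) : Prop :=
  ∃ (σ : Type) (_ : N487b59b3 σ) (s₀ : σ) (predict : σ × List ℕ → Bool)
    (update : σ × List ℕ × Bool → σ)
    (P : TM2ComputableInTime bitEncode bitEncode predict)
    (U : TM2ComputableInTime bitEncode bitEncode update),
    ∀ (T : Finset ℕ) (n l : ℕ) (xs : List (List ℕ)) (x : List ℕ),
      (∀ z ∈ x :: xs, z.length ≤ n ∧ (bitEncode z).length ≤ l) →
      mistakes predict update (parity T) s₀ xs ≤ M T.card n ∧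
      P.time (bitEncode (memory update (parity T) s₀ xs, x)).length ≤ τ T.card n l ∧
      U.time (bitEncode (memory update (parity T) s₀ xs, x, parity T x)).length ≤ τ T.card n l

end Pool.Agent.Work.MP_1595dd_lc
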