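import Pool.Agent.Lib.Poly.BinNat
import Pool.Agent.Work.MP_1595dd_lc.Defs

-- merged part: Pool.Agent.Work.MP_1595dd_lc.Algo
section
/-!
The learner, on examples given as lists of names (bit strings), and its polynomial running time.
-/

namespace Pool.Agent.Work.MP_1595dd_lc

open Pool.Agent.Lib.Poly

abbrev Nm := List Bool
abbrev Row := Nm × List Nm × Bool
abbrev Ex := List ℕ × ℕ × List Row

def sd (K v w : List Nm) : List Nm := K.filter fun a => (decide (a ∈ v) ^^ decide (a ∈ w))

def red1 (K : List Nm) (s : List Nm × Bool) (r : Row) : List Nm × Bool :=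
  if r.1 ∈ s.1 then (sd K s.1 r.2.1, s.2 ^^ r.2.2) else s

def red (K : List Nm) (rows : List Row) (x : List Nm) : List Nm × Bool :=
  rows.foldl (red1 K) (K.filter fun a => decide (a ∈ x), false)

def kept (old new : List Nm) (B : ℕ) (e : List ℕ) : List Nm :=
  old ++ e.flatMap fun c => (new.drop (c * B)).take B

def ext (old new x : List Nm) : List Nm :=
  x.foldl (fun s a => if a ∈ old ++ s then s else s ++ [a]) new

def out (old new : List Nm) (B : ℕ) (x : List Nm) (E : Ex) : List Nm × Bool :=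
  red (kept old new B E.1) E.2.2 x

def wt (old new : List Nm) (B : ℕ) (x : List Nm) (b : Bool) (E : Ex) : ℕ :=
  if (out old new B x E).1 = [] ∧ (out old new B x E).2 = b then E.2.1 else 0

def updE (old new : List Nm) (B : ℕ) (x : List Nm) (y : Bool) (E : Ex) : List Ex :=
  if (out old new B x E).1 = [] then
    (if (out old new B x E).2 = y then [(E.1, E.2.1 + E.2.1, E.2.2)] else [])
  else [(E.1, E.2.1, E.2.2 ++
    [((out old new B x E).1.headD [], (out old new B x E).1, (out old new B x E).2 ^^ y)])]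

def subStep (g P : ℕ) (S : List (List ℕ)) (a : ℕ) : List (List ℕ) :=
  (S ++ (S.filter fun s => decide (s.length < g)).map fun s => a :: s).take P

def subs (t g P : ℕ) : List (List ℕ) := (List.range t).foldl (subStep g P) [[]]

structure St where
  a : ℕ
  n : ℕ
  g : ℕ
  j : ℕ
  m : ℕ
  P : ℕ
  old : List Nm
  new : List Nm
  ex : List Ex

def St.toP (s : St) : ℕ × ℕ × ℕ × ℕ × ℕ × ℕ × List Nm × List Nm × List Ex :=
  (s.a, s.n, s.g, s.j, s.m, s.P, s.old, s.new, s.ex)

instance : Enc St := ⟨fun s => enc s.toP, fun s t h => by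
  have := Enc.inj h
  cases s; cases t
  simp only [St.toP, Prod.mk.injEq] at this
  obtain ⟨h1, h2, h3, h4, h5, h6, h7, h8, h9⟩ := this
  subst_vars; rfl⟩

def J (a g : ℕ) : ℕ := if a = 0 then g + 1 else a

def blk (n g : ℕ) (old : List Nm) : ℕ := old.length / (g + 1) + n + 5

def fresh (a n g j P : ℕ) (old : List Nm) : St :=
  ⟨a, n, g, j, 0, P, old, [], (subs (2 * n * (g + 1)) g P).map fun e => (e, 1, [])⟩

def vote (s : St) (x : List Nm) (b : Bool) : ℕ :=
  (s.ex.map (wt s.old (ext s.old s.new x) (blk s.n s.g s.old) x b)).sum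

def pred (s : St) (x : List Nm) : Bool := decide (vote s x false < vote s x true)

def step (s : St) (x : List Nm) (y : Bool) : St :=
  ⟨s.a, s.n, s.g, s.j, s.m + 1, s.P, s.old, ext s.old s.new x,
    s.ex.flatMap (updE s.old (ext s.old s.new x) (blk s.n s.g s.old) x y)⟩

def upd (s : St) (x : List Nm) (y : Bool) : St :=
  if pred s x = y then s
  else if s.n < x.length then fresh s.a x.length 0 0 (6 * x.length) []
  else if s.m + 1 < 2 * (s.g + 1) * blk s.n s.g s.old then step s x y
  else if s.j + 1 < J s.a s.g then fresh s.a s.n s.g (s.j + 1) s.P (s.old ++ ext s.old s.new x)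
  else fresh s.a s.n (s.g + 1) 0 (s.P * (6 * s.n)) []

section pt

variable {α : Type} [Enc α]

theorem pt_toP : PT St.toP := PT.cast fun _ => rfl

@[fun_prop] theorem pt_a {f : α → St} (hf : PT f) : PT fun x => (f x).a := (pt_toP.comp hf).fst
@[fun_prop] theorem pt_n {f : α → St} (hf : PT f) : PT fun x => (f x).n :=
  (pt_toP.comp hf).snd.fst
@[fun_prop] theorem pt_g {f : α → St} (hf : PT f) : PT fun x => (f x).g :=
  (pt_toP.comp hf).snd.snd.fst
@[fun_prop] theorem pt_j {f : α → St} (hf : PT f) : PT fun x => (f x).j :=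
  (pt_toP.comp hf).snd.snd.snd.fst
@[fun_prop] theorem pt_m {f : α → St} (hf : PT f) : PT fun x => (f x).m :=
  (pt_toP.comp hf).snd.snd.snd.snd.fst
@[fun_prop] theorem pt_P {f : α → St} (hf : PT f) : PT fun x => (f x).P :=
  (pt_toP.comp hf).snd.snd.snd.snd.snd.fst
@[fun_prop] theorem pt_old {f : α → St} (hf : PT f) : PT fun x => (f x).old :=
  (pt_toP.comp hf).snd.snd.snd.snd.snd.snd.fst
@[fun_prop] theorem pt_new {f : α → St} (hf : PT f) : PT fun x => (f x).new :=
  (pt_toP.comp hf).snd.snd.snd.snd.snd.snd.snd.fst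
@[fun_prop] theorem pt_ex {f : α → St} (hf : PT f) : PT fun x => (f x).ex :=
  (pt_toP.comp hf).snd.snd.snd.snd.snd.snd.snd.snd

theorem pt_mk {a n g j m P : α → ℕ} {old new : α → List Nm} {ex : α → List Ex}
    (ha : PT a) (hn : PT n) (hg : PT g) (hj : PT j) (hm : PT m) (hP : PT P) (ho : PT old)
    (hw : PT new) (he : PT ex) :
    PT fun x => St.mk (a x) (n x) (g x) (j x) (m x) (P x) (old x) (new x) (ex x) := by
  have h : PT fun x => (a x, n x, g x, j x, m x, P x, old x, new x, ex x) := by fun_prop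
  exact h.of_enc (fun x => x) (fun _ => rfl) fun _ => rfl

theorem sz_filter_le {β : Type} [Enc β] (p : β → Bool) (l : List β) :
    sz (l.filter p) ≤ sz l := by
  induction l with
  | nil => simp
  | cons a l ih =>
    rw [List.filter_cons]
    split_ifs <;> simp only [sz_cons] <;> omega

@[fun_prop] theorem pt_sd {K v w : α → List Nm} (hK : PT K) (hv : PT v) (hw : PT w) :
    PT fun x => sd (K x) (v x) (w x) := by
  unfold sd; fun_prop

@[fun_prop] theorem pt_red1 {K : α → List Nm} {s : α → List Nm × Bool} {r : α → Row}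
    (hK : PT K) (hs : PT s) (hr : PT r) : PT fun x => red1 (K x) (s x) (r x) := by
  unfold red1; fun_prop

@[fun_prop] theorem pt_red {K x : α → List Nm} {rows : α → List Row} (hK : PT K)
    (hr : PT rows) (hx : PT x) : PT fun a => red (K a) (rows a) (x a) := by
  obtain ⟨t, ht, ht'⟩ := hK.size
  unfold red
  refine PT.foldl (f := fun a => red1 (K a)) (by fun_prop) (by fun_prop) hr
    (fun n => 2 * t n) (by fun_prop) fun a c r => ?_
  have h1 := (ht' a).trans (ht.mono (Nat.le_add_right (sz a) (sz r)))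
  obtain ⟨v, b⟩ := c
  unfold red1
  split_ifs
  · have := sz_filter_le (fun a' => (decide (a' ∈ v) ^^ decide (a' ∈ r.2.1))) (K a)
    simp only [sz_pair, sz_bool, sd]
    omega
  · omega

@[fun_prop] theorem pt_kept {old new : α → List Nm} {B : α → ℕ} {e : α → List ℕ} (ho : PT old)
    (hw : PT new) (hB : PT B) (he : PT e) : PT fun a => kept (old a) (new a) (B a) (e a) := by
  unfold kept; fun_prop

@[fun_prop] theorem pt_ext {old new x : α → List Nm} (ho : PT old) (hw : PT new) (hx : PT x) :
    PT fun a => ext (old a) (new a) (x a) := by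
  unfold ext
  refine PT.foldl (f := fun a s b => if b ∈ old a ++ s then s else s ++ [b]) (by fun_prop) hw hx
    (fun n => 2 * n + 1) (by fun_prop) fun a c r => ?_
  split_ifs
  · omega
  · simp only [sz_append, sz_cons, sz_nil]; omega

@[fun_prop] theorem pt_out {old new x : α → List Nm} {B : α → ℕ} {E : α → Ex} (ho : PT old)
    (hw : PT new) (hB : PT B) (hx : PT x) (hE : PT E) :
    PT fun a => out (old a) (new a) (B a) (x a) (E a) := by
  unfold out; fun_prop

@[fun_prop] theorem pt_wt {old new x : α → List Nm} {B : α → ℕ} {b : α → Bool} {E : α → Ex}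
    (ho : PT old) (hw : PT new) (hB : PT B) (hx : PT x) (hb : PT b) (hE : PT E) :
    PT fun a => wt (old a) (new a) (B a) (x a) (b a) (E a) := by
  unfold wt; fun_prop

@[fun_prop] theorem pt_updE {old new x : α → List Nm} {B : α → ℕ} {b : α → Bool} {E : α → Ex}
    (ho : PT old) (hw : PT new) (hB : PT B) (hx : PT x) (hb : PT b) (hE : PT E) :
    PT fun a => updE (old a) (new a) (B a) (x a) (b a) (E a) := by
  unfold updE; fun_prop

@[fun_prop] theorem pt_subStep {g P a : α → ℕ} {S : α → List (List ℕ)} (hg : PT g) (hP : PT P)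
    (hS : PT S) (ha : PT a) : PT fun x => subStep (g x) (P x) (S x) (a x) := by
  unfold subStep; fun_prop

theorem sz_le_of_forall {β : Type} [Enc β] {l : List β} {b : ℕ} (h : ∀ a ∈ l, sz a ≤ b) :
    sz l ≤ l.length * (2 * b + 1) := by
  induction l with
  | nil => simp
  | cons a l ih =>
    have h1 := h a List.mem_cons_self
    have h2 := ih fun c hc => h c (List.mem_cons_of_mem _ hc)
    rw [sz_cons, List.length_cons, Nat.add_mul]
    omega

theorem subFold_inv (g P t : ℕ) (l : List ℕ) (hl : ∀ a ∈ l, a < t) (S : List (List ℕ))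
    (hS : S.length ≤ P + 1 ∧ ∀ s ∈ S, s.length ≤ g ∧ ∀ a ∈ s, a < t) :
    (l.foldl (subStep g P) S).length ≤ P + 1 ∧
      ∀ s ∈ l.foldl (subStep g P) S, s.length ≤ g ∧ ∀ a ∈ s, a < t := by
  induction l generalizing S with
  | nil => exact hS
  | cons b l ih =>
    refine ih (fun a ha => hl a (List.mem_cons_of_mem _ ha)) _ ⟨?_, fun s hs => ?_⟩
    · exact (List.length_take_le _ _).trans (Nat.le_succ _)
    · rcases List.mem_append.1 (List.mem_of_mem_take hs) with h | h
      · exact hS.2 s h
      · obtain ⟨s', h', rfl⟩ := List.mem_map.1 h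
        obtain ⟨h1, h2⟩ := List.mem_filter.1 h'
        refine ⟨of_decide_eq_true h2, fun a ha => ?_⟩
        rcases List.mem_cons.1 ha with rfl | ha
        · exact hl _ List.mem_cons_self
        · exact (hS.2 s' h1).2 a ha

theorem pt_subs' : PT fun p : ℕ × ℕ × ℕ => subs p.1 p.2.1 p.2.2 := by
  unfold subs
  refine PT.foldl_inv (f := fun p : ℕ × ℕ × ℕ => subStep p.2.1 p.2.2) (by fun_prop) (by fun_prop)
    (by fun_prop) (fun n => (n + 1) * (2 * (n * (2 * n + 1)) + 1)) (by fun_prop) ?_
  rintro ⟨t, g, P⟩ i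
  obtain ⟨h1, h2⟩ := subFold_inv g P t ((List.range t).take i)
    (fun a ha => List.mem_range.1 (List.mem_of_mem_take ha)) [[]] ⟨by simp, by simp⟩
  have hN : sz (t, g, P) = 2 * t + 1 + (2 * g + 1 + P) := by simp
  refine (sz_le_of_forall (b := sz (t, g, P) * (2 * sz (t, g, P) + 1)) fun s hs => ?_).trans
    (Nat.mul_le_mul_right _ (h1.trans (by omega)))
  refine (sz_le_of_forall (b := sz (t, g, P)) fun a ha => ?_).trans
    (Nat.mul_le_mul_right _ ((h2 s hs).1.trans (by omega)))
  have := (h2 s hs).2 a ha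
  rw [sz_nat]; omega

@[fun_prop] theorem pt_subs {t g P : α → ℕ} (ht : PT t) (hg : PT g) (hP : PT P) :
    PT fun x => subs (t x) (g x) (P x) :=
  pt_subs'.comp (g := fun x => (t x, g x, P x)) (by fun_prop)

@[fun_prop] theorem pt_J {a g : α → ℕ} (ha : PT a) (hg : PT g) : PT fun x => J (a x) (g x) := by
  unfold J; fun_prop

@[fun_prop] theorem pt_blk {n g : α → ℕ} {old : α → List Nm} (hn : PT n) (hg : PT g)
    (ho : PT old) : PT fun x => blk (n x) (g x) (old x) := by
  unfold blk; fun_prop

@[fun_prop] theorem pt_fresh {a n g j P : α → ℕ} {old : α → List Nm} (ha : PT a) (hn : PT n)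
    (hg : PT g) (hj : PT j) (hP : PT P) (ho : PT old) :
    PT fun x => fresh (a x) (n x) (g x) (j x) (P x) (old x) := by
  unfold fresh
  exact pt_mk ha hn hg hj (by fun_prop) hP ho (by fun_prop) (by fun_prop)

@[fun_prop] theorem pt_vote {s : α → St} {x : α → List Nm} {b : α → Bool} (hs : PT s)
    (hx : PT x) (hb : PT b) : PT fun a => vote (s a) (x a) (b a) := by
  unfold vote; fun_prop

@[fun_prop] theorem pt_pred {s : α → St} {x : α → List Nm} (hs : PT s) (hx : PT x) :
    PT fun a => pred (s a) (x a) := by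
  unfold pred; fun_prop

@[fun_prop] theorem pt_step {s : α → St} {x : α → List Nm} {b : α → Bool} (hs : PT s)
    (hx : PT x) (hb : PT b) : PT fun a => step (s a) (x a) (b a) := by
  unfold step
  exact pt_mk (by fun_prop) (by fun_prop) (by fun_prop) (by fun_prop) (by fun_prop) (by fun_prop)
    (by fun_prop) (by fun_prop) (by fun_prop)

@[fun_prop] theorem pt_upd {s : α → St} {x : α → List Nm} {b : α → Bool} (hs : PT s)
    (hx : PT x) (hb : PT b) : PT fun a => upd (s a) (x a) (b a) := by
  unfold upd; fun_prop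

end pt

end Pool.Agent.Work.MP_1595dd_lc
end

-- merged part: Pool.Agent.Work.MP_1595dd_lc.Phase
section
/-!
The analysis of one phase.
-/

namespace Pool.Agent.Work.MP_1595dd_lc

open Pool.Agent.Lib.Poly

/-! ### The list of experts -/

def subsU (g : ℕ) : ℕ → List (List ℕ)
  | 0 => [[]]
  | t + 1 => subsU g t ++ ((subsU g t).filter fun s => decide (s.length < g)).map fun s => t :: s

theorem subsU_mono (g t : ℕ) : (subsU g t).length ≤ (subsU g (t + 1)).length := by
  simp [subsU]

theorem subs_eq (g P t : ℕ) (h : (subsU g t).length ≤ P) : subs t g P = subsU g t := by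
  induction t with
  | zero => rfl
  | succ t ih =>
    have := ih ((subsU_mono g t).trans h)
    unfold subs at this ⊢
    rw [List.range_succ, List.foldl_append, this]
    exact List.take_of_length_le h

def Wt (m g : ℕ) (S : List (List ℕ)) : ℕ := (S.map fun s => m ^ (g - s.length)).sum

theorem Wt_step (m g t : ℕ) (S : List (List ℕ)) :
    m * Wt m g ((S.filter fun s => decide (s.length < g)).map fun s => t :: s) ≤ Wt m g S := by
  induction S with
  | nil => simp [Wt]
  | cons s S ih =>
    unfold Wt at ih ⊢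
    rw [List.filter_cons]
    split_ifs with h
    · have h' : s.length < g := of_decide_eq_true h
      have e : m * m ^ (g - (s.length + 1)) = m ^ (g - s.length) := by
        rw [← pow_succ']; congr 1; omega
      simp only [List.map_cons, List.sum_cons, List.length_cons, Nat.mul_add, e]
      omega
    · simp only [List.map_cons, List.sum_cons]
      omega

theorem Wt_subsU (m g t : ℕ) : m ^ t * Wt m g (subsU g t) ≤ (m + 1) ^ t * m ^ g := by
  induction t with
  | zero => simp [subsU, Wt]
  | succ t ih =>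
    have h1 := Wt_step m g t (subsU g t)
    have e : Wt m g (subsU g (t + 1)) = Wt m g (subsU g t) +
        Wt m g (((subsU g t).filter fun s => decide (s.length < g)).map fun s => t :: s) := by
      simp [subsU, Wt]
    rw [e]
    calc m ^ (t + 1) * (Wt m g (subsU g t) + Wt m g _)
        = m ^ t * (m * Wt m g (subsU g t) + m * Wt m g _) := by ring
      _ ≤ m ^ t * (m * Wt m g (subsU g t) + Wt m g (subsU g t)) :=
        Nat.mul_le_mul_left _ (Nat.add_le_add_left h1 _)
      _ = (m + 1) * (m ^ t * Wt m g (subsU g t)) := by ring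
      _ ≤ (m + 1) * ((m + 1) ^ t * m ^ g) := Nat.mul_le_mul_left _ ih
      _ = (m + 1) ^ (t + 1) * m ^ g := by ring

theorem length_le_Wt {m : ℕ} (hm : 0 < m) (g : ℕ) (S : List (List ℕ)) : S.length ≤ Wt m g S := by
  induction S with
  | nil => simp
  | cons s S ih =>
    have : 0 < m ^ (g - s.length) := pow_pos hm _
    unfold Wt at ih ⊢
    simp only [List.map_cons, List.sum_cons, List.length_cons]
    omega

theorem succ_pow_le {m : ℕ} (hm : 0 < m) : (m + 1) ^ m ≤ 3 * m ^ m := by
  have h1 := (Real.one_add_inv_pow_le_exp (n := m)).trans Real.exp_one_lt_three.le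
  have hm' : (0 : ℝ) < m := by exact_mod_cast hm
  have e : ((m : ℝ) + 1) ^ m = (1 + (m : ℝ)⁻¹) ^ m * (m : ℝ) ^ m := by
    rw [← mul_pow]; congr 1; field_simp
  have : ((m : ℝ) + 1) ^ m ≤ 3 * (m : ℝ) ^ m := by
    rw [e]; exact mul_le_mul_of_nonneg_right h1 (by positivity)
  exact_mod_cast this

theorem length_subsU {n : ℕ} (hn : 0 < n) (g : ℕ) :
    (subsU g (2 * n * (g + 1))).length ≤ (6 * n) ^ (g + 1) := by
  have hm : 0 < 2 * n := by omega
  refine (length_le_Wt hm g _).trans ?_
  have h1 := Wt_subsU (2 * n) g (2 * n * (g + 1))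
  have h2 : (2 * n + 1) ^ (2 * n * (g + 1)) ≤ 3 ^ (g + 1) * (2 * n) ^ (2 * n * (g + 1)) := by
    rw [pow_mul (2 * n + 1) (2 * n), pow_mul (2 * n) (2 * n), ← mul_pow]
    exact Nat.pow_le_pow_left (succ_pow_le hm) _
  have h3 : (2 * n) ^ (2 * n * (g + 1)) * Wt (2 * n) g (subsU g (2 * n * (g + 1))) ≤
      (2 * n) ^ (2 * n * (g + 1)) * (3 ^ (g + 1) * (2 * n) ^ g) :=
    h1.trans ((Nat.mul_le_mul_right _ h2).trans (le_of_eq (by ring)))
  refine (Nat.le_of_mul_le_mul_left h3 (pow_pos hm _)).trans ?_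
  rw [show 6 * n = 3 * (2 * n) by ring, mul_pow 3 (2 * n)]
  exact Nat.mul_le_mul_left _ (Nat.pow_le_pow_right hm (Nat.le_succ _))

theorem subsU_complete (g t : ℕ) (R : Finset ℕ) (h : ∀ c ∈ R, c < t) (hR : R.card ≤ g) :
    ∃ e ∈ subsU g t, e.length = R.card ∧ ∀ c ∈ R, c ∈ e := by
  induction t generalizing R with
  | zero =>
    have : R = ∅ := Finset.eq_empty_of_forall_notMem fun c hc => absurd (h c hc) (by omega)
    subst this
    exact ⟨[], by simp [subsU], rfl, by simp⟩
  | succ t ih =>
    by_cases ht : t ∈ R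
    · have hc := Finset.card_erase_of_mem ht
      have hp := Finset.card_pos.2 ⟨t, ht⟩
      obtain ⟨e, he, h1, h2⟩ := ih (R.erase t) (fun c hc => by
        have := h c (Finset.mem_of_mem_erase hc)
        have := Finset.ne_of_mem_erase hc
        omega) (by omega)
      refine ⟨t :: e, List.mem_append_right _ (List.mem_map.2 ⟨e, List.mem_filter.2
        ⟨he, decide_eq_true (by omega)⟩, rfl⟩), by simp; omega, fun c hc => ?_⟩
      by_cases e' : c = t
      · exact e' ▸ List.mem_cons_self
      · exact List.mem_cons_of_mem _ (h2 c (Finset.mem_erase.2 ⟨e', hc⟩))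
    · obtain ⟨e, he, h1, h2⟩ := ih R (fun c hc => by
        have := h c hc
        have : c ≠ t := fun e => ht (e ▸ hc)
        omega) hR
      exact ⟨e, List.mem_append_left _ he, h1, h2⟩

/-! ### Parities of lists of names -/

def chi (T : Finset Nm) (v : List Nm) : Bool := decide (Odd (T.filter fun a => a ∈ v).card)

theorem odd_card_xor {β : Type} [DecidableEq β] (T : Finset β) (p q r : β → Prop)
    [DecidablePred p] [DecidablePred q] [DecidablePred r] (h : ∀ a ∈ T, r a ↔ Xor (p a) (q a)) :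
    decide (Odd (T.filter r).card) =
      (decide (Odd (T.filter p).card) ^^ decide (Odd (T.filter q).card)) := by
  induction T using Finset.induction_on with
  | empty => simp
  | insert a T ha ih =>
    have ih := ih fun b hb => h b (Finset.mem_insert_of_mem hb)
    have h0 := h a (Finset.mem_insert_self _ _)
    have c : ∀ (s : β → Prop) [DecidablePred s], decide (Odd ((insert a T).filter s).card) =
        (decide (s a) ^^ decide (Odd (T.filter s).card)) := by
      intro s _
      rw [Finset.filter_insert]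
      split_ifs with hs
      · rw [Finset.card_insert_of_notMem fun h' => ha (Finset.mem_filter.1 h').1]
        simp only [hs, Nat.odd_add_one, decide_true, Bool.true_xor, decide_not]
      · simp [hs]
    rw [c r, c p, c q, ih]
    by_cases hp : p a <;> by_cases hq : q a <;> simp [Xor, hp, hq] at h0 <;> simp [hp, hq, h0]

theorem mem_sd {K v w : List Nm} {a : Nm} : a ∈ sd K v w ↔ a ∈ K ∧ Xor (a ∈ v) (a ∈ w) := by
  unfold sd
  rw [List.mem_filter]
  by_cases h1 : a ∈ v <;> by_cases h2 : a ∈ w <;> simp [Xor, h1, h2]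

theorem chi_sd (T : Finset Nm) {K v w : List Nm} (hv : ∀ a ∈ v, a ∈ K) (hw : ∀ a ∈ w, a ∈ K) :
    chi T (sd K v w) = (chi T v ^^ chi T w) := by
  refine odd_card_xor T _ _ _ fun a _ => ?_
  rw [mem_sd]
  exact ⟨fun h => h.2, fun h => ⟨h.elim (fun h => hv a h.1) fun h => hw a h.1, h⟩⟩

theorem chi_nil (T : Finset Nm) : chi T [] = false := by simp [chi]

/-! ### Elimination -/

theorem fold_sublist (K : List Nm) (rows : List Row) (s : List Nm × Bool) (hs : s.1.Sublist K) :
    (rows.foldl (red1 K) s).1.Sublist K := by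
  induction rows generalizing s with
  | nil => exact hs
  | cons r rows ih =>
    refine ih _ ?_
    unfold red1
    split_ifs
    · exact List.filter_sublist
    · exact hs

theorem red_sublist (K : List Nm) (rows : List Row) (x : List Nm) :
    (red K rows x).1.Sublist K :=
  fold_sublist K rows _ List.filter_sublist

theorem fold_notMem (K : List Nm) (p : Nm) (rows : List Row) (s : List Nm × Bool) (hs : p ∉ s.1)
    (h : ∀ r ∈ rows, p ∉ r.2.1) : p ∉ (rows.foldl (red1 K) s).1 := by
  induction rows generalizing s with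
  | nil => exact hs
  | cons r rows ih =>
    refine ih _ ?_ fun r' hr' => h r' (List.mem_cons_of_mem _ hr')
    unfold red1
    split_ifs
    · intro hp
      rcases (mem_sd.1 hp).2 with h' | h'
      · exact hs h'.1
      · exact h r List.mem_cons_self h'.1
    · exact hs

theorem fold_piv (K : List Nm) (rows : List Row) (s : List Nm × Bool)
    (h1 : rows.Pairwise fun r r' => r.1 ∉ r'.2.1) (h2 : ∀ r ∈ rows, r.1 ∈ r.2.1) :
    ∀ r ∈ rows, r.1 ∉ (rows.foldl (red1 K) s).1 := by
  induction rows generalizing s with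
  | nil => intro r hr; cases hr
  | cons r rows ih =>
    intro r' hr'
    rw [List.pairwise_cons] at h1
    rcases List.mem_cons.1 hr' with rfl | hr'
    · refine fold_notMem K _ rows _ ?_ h1.1
      unfold red1
      split_ifs with h
      · intro hp
        rcases (mem_sd.1 hp).2 with h' | h'
        · exact h'.2 (h2 _ List.mem_cons_self)
        · exact h'.2 h
      · exact h
    · exact ih _ h1.2 (fun r hr => h2 r (List.mem_cons_of_mem _ hr)) r' hr'

theorem fold_valid (T : Finset Nm) (K : List Nm) (rows : List Row) (s : List Nm × Bool)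
    (hs : s.1.Sublist K) (h1 : ∀ r ∈ rows, chi T r.2.1 = r.2.2)
    (h2 : ∀ r ∈ rows, ∀ a ∈ r.2.1, a ∈ K) :
    (chi T (rows.foldl (red1 K) s).1 ^^ (rows.foldl (red1 K) s).2) = (chi T s.1 ^^ s.2) := by
  induction rows generalizing s with
  | nil => rfl
  | cons r rows ih =>
    rw [List.foldl_cons, ih (red1 K s r) (fold_sublist K [r] s hs)
      (fun r hr => h1 r (List.mem_cons_of_mem _ hr)) fun r hr => h2 r (List.mem_cons_of_mem _ hr)]
    unfold red1
    split_ifs
    · rw [chi_sd T (fun a ha => hs.subset ha) (h2 r List.mem_cons_self), h1 r List.mem_cons_self]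
      cases chi T s.1 <;> cases s.2 <;> cases r.2.2 <;> rfl
    · rfl

theorem red_valid (T : Finset Nm) (K : List Nm) (rows : List Row) (x : List Nm)
    (h1 : ∀ r ∈ rows, chi T r.2.1 = r.2.2) (h2 : ∀ r ∈ rows, ∀ a ∈ r.2.1, a ∈ K)
    (h3 : ∀ a ∈ T, a ∈ x → a ∈ K) : (chi T (red K rows x).1 ^^ (red K rows x).2) = chi T x := by
  unfold red
  rw [fold_valid T K rows _ List.filter_sublist h1 h2, Bool.xor_false]
  unfold chi
  congr 3
  refine Finset.filter_congr fun a ha => ?_
  rw [List.mem_filter, decide_eq_true_eq]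
  exact ⟨fun h => h.2, fun h => ⟨h3 a ha h, h⟩⟩

/-! ### Names -/

theorem ext_spec (old new x : List Nm) :
    new <+: ext old new x ∧ ((old ++ new).Nodup → (old ++ ext old new x).Nodup) ∧
      (ext old new x).length ≤ new.length + x.length ∧ (∀ a ∈ x, a ∈ old ++ ext old new x) ∧
      ∀ a ∈ ext old new x, a ∈ new ∨ a ∈ x := by
  induction x generalizing new with
  | nil => simp [ext]
  | cons b x ih =>
    by_cases h : b ∈ old ++ new
    · have e : ext old new (b :: x) = ext old new x := by simp only [ext, List.foldl_cons, if_pos h]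
      obtain ⟨h1, h2, h3, h4, h5⟩ := ih new
      rw [e]
      refine ⟨h1, h2, by simp; omega, fun a ha => ?_, fun a ha => (h5 a ha).imp_right
        (List.mem_cons_of_mem _)⟩
      rcases List.mem_cons.1 ha with rfl | ha
      · exact List.mem_append.2 ((List.mem_append.1 h).imp_right fun h => h1.subset h)
      · exact h4 a ha
    · have e : ext old new (b :: x) = ext old (new ++ [b]) x := by
        simp only [ext, List.foldl_cons, if_neg h]
      obtain ⟨h1, h2, h3, h4, h5⟩ := ih (new ++ [b])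
      rw [e]
      refine ⟨(List.prefix_append _ _).trans h1, fun hn => h2 ?_, by simp at h3 ⊢; omega,
        fun a ha => ?_, fun a ha => ?_⟩
      · rw [← List.append_assoc]
        exact List.nodup_append.2 ⟨hn, List.nodup_singleton _, fun a ha c hc => by
          rw [List.mem_singleton.1 hc]; rintro rfl; exact h ha⟩
      · rcases List.mem_cons.1 ha with rfl | ha
        · exact List.mem_append_right _ (h1.subset (by simp))
        · exact h4 a ha
      · rcases h5 a ha with h' | h'
        · rcases List.mem_append.1 h' with h' | h'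
          · exact Or.inl h'
          · exact Or.inr (List.mem_singleton.1 h' ▸ List.mem_cons_self)
        · exact Or.inr (List.mem_cons_of_mem _ h')

theorem kept_mono {old new new' : List Nm} (h : new <+: new') (B : ℕ) (e : List ℕ) {a : Nm}
    (ha : a ∈ kept old new B e) : a ∈ kept old new' B e := by
  unfold kept at ha ⊢
  refine List.mem_append.2 ((List.mem_append.1 ha).imp_right fun ha => ?_)
  obtain ⟨c, hc, ha⟩ := List.mem_flatMap.1 ha
  exact List.mem_flatMap.2 ⟨c, hc, ((h.drop _).take _).subset ha⟩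

theorem kept_length (old new : List Nm) (B : ℕ) (e : List ℕ) :
    (kept old new B e).length ≤ old.length + e.length * B := by
  unfold kept
  rw [List.length_append]
  refine Nat.add_le_add_left ?_ _
  induction e with
  | nil => simp
  | cons c e ih =>
    rw [List.flatMap_cons, List.length_append, List.length_cons, Nat.add_mul]
    have := List.length_take_le B (new.drop (c * B))
    omega

theorem kept_sub {old new : List Nm} {B : ℕ} {e : List ℕ} {a : Nm} (ha : a ∈ kept old new B e) :
    a ∈ old ++ new := by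
  refine List.mem_append.2 ((List.mem_append.1 ha).imp_right fun ha => ?_)
  obtain ⟨c, _, ha⟩ := List.mem_flatMap.1 ha
  exact List.mem_of_mem_drop (List.mem_of_mem_take ha)

def Good (T : Finset Nm) (new : List Nm) (B : ℕ) (e : List ℕ) : Prop :=
  ∀ (i : ℕ) (h : i < new.length), new[i] ∈ T → i / B ∈ e

theorem Good.anti {T : Finset Nm} {new new' : List Nm} {B : ℕ} {e : List ℕ}
    (h : Good T new' B e) (hp : new <+: new') : Good T new B e := fun i hi hT =>
  h i (hi.trans_le hp.length_le) (hp.getElem hi ▸ hT)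

theorem Good.mem_kept {T : Finset Nm} {old new : List Nm} {B : ℕ} {e : List ℕ}
    (h : Good T new B e) (hB : 0 < B) {a : Nm} (hT : a ∈ T) (ha : a ∈ old ++ new) :
    a ∈ kept old new B e := by
  refine List.mem_append.2 ((List.mem_append.1 ha).imp_right fun ha => ?_)
  obtain ⟨i, hi, rfl⟩ := List.getElem_of_mem ha
  refine List.mem_flatMap.2 ⟨i / B, h i hi hT, ?_⟩
  have h1 := Nat.div_add_mod i B
  have h2 := Nat.mod_lt i hB
  rw [Nat.mul_comm] at h1
  refine List.mem_iff_getElem.2 ⟨i % B, by simp; omega, ?_⟩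
  simp only [List.getElem_take, List.getElem_drop, h1]

/-! ### The phase invariant -/

structure ExOK (old new : List Nm) (B g t m : ℕ) (E : Ex) : Prop where
  len : E.1.length ≤ g
  lt : ∀ c ∈ E.1, c < t
  w : E.2.1 * 2 ^ E.2.2.length = 2 ^ m
  ech : E.2.2.Pairwise fun r r' => r.1 ∉ r'.2.1
  piv : ∀ r ∈ E.2.2, r.1 ∈ r.2.1
  sub : ∀ r ∈ E.2.2, ∀ a ∈ r.2.1, a ∈ kept old new B E.1
  vlen : ∀ r ∈ E.2.2, r.2.1.length ≤ old.length + g * B

structure PhInv (T : Finset Nm) (old new : List Nm) (B g t P m : ℕ) (ex : List Ex) : Prop where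
  sum : (ex.map fun E => E.2.1).sum ≤ P
  ok : ∀ E ∈ ex, ExOK old new B g t m E
  good : ∀ e ∈ subs t g P, Good T new B e →
    ∃ E ∈ ex, E.1 = e ∧ ∀ r ∈ E.2.2, chi T r.2.1 = r.2.2

theorem PhInv.init (T : Finset Nm) (old : List Nm) (B g : ℕ) {n : ℕ} (hn : 0 < n) :
    PhInv T old [] B g (2 * n * (g + 1)) ((6 * n) ^ (g + 1)) 0
      ((subs (2 * n * (g + 1)) g ((6 * n) ^ (g + 1))).map fun e => (e, 1, [])) := by
  refine ⟨?_, fun E hE => ?_, fun e he _ => ⟨(e, 1, []), List.mem_map.2 ⟨e, he, rfl⟩, rfl,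
    fun r hr => by cases hr⟩⟩
  · rw [List.map_map]
    have : ((fun E : Ex => E.2.1) ∘ fun e : List ℕ => ((e, 1, []) : Ex)) = fun _ => 1 := rfl
    rw [this, List.map_const', List.sum_replicate, smul_eq_mul, mul_one,
      subs_eq _ _ _ (length_subsU hn g)]
    exact length_subsU hn g
  · obtain ⟨e, he, rfl⟩ := List.mem_map.1 hE
    have := (subFold_inv g ((6 * n) ^ (g + 1)) (2 * n * (g + 1)) (List.range _)
      (fun a ha => List.mem_range.1 ha) [[]] ⟨by simp, by simp⟩).2 e he
    exact ⟨this.1, this.2, by simp, List.Pairwise.nil, by simp, by simp, by simp⟩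

theorem sum_updE (old new : List Nm) (B : ℕ) (x : List Nm) (y : Bool) (ex : List Ex) :
    ((ex.flatMap (updE old new B x y)).map fun E => E.2.1).sum +
      (ex.map (wt old new B x (!y))).sum =
      (ex.map fun E => E.2.1).sum + (ex.map (wt old new B x y)).sum := by
  induction ex with
  | nil => rfl
  | cons E ex ih =>
    have : ((updE old new B x y E).map fun E => E.2.1).sum + wt old new B x (!y) E =
        E.2.1 + wt old new B x y E := by
      unfold updE wt
      by_cases h : (out old new B x E).1 = []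
      · cases y <;> cases h' : (out old new B x E).2 <;> simp [h]
      · simp [h]
    simp only [List.flatMap_cons, List.map_append, List.sum_append, List.map_cons, List.sum_cons]
    omega

theorem PhInv.step {T : Finset Nm} {old new : List Nm} {B g t P m : ℕ} {ex : List Ex}
    (h : PhInv T old new B g t P m ex) (hB : 0 < B) (x : List Nm)
    (hv : (ex.map (wt old (ext old new x) B x (chi T x))).sum ≤
      (ex.map (wt old (ext old new x) B x (!chi T x))).sum) :
    PhInv T old (ext old new x) B g t P (m + 1)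
      (ex.flatMap (updE old (ext old new x) B x (chi T x))) := by
  obtain ⟨hp, -, -, hx, -⟩ := ext_spec old new x
  generalize ext old new x = new' at *
  refine ⟨?_, fun E' hE' => ?_, fun e he hg => ?_⟩
  · have := sum_updE old new' B x (chi T x) ex
    have := h.sum
    omega
  · obtain ⟨E, hE, hE'⟩ := List.mem_flatMap.1 hE'
    have ok := h.ok E hE
    have hsub : ∀ r ∈ E.2.2, ∀ a ∈ r.2.1, a ∈ kept old new' B E.1 := fun r hr a ha =>
      kept_mono hp B _ (ok.sub r hr a ha)
    unfold updE at hE'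
    split_ifs at hE' with h1 h2
    · rw [List.mem_singleton.1 hE']
      refine ⟨ok.len, ok.lt, ?_, ok.ech, ok.piv, hsub, ok.vlen⟩
      have := ok.w
      simp only [Nat.add_mul, pow_succ]
      omega
    · cases hE'
    · rw [List.mem_singleton.1 hE']
      have hs : (out old new' B x E).1.Sublist (kept old new' B E.1) := red_sublist _ _ _
      refine ⟨ok.len, ok.lt, ?_, ?_, fun r hr => ?_, fun r hr => ?_, fun r hr => ?_⟩
      · have := ok.w
        simp only [List.length_append, List.length_singleton, pow_succ, ← Nat.mul_assoc, this]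
      · refine List.pairwise_append.2 ⟨ok.ech, List.pairwise_singleton _ _, fun r hr r' hr' => ?_⟩
        rw [List.mem_singleton.1 hr']
        exact fold_piv _ _ _ ok.ech ok.piv r hr
      · rcases List.mem_append.1 hr with hr | hr
        · exact ok.piv r hr
        · rw [List.mem_singleton.1 hr]
          cases h3 : (out old new' B x E).1 with
          | nil => exact absurd h3 h1
          | cons a l => exact List.mem_cons_self
      · rcases List.mem_append.1 hr with hr | hr
        · exact hsub r hr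
        · rw [List.mem_singleton.1 hr]
          exact fun a ha => hs.subset ha
      · rcases List.mem_append.1 hr with hr | hr
        · exact ok.vlen r hr
        · rw [List.mem_singleton.1 hr]
          exact hs.length_le.trans ((kept_length _ _ _ _).trans
            (Nat.add_le_add_left (Nat.mul_le_mul_right _ ok.len) _))
  · obtain ⟨E, hE, rfl, hval⟩ := h.good e he (hg.anti hp)
    have ok := h.ok E hE
    have key : (chi T (out old new' B x E).1 ^^ (out old new' B x E).2) = chi T x :=
      red_valid T _ _ x hval (fun r hr a ha => kept_mono hp B _ (ok.sub r hr a ha))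
        fun a hT ha => hg.mem_kept hB hT (hx a ha)
    by_cases h1 : (out old new' B x E).1 = []
    · rw [h1, chi_nil, Bool.false_xor] at key
      exact ⟨(E.1, E.2.1 + E.2.1, E.2.2), List.mem_flatMap.2 ⟨E, hE, by
        unfold updE; rw [if_pos h1, if_pos key]; exact List.mem_singleton_self _⟩, rfl, hval⟩
    · refine ⟨(E.1, E.2.1, E.2.2 ++ [((out old new' B x E).1.headD [], (out old new' B x E).1,
        (out old new' B x E).2 ^^ chi T x)]), List.mem_flatMap.2 ⟨E, hE, by
        unfold updE; rw [if_neg h1]; exact List.mem_singleton_self _⟩, rfl, fun r hr => ?_⟩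
      rcases List.mem_append.1 hr with hr | hr
      · exact hval r hr
      · rw [List.mem_singleton.1 hr, ← key]
        cases chi T (out old new' B x E).1 <;> cases (out old new' B x E).2 <;> rfl

theorem ExOK.rows_le {old new : List Nm} {B g t m : ℕ} {E : Ex} (h : ExOK old new B g t m E) :
    E.2.2.length ≤ old.length + g * B := by
  have h1 : (E.2.2.map fun r => r.1).Nodup := by
    rw [List.Nodup, List.pairwise_map]
    refine List.Pairwise.imp_of_mem (fun {r r'} _ hr' hp e => hp ?_) h.ech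
    rw [e]; exact h.piv r' hr'
  have h2 : (E.2.2.map fun r => r.1) ⊆ kept old new B E.1 := fun a ha => by
    obtain ⟨r, hr, rfl⟩ := List.mem_map.1 ha
    exact h.sub r hr _ (h.piv r hr)
  have h3 := (List.subperm_of_subset h1 h2).length_le
  rw [List.length_map] at h3
  exact h3.trans ((kept_length _ _ _ _).trans
    (Nat.add_le_add_left (Nat.mul_le_mul_right _ h.len) _))

theorem blk_lower (n g : ℕ) (old : List Nm) :
    old.length + (g + 1) * (n + 4) < (g + 1) * blk n g old := by
  unfold blk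
  have h1 := Nat.div_add_mod old.length (g + 1)
  have h2 := Nat.mod_lt old.length (Nat.succ_pos g)
  linarith only [h1, h2]

theorem blk_upper (n g : ℕ) (old : List Nm) :
    (g + 1) * blk n g old ≤ old.length + (g + 1) * (n + 5) := by
  unfold blk
  have h1 := Nat.div_add_mod old.length (g + 1)
  linarith only [h1, Nat.zero_le (old.length % (g + 1))]

/-- A completed phase has met more than `g` new relevant names. -/
theorem PhInv.complete {T : Finset Nm} {old new : List Nm} {n g : ℕ} {ex : List Ex} (hn : 0 < n)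
    (h : PhInv T old new (blk n g old) g (2 * n * (g + 1)) ((6 * n) ^ (g + 1))
      (2 * (g + 1) * blk n g old) ex)
    (hnd : new.Nodup) (hl : new.length ≤ n * (2 * (g + 1) * blk n g old)) :
    g + 1 ≤ (T.filter fun a => a ∈ new).card := by
  classical
  by_contra hc
  have hB : 0 < blk n g old := Nat.succ_pos _
  set B := blk n g old with hBd
  let I : Finset (Fin new.length) := Finset.univ.filter fun i => new[i] ∈ T
  have hI : I.card ≤ g := by
    have : I.card ≤ (T.filter fun a => a ∈ new).card := by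
      refine Finset.card_le_card_of_injOn (fun i => new[i]) (fun i hi => ?_) fun i _ j _ e => ?_
      · exact Finset.mem_coe.2 (Finset.mem_filter.2
          ⟨(Finset.mem_filter.1 (Finset.mem_coe.1 hi)).2, List.getElem_mem _⟩)
      · exact Fin.ext ((hnd.getElem_inj_iff).1 e)
    omega
  obtain ⟨e, he, -, hR⟩ := subsU_complete g (2 * n * (g + 1)) (I.image fun i => i.1 / B)
    (fun c hc => by
      obtain ⟨i, -, rfl⟩ := Finset.mem_image.1 hc
      rw [Nat.div_lt_iff_lt_mul hB]
      exact (i.2.trans_le hl).trans_le (le_of_eq (by ring)))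
    (Finset.card_image_le.trans hI)
  rw [← subs_eq _ _ _ (length_subsU hn g)] at he
  obtain ⟨E, hE, -, -⟩ := h.good e he fun i hi hT =>
    hR _ (Finset.mem_image.2 ⟨⟨i, hi⟩, Finset.mem_filter.2 ⟨Finset.mem_univ _, hT⟩, rfl⟩)
  have ok := h.ok E hE
  have h1 : E.2.1 ≤ (6 * n) ^ (g + 1) :=
    (List.single_le_sum (fun _ _ => Nat.zero_le _) _ (List.mem_map.2 ⟨E, hE, rfl⟩)).trans h.sum
  have h2 : 6 * n ≤ 2 ^ (n + 3) := by
    have := Nat.lt_two_pow_self (n := n)
    rw [pow_add]; omega
  have h3 : E.2.1 ≤ 2 ^ ((n + 3) * (g + 1)) := by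
    rw [pow_mul]; exact h1.trans (Nat.pow_le_pow_left h2 _)
  have h4 : 2 ^ (2 * (g + 1) * B) ≤ 2 ^ ((n + 3) * (g + 1) + (old.length + g * B)) := by
    rw [← ok.w, pow_add]
    exact Nat.mul_le_mul h3 (Nat.pow_le_pow_right (by omega) ok.rows_le)
  have h5 := (Nat.pow_le_pow_iff_right (by omega)).1 h4
  have h6 := blk_lower n g old
  rw [← hBd] at h6
  linarith only [hB, h5, h6]

end Pool.Agent.Work.MP_1595dd_lc
end

-- merged part: Pool.Agent.Work.MP_1595dd_lc.Global
section
/-!
The global invariant, the mistake bound and the memory bound.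
-/

namespace Pool.Agent.Work.MP_1595dd_lc

open Pool.Agent.Lib.Poly

theorem J_pos (a g : ℕ) : 0 < J a g := by unfold J; split_ifs <;> omega

theorem J_mono (a : ℕ) {g G : ℕ} (h : g ≤ G) : J a g ≤ J a G := by unfold J; split_ifs <;> omega

/-- A bound for the length of all phases. -/
def Lm (N G j : ℕ) : ℕ := 2 * ((G + 1) * (N + 5) * (2 * N + 1) ^ j)

structure Inv (T : Finset Nm) (a N G lam : ℕ) (s : St) : Prop where
  ha : s.a = a
  hn0 : 0 < s.n
  hn : s.n ≤ N
  hg : s.g ≤ G
  hj : s.j < J a s.g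
  hm : s.m < 2 * (s.g + 1) * blk s.n s.g s.old
  hP : s.P = (6 * s.n) ^ (s.g + 1)
  nd : (s.old ++ s.new).Nodup
  nl : s.new.length ≤ s.n * s.m
  ol : s.old.length + (s.g + 1) * (s.n + 5) ≤ (s.g + 1) * (s.n + 5) * (2 * s.n + 1) ^ s.j
  cnt : s.j * (s.g + 1) ≤ (T.filter fun b => b ∈ s.old).card
  nm : ∀ b ∈ s.old ++ s.new, sz b ≤ lam
  ph : PhInv T s.old s.new (blk s.n s.g s.old) s.g (2 * s.n * (s.g + 1)) s.P s.m s.ex

variable {T : Finset Nm} {a N G lam : ℕ}

theorem Inv.of_fresh {n g j : ℕ} {old : List Nm} (hn0 : 0 < n) (hn : n ≤ N) (hg : g ≤ G)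
    (hj : j < J a g) (nd : old.Nodup)
    (ol : old.length + (g + 1) * (n + 5) ≤ (g + 1) * (n + 5) * (2 * n + 1) ^ j)
    (cnt : j * (g + 1) ≤ (T.filter fun b => b ∈ old).card) (nm : ∀ b ∈ old, sz b ≤ lam) :
    Inv T a N G lam (fresh a n g j ((6 * n) ^ (g + 1)) old) :=
  ⟨rfl, hn0, hn, hg, hj, Nat.mul_pos (Nat.mul_pos (by omega) (Nat.succ_pos _)) (Nat.succ_pos _),
    rfl, by simpa [fresh] using nd, Nat.zero_le _, ol, cnt, by simpa [fresh] using nm,
    PhInv.init T old _ g hn0⟩

theorem Inv.of_start {n g : ℕ} (hn0 : 0 < n) (hn : n ≤ N) (hg : g ≤ G) :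
    Inv T a N G lam (fresh a n g 0 ((6 * n) ^ (g + 1)) []) :=
  Inv.of_fresh hn0 hn hg (J_pos _ _) List.nodup_nil (by simp) (by simp) (by simp)

theorem Inv.u_le {s : St} (h : Inv T a N G lam s) :
    2 * (s.old.length + (s.g + 1) * (s.n + 5)) ≤ Lm N G (J a G) := by
  have h1 := h.hn
  have h2 := h.hg
  have h3 : s.j ≤ J a G := h.hj.le.trans (J_mono a h2)
  refine Nat.mul_le_mul_left _ (h.ol.trans (Nat.mul_le_mul (Nat.mul_le_mul (by omega) (by omega))
    ((Nat.pow_le_pow_left (by omega) _).trans (Nat.pow_le_pow_right (by omega) h3))))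

theorem Inv.len_le {s : St} (h : Inv T a N G lam s) :
    2 * (s.g + 1) * blk s.n s.g s.old ≤ Lm N G (J a G) := by
  have h1 := blk_upper s.n s.g s.old
  have h2 := h.u_le
  rw [Nat.mul_assoc]
  omega

/-- The potential counting mistakes. -/
def rank (a N G : ℕ) (s : St) : ℕ :=
  ((s.n * (G + 1) + s.g) * J a G + s.j) * Lm N G (J a G) + s.m

theorem lex {A A' B b : ℕ} (hb : b < B) (hA : A < A') : A * B + b < A' * B := by
  have := Nat.mul_le_mul_right B (Nat.succ_le_of_lt hA)
  rw [Nat.succ_mul] at this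
  omega

theorem Inv.rank_lt {s : St} (h : Inv T a N G lam s) {A : ℕ} (hA : s.n * (G + 1) + s.g < A) :
    rank a N G s < A * J a G * Lm N G (J a G) :=
  lex (h.hm.trans_le h.len_le) (lex (h.hj.trans_le (J_mono a h.hg)) hA)

theorem Inv.upd {s : St} (h : Inv T a N G lam s) (hk : T.card < J a G * (G + 1)) {x : List Nm}
    (hx : x.length ≤ N) (hl : ∀ b ∈ x, sz b ≤ lam) :
    Inv T a N G lam (upd s x (chi T x)) ∧
      rank a N G s + (if pred s x = chi T x then 0 else 1) ≤ rank a N G (upd s x (chi T x)) := by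
  by_cases h0 : pred s x = chi T x
  · unfold MP_1595dd_lc.upd
    rw [if_pos h0, if_pos h0]
    exact ⟨h, le_rfl⟩
  rw [if_neg h0]
  by_cases h1 : s.n < x.length
  · have e : MP_1595dd_lc.upd s x (chi T x) =
        fresh a x.length 0 0 ((6 * x.length) ^ (0 + 1)) [] := by
      unfold MP_1595dd_lc.upd
      rw [if_neg h0, if_pos h1, h.ha, Nat.zero_add, pow_one]
    rw [e]
    refine ⟨Inv.of_start (by omega) hx (Nat.zero_le _), ?_⟩
    exact h.rank_lt (lex (Nat.lt_succ_of_le h.hg) h1)
  obtain ⟨e1, e2, e3, e4, e5⟩ := ext_spec s.old s.new x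
  have hB : 0 < blk s.n s.g s.old := Nat.succ_pos _
  have hph : PhInv T s.old (ext s.old s.new x) (blk s.n s.g s.old) s.g (2 * s.n * (s.g + 1)) s.P
      (s.m + 1) (s.ex.flatMap (updE s.old (ext s.old s.new x) (blk s.n s.g s.old) x (chi T x))) := by
    refine h.ph.step hB x ?_
    change vote s x (chi T x) ≤ vote s x (!chi T x)
    unfold pred at h0
    cases hc : chi T x
    · rw [hc] at h0
      exact (of_decide_eq_true (Bool.eq_true_of_not_eq_false h0)).le
    · rw [hc] at h0
      exact Nat.le_of_not_lt fun h' => h0 (decide_eq_true h')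
  have hnl : (ext s.old s.new x).length ≤ s.n * (s.m + 1) := by
    have := h.nl
    rw [Nat.mul_succ]; omega
  have hnm : ∀ b ∈ s.old ++ ext s.old s.new x, sz b ≤ lam := fun b hb => by
    rcases List.mem_append.1 hb with hb | hb
    · exact h.nm b (List.mem_append_left _ hb)
    · exact (e5 b hb).elim (fun hb => h.nm b (List.mem_append_right _ hb)) (hl b)
  by_cases h2 : s.m + 1 < 2 * (s.g + 1) * blk s.n s.g s.old
  · have e : MP_1595dd_lc.upd s x (chi T x) = step s x (chi T x) := by
      unfold MP_1595dd_lc.upd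
      rw [if_neg h0, if_neg h1, if_pos h2]
    rw [e]
    exact ⟨⟨h.ha, h.hn0, h.hn, h.hg, h.hj, h2, h.hP, e2 h.nd, hnl, h.ol, h.cnt, hnm, hph⟩, le_rfl⟩
  have hm : s.m + 1 = 2 * (s.g + 1) * blk s.n s.g s.old := by have := h.hm; omega
  have hnd := e2 h.nd
  have hc : (s.j + 1) * (s.g + 1) ≤ (T.filter fun b => b ∈ s.old ++ ext s.old s.new x).card := by
    rw [hm, h.hP] at hph
    rw [hm] at hnl
    have c1 := hph.complete h.hn0 (List.nodup_append.1 hnd).2.1 hnl
    have c2 := h.cnt
    have c3 : (T.filter fun b => b ∈ s.old ++ ext s.old s.new x) =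
        (T.filter fun b => b ∈ s.old) ∪ T.filter fun b => b ∈ ext s.old s.new x := by
      rw [← Finset.filter_or]
      exact Finset.filter_congr fun b _ => List.mem_append
    rw [c3, Finset.card_union_of_disjoint (Finset.disjoint_left.2 fun b hb hb' =>
      (List.nodup_append.1 hnd).2.2 b (Finset.mem_filter.1 hb).2 b (Finset.mem_filter.1 hb').2 rfl),
      Nat.succ_mul]
    exact Nat.add_le_add c2 c1
  by_cases h3 : s.j + 1 < J s.a s.g
  · have e : MP_1595dd_lc.upd s x (chi T x) =
        fresh a s.n s.g (s.j + 1) ((6 * s.n) ^ (s.g + 1)) (s.old ++ ext s.old s.new x) := by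
      unfold MP_1595dd_lc.upd
      rw [if_neg h0, if_neg h1, if_neg h2, if_pos h3, h.ha, h.hP]
    rw [e]
    refine ⟨Inv.of_fresh h.hn0 h.hn h.hg (h.ha ▸ h3) hnd ?_ hc hnm, ?_⟩
    · have c1 := blk_upper s.n s.g s.old
      have c2 := h.ol
      rw [hm] at hnl
      rw [List.length_append, pow_succ, ← Nat.mul_assoc]
      refine le_trans ?_ (Nat.mul_le_mul_right _ c2)
      have c3 := Nat.mul_le_mul_left (2 * s.n) c1
      linarith only [hnl, c3]
    · exact lex (h.hm.trans_le h.len_le) (Nat.lt_succ_self _)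
  · have e : MP_1595dd_lc.upd s x (chi T x) =
        fresh a s.n (s.g + 1) 0 ((6 * s.n) ^ (s.g + 1 + 1)) [] := by
      unfold MP_1595dd_lc.upd
      rw [if_neg h0, if_neg h1, if_neg h2, if_neg h3, h.ha, h.hP, ← pow_succ]
    rw [e]
    have hg : s.g + 1 ≤ G := by
      by_contra hg
      have eg : s.g = G := by have := h.hg; omega
      rw [h.ha, eg] at h3
      rw [eg] at hc
      have c1 := Finset.card_filter_le T fun b => b ∈ s.old ++ ext s.old s.new x
      have c2 := Nat.mul_le_mul_right (G + 1) (Nat.le_of_not_lt h3)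
      omega
    exact ⟨Inv.of_start h.hn0 h.hn hg, h.rank_lt (Nat.lt_succ_self _)⟩

theorem Inv.rank_le {s : St} (h : Inv T a N G lam s) :
    rank a N G s ≤ (N + 1) * (G + 1) * J a G * Lm N G (J a G) :=
  (h.rank_lt (lex (Nat.lt_succ_of_le h.hg) (Nat.lt_succ_of_le h.hn))).le

theorem le_Lm (N G j : ℕ) (hN : 0 < N) : N ≤ Lm N G j ∧ G + 1 ≤ Lm N G j ∧ j ≤ Lm N G j := by
  unfold Lm
  have h1 : j < (2 * N + 1) ^ j := Nat.lt_pow_self (by omega)
  generalize (2 * N + 1) ^ j = u at h1
  obtain ⟨v, rfl⟩ : ∃ v, u = v + 1 := ⟨u - 1, by omega⟩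
  refine ⟨?_, ?_, ?_⟩ <;> linarith only [hN, h1, Nat.zero_le (G * N * v), Nat.zero_le (G * N),
    Nat.zero_le (G * v), Nat.zero_le (N * v)]

theorem Inv.sz_le {s : St} (h : Inv T a N G lam s) {Z : ℕ} (h1 : a ≤ Z)
    (h2 : Lm N G (J a G) ≤ Z) (h3 : (6 * N) ^ (G + 1) ≤ Z) (h4 : lam ≤ Z) :
    sz s ≤ 107 * Z ^ 4 := by
  obtain ⟨l1, l2, l3⟩ := le_Lm N G (J a G) (h.hn0.trans_le h.hn)
  have hn : s.n ≤ Z := h.hn.trans (l1.trans h2)
  have hg : s.g + 1 ≤ Z := (Nat.succ_le_succ h.hg).trans (l2.trans h2)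
  have hj : s.j ≤ Z := (h.hj.le.trans (J_mono a h.hg)).trans (l3.trans h2)
  have hm : s.m ≤ Z := h.hm.le.trans (h.len_le.trans h2)
  have hP : s.P ≤ Z := by
    rw [h.hP]
    exact ((Nat.pow_le_pow_left (Nat.mul_le_mul_left 6 h.hn) _).trans (Nat.pow_le_pow_right
      (by have := h.hn0; have := h.hn; omega) (Nat.succ_le_succ h.hg))).trans h3
  have hu := h.u_le.trans h2
  have hD : s.old.length + s.g * blk s.n s.g s.old ≤ Z := by
    have := blk_upper s.n s.g s.old
    rw [Nat.succ_mul] at this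
    omega
  have hZ : 1 ≤ Z := by omega
  have z2 : Z ≤ Z ^ 2 := by nlinarith only [h2, l2]
  have z3 : Z ^ 2 ≤ Z ^ 3 := Nat.pow_le_pow_right hZ (by omega)
  have z4 : Z ^ 3 ≤ Z ^ 4 := Nat.pow_le_pow_right hZ (by omega)
  have names : ∀ l : List Nm, (∀ b ∈ l, b ∈ s.old ++ s.new) → sz l ≤ l.length * (3 * Z) :=
    fun l hl => (sz_le_of_forall fun b hb => (h.nm b (hl b hb)).trans h4).trans
      (Nat.mul_le_mul_left _ (by omega))
  have so : sz s.old ≤ 3 * Z ^ 2 := (names _ fun b hb => List.mem_append_left _ hb).trans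
    ((Nat.mul_le_mul_right _ (show s.old.length ≤ Z by omega)).trans (le_of_eq (by ring)))
  have sn : sz s.new ≤ 3 * Z ^ 3 := (names _ fun b hb => List.mem_append_right _ hb).trans
    ((Nat.mul_le_mul_right _ (h.nl.trans (Nat.mul_le_mul hn hm))).trans (le_of_eq (by ring)))
  have sE : ∀ E ∈ s.ex, sz E ≤ 37 * Z ^ 3 := by
    rintro ⟨e, w, rows⟩ hE
    have ok := h.ph.ok _ hE
    have se : sz e ≤ 5 * Z ^ 3 := by
      have : sz e ≤ e.length * (2 * (2 * Z ^ 2) + 1) := sz_le_of_forall fun c hc => by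
        have := ok.lt c hc
        have := Nat.mul_le_mul hn hg
        rw [sz_nat]; nlinarith
      refine this.trans ((Nat.mul_le_mul (show e.length ≤ Z from ok.len.trans (by omega))
        (show _ ≤ 5 * Z ^ 2 by omega)).trans (le_of_eq (by ring)))
    have sw : w ≤ Z := ((List.single_le_sum (fun _ _ => Nat.zero_le _) _
      (List.mem_map.2 ⟨_, hE, rfl⟩)).trans h.ph.sum).trans hP
    have sr : sz rows ≤ 23 * Z ^ 3 := by
      have : sz rows ≤ rows.length * (2 * (11 * Z ^ 2) + 1) := sz_le_of_forall fun r hr => by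
        obtain ⟨p, v, b⟩ := r
        have c1 : sz p ≤ Z := (h.nm p (kept_sub (ok.sub _ hr _ (ok.piv _ hr)))).trans h4
        have c2 : sz v ≤ 3 * Z ^ 2 := (names v fun b hb => kept_sub (ok.sub _ hr b hb)).trans
          ((Nat.mul_le_mul_right _ ((ok.vlen _ hr).trans hD)).trans (le_of_eq (by ring)))
        simp only [sz_pair, sz_bool]
        omega
      exact this.trans ((Nat.mul_le_mul (ok.rows_le.trans hD)
        (show _ ≤ 23 * Z ^ 2 by omega)).trans (le_of_eq (by ring)))
    simp only [sz_pair, sz_nat]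
    omega
  have lE : s.ex.length ≤ Z := by
    refine le_trans ?_ (h.ph.sum.trans hP)
    have := List.card_nsmul_le_sum (s.ex.map fun E => E.2.1) 1 fun w hw => by
      obtain ⟨E, hE, rfl⟩ := List.mem_map.1 hw
      have := (h.ph.ok E hE).w
      refine Nat.pos_of_ne_zero fun e => ?_
      rw [e, Nat.zero_mul] at this
      exact absurd this.symm (pow_ne_zero _ (by omega))
    simpa using this
  have sx : sz s.ex ≤ 75 * Z ^ 4 := (sz_le_of_forall sE).trans
    ((Nat.mul_le_mul lE (show _ ≤ 75 * Z ^ 3 by omega)).trans (le_of_eq (by ring)))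
  have e : sz s = sz s.toP := rfl
  have ha := h.ha
  rw [e]
  simp only [St.toP, sz_pair, sz_nat]
  omega

end Pool.Agent.Work.MP_1595dd_lc
end

-- merged part: Pool.Agent.Work.MP_1595dd_lc.Main
section
/-!
The learner on lists of numbers, and the general trade-off.
-/

namespace Pool.Agent.Work.MP_1595dd_lc

open Pool.Agent.Lib.Poly N487b59b3 Computability Turing

open Classical in
/-- The bit encoding of the memory. -/
@[instance_reducible]
noncomputable def encSt : N487b59b3 St where
  encode s := enc s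
  decode l := if h : ∃ s : St, enc s = l then some h.choose else none
  decode_encode s := by
    have h : ∃ t : St, enc t = enc s := ⟨s, rfl⟩
    rw [dif_pos h, Enc.inj h.choose_spec]

attribute [local instance] encSt

theorem encodeNat_inj : Function.Injective encodeNat := fun a b h => by
  simpa [decode_encodeNat] using congrArg decodeNat h

def predN (p : St × List ℕ) : Bool := pred p.1 (p.2.map encodeNat)

def updN (p : St × List ℕ × Bool) : St := upd p.1 (p.2.1.map encodeNat) p.2.2

theorem enc_raw_list (x : List ℕ) : enc (x.map fun v => Raw.mk (encodeNat v)) = bitEncode x := by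
  change (((x.map fun v => Raw.mk (encodeNat v)).map enc).map delimit).flatten =
    ((x.map bitEncode).map delimit).flatten
  rw [List.map_map (l := x)]
  rfl

theorem map_raw (x : List ℕ) :
    (x.map fun v => Raw.mk (encodeNat v)).map (fun r => enc r) = x.map encodeNat := by
  rw [List.map_map]; rfl

theorem tm_pred : Nonempty (TM2ComputableInPolyTime bitEncode bitEncode predN) := by
  have h : PT fun p : St × List Raw => pred p.1 (p.2.map fun r => enc r) := by fun_prop
  refine h.tm2 _ _ predN (fun p => (p.1, p.2.map fun v => Raw.mk (encodeNat v))) ?_ ?_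
  · rintro ⟨s, x⟩
    rw [enc_pair, enc_raw_list]; rfl
  · rintro ⟨s, x⟩
    simp only [map_raw]; rfl

theorem tm_upd : Nonempty (TM2ComputableInPolyTime bitEncode bitEncode updN) := by
  have h : PT fun p : St × List Raw × Bool => upd p.1 (p.2.1.map fun r => enc r) p.2.2 := by
    fun_prop
  refine h.tm2 _ _ updN
    (fun p => (p.1, p.2.1.map fun v => Raw.mk (encodeNat v), p.2.2)) ?_ ?_
  · rintro ⟨s, x, y⟩
    rw [enc_pair, enc_pair, enc_raw_list]; rfl
  · rintro ⟨s, x, y⟩
    simp only [map_raw]; rfl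

theorem chi_image (T : Finset ℕ) (x : List ℕ) :
    chi (T.image encodeNat) (x.map encodeNat) = parity T x := by
  unfold chi parity
  rw [Finset.filter_image, Finset.card_image_of_injective _ encodeNat_inj]
  congr 3
  exact Finset.filter_congr fun v _ => List.mem_map_of_injective encodeNat_inj

theorem sz_name {x : List ℕ} {b : Nm} (hb : b ∈ x.map encodeNat) :
    sz b ≤ 2 * (bitEncode x).length := by
  obtain ⟨v, hv, rfl⟩ := List.mem_map.1 hb
  have h1 : sz (encodeNat v) ≤ (encodeNat v).length * (2 * 1 + 1) :=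
    sz_le_of_forall fun _ _ => le_rfl
  have h2 : ∀ y : List ℕ, v ∈ y → 2 * (encodeNat v).length ≤
      sz (y.map fun v => Raw.mk (encodeNat v)) := by
    intro y hy
    induction y with
    | nil => cases hy
    | cons u y ih =>
      rw [List.map_cons, sz_cons, sz_raw]
      rcases List.mem_cons.1 hy with rfl | hy
      · omega
      · have := ih hy; omega
  have h3 := h2 x hv
  rw [sz, enc_raw_list] at h3
  omega

theorem run {T : Finset ℕ} {a N G l : ℕ} (hk : T.card < J a G * (G + 1)) (xs : List (List ℕ))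
    (hx : ∀ z ∈ xs, z.length ≤ N ∧ (bitEncode z).length ≤ l) (s : St)
    (hs : Inv (T.image encodeNat) a N G (2 * l) s) :
    Inv (T.image encodeNat) a N G (2 * l) (memory updN (parity T) s xs) ∧
      rank a N G s + mistakes predN updN (parity T) s xs ≤
        rank a N G (memory updN (parity T) s xs) := by
  induction xs generalizing s with
  | nil => exact ⟨hs, le_rfl⟩
  | cons x xs ih =>
    obtain ⟨h1, h2⟩ := hx x List.mem_cons_self
    obtain ⟨h3, h4⟩ := hs.upd (x := x.map encodeNat)
      (by rwa [Finset.card_image_of_injective _ encodeNat_inj]) (by rwa [List.length_map])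
      fun b hb => (sz_name hb).trans (Nat.mul_le_mul_left _ h2)
    rw [chi_image] at h3 h4
    obtain ⟨h5, h6⟩ := ih (fun z hz => hx z (List.mem_cons_of_mem _ hz)) _ h3
    refine ⟨h5, le_trans ?_ h6⟩
    exact (Nat.add_assoc _ _ _).symm.le.trans (Nat.add_le_add_right h4 _)

theorem poly_le (p : Polynomial ℕ) : ∃ c, ∀ z w, 2 ≤ z → w ≤ z → p.eval w ≤ z ^ c := by
  induction p using Polynomial.induction_on' with
  | add p q hp hq =>
    obtain ⟨c, hc⟩ := hp
    obtain ⟨d, hd⟩ := hq
    refine ⟨c + d + 1, fun z w hz hw => ?_⟩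
    have h1 := (hc z w hz hw).trans (Nat.pow_le_pow_right (by omega) (Nat.le_add_right c d))
    have h2 := (hd z w hz hw).trans (Nat.pow_le_pow_right (by omega) (Nat.le_add_left d c))
    have h3 := Nat.mul_le_mul_left (z ^ (c + d)) hz
    rw [Polynomial.eval_add, pow_succ]
    omega
  | monomial k a =>
    refine ⟨a + k, fun z w hz hw => ?_⟩
    rw [Polynomial.eval_monomial, pow_add]
    exact Nat.mul_le_mul (Nat.lt_pow_self (by omega)).le (Nat.pow_le_pow_left hw _)

theorem general : ∃ c : ℕ, ∀ (a : ℕ) (G : ℕ → ℕ) (M : ℕ → ℕ → ℕ) (τ Z : ℕ → ℕ → ℕ → ℕ),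
    (∀ k, k < J a (G k) * (G k + 1)) →
    (∀ k n, (n + 2) * (G k + 1) * J a (G k) * Lm (n + 1) (G k) (J a (G k)) ≤ M k n) →
    (∀ k n l, a ≤ Z k n l ∧ Lm (n + 1) (G k) (J a (G k)) ≤ Z k n l ∧
      (6 * (n + 1)) ^ (G k + 1) ≤ Z k n l ∧ 2 * l ≤ Z k n l ∧ Z k n l ^ c ≤ τ k n l) →
    ParityLearnable M τ := by
  obtain ⟨P⟩ := tm_pred
  obtain ⟨U⟩ := tm_upd
  obtain ⟨c, hc⟩ := poly_le P.time
  obtain ⟨d, hd⟩ := poly_le U.time
  refine ⟨13 * (c + d), fun a G M τ Z h1 h2 h3 => ⟨St, encSt, fresh a 1 0 0 ((6 * 1) ^ (0 + 1)) [],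
    predN, updN, P.toTM2ComputableInTime, U.toTM2ComputableInTime, fun T n l xs x hx => ?_⟩⟩
  obtain ⟨hi, hr⟩ := run (h1 T.card) xs (N := n + 1) (l := l) (fun z hz =>
    (hx z (List.mem_cons_of_mem _ hz)).imp_left Nat.le_succ_of_le) _
    (Inv.of_start Nat.one_pos (by omega) (Nat.zero_le _))
  obtain ⟨z1, z2, z3, z4, z5⟩ := h3 T.card n l
  have hs := hi.sz_le z1 z2 z3 z4
  have hl := (hx x List.mem_cons_self).2
  have hZ : 2 ≤ Z T.card n l := by
    refine le_trans ?_ z3
    exact le_trans (by omega) (Nat.le_self_pow (Nat.succ_ne_zero _) _)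
  generalize Z T.card n l = z at *
  have e1 : z ≤ z ^ 4 := Nat.le_self_pow (by omega) _
  have e2 : 512 * z ^ 4 ≤ z ^ 13 := by
    rw [show z ^ 13 = z ^ 9 * z ^ 4 by ring]
    exact Nat.mul_le_mul_right _ (Nat.pow_le_pow_left hZ 9)
  generalize memory updN (parity T) (fresh a 1 0 0 ((6 * 1) ^ (0 + 1)) []) xs = s at *
  refine ⟨((Nat.le_add_left _ _).trans hr).trans (hi.rank_le.trans (h2 _ _)), ?_, ?_⟩
  · refine (hc (z ^ 13) _ (by omega) ?_).trans (le_trans ?_ z5)
    · change (delimit (enc s) ++ bitEncode x).length ≤ _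
      rw [List.length_append, length_delimit]
      unfold sz at hs
      omega
    · rw [← pow_mul]
      exact Nat.pow_le_pow_right (by omega) (by omega)
  · refine (hd (z ^ 13) _ (by omega) ?_).trans (le_trans ?_ z5)
    · change (delimit (enc s) ++ (delimit (bitEncode x) ++ [parity T x])).length ≤ _
      rw [List.length_append, List.length_append, length_delimit, length_delimit,
        List.length_singleton]
      unfold sz at hs
      omega
    · rw [← pow_mul]
      exact Nat.pow_le_pow_right (by omega) (by omega)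

theorem base_le (n : ℕ) : 2 * (n + 1 + 5) ≤ (n + 2) ^ 4 ∧ 2 * (n + 1) + 1 ≤ (n + 2) ^ 2 ∧
    6 * (n + 1) ≤ (n + 2) ^ 3 := by
  refine ⟨?_, ?_, ?_⟩ <;> linarith only [Nat.zero_le (n ^ 2), Nat.zero_le (n ^ 3), Nat.zero_le (n ^ 4), sq_nonneg ↑n]

theorem Lm_le (n G j : ℕ) : Lm (n + 1) G j ≤ (G + 1) * (n + 2) ^ (2 * j + 4) := by
  obtain ⟨h1, h2, -⟩ := base_le n
  calc Lm (n + 1) G j = (G + 1) * ((2 * (n + 1) + 1) ^ j * (2 * (n + 1 + 5))) := by
        unfold Lm; ring
    _ ≤ (G + 1) * (((n + 2) ^ 2) ^ j * (n + 2) ^ 4) :=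
        Nat.mul_le_mul_left _ (Nat.mul_le_mul (Nat.pow_le_pow_left h2 _) h1)
    _ = (G + 1) * (n + 2) ^ (2 * j + 4) := by rw [← pow_mul, ← pow_add]

theorem sqrt_exponent : ∃ C : ℕ, ParityLearnable (fun k n => (n + 2) ^ (C * (Nat.sqrt k + 1)))
    fun k n l => ((n + 2) ^ (Nat.sqrt k + 1) * (l + 2)) ^ C := by
  obtain ⟨c, hc⟩ := general
  have key : ∀ n s, s + 1 ≤ (n + 2) ^ (s + 1) ∧
      Lm (n + 1) s (s + 1) ≤ ((n + 2) ^ (s + 1)) ^ 7 := by
    intro n s
    have h1 : s + 1 ≤ (n + 2) ^ (s + 1) := (Nat.lt_pow_self (by omega)).le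
    refine ⟨h1, (Lm_le _ _ _).trans ((Nat.mul_le_mul_right _ h1).trans ?_)⟩
    rw [← pow_add, ← pow_mul]
    exact Nat.pow_le_pow_right (by omega) (by omega)
  refine ⟨7 * c + 10, hc 0 Nat.sqrt _ _
    (fun k n l => ((n + 2) ^ (Nat.sqrt k + 1) * (l + 2)) ^ 7) Nat.lt_succ_sqrt
    (fun k n => ?_) fun k n l => ?_⟩
  · obtain ⟨h1, h2⟩ := key n k.sqrt
    have h0 : n + 2 ≤ (n + 2) ^ (k.sqrt + 1) := Nat.le_self_pow (by omega) _
    refine (Nat.mul_le_mul (Nat.mul_le_mul (Nat.mul_le_mul h0 h1) h1) h2).trans ?_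
    rw [Nat.mul_comm (7 * c + 10), pow_mul]
    generalize (n + 2) ^ (k.sqrt + 1) = u at *
    exact (le_of_eq (by ring : u * u * u * u ^ 7 = u ^ 10)).trans
      (Nat.pow_le_pow_right (by omega) (by omega))
  · obtain ⟨h1, h2⟩ := key n k.sqrt
    have h0 : n + 2 ≤ (n + 2) ^ (k.sqrt + 1) := Nat.le_self_pow (by omega) _
    have h3 : (6 * (n + 1)) ^ (k.sqrt + 1) ≤ ((n + 2) ^ (k.sqrt + 1)) ^ 3 := by
      rw [← pow_mul, Nat.mul_comm _ 3, pow_mul]
      exact Nat.pow_le_pow_left (base_le n).2.2 _
    change _ ∧ Lm (n + 1) k.sqrt (k.sqrt + 1) ≤ _ ∧ _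
    generalize (n + 2) ^ (k.sqrt + 1) = u at *
    have h4 : u ≤ u * (l + 2) := Nat.le_mul_of_pos_right _ (by omega)
    refine ⟨Nat.zero_le _, h2.trans (Nat.pow_le_pow_left h4 _), h3.trans
      ((Nat.pow_le_pow_left h4 _).trans (Nat.pow_le_pow_right (by omega) (by omega))),
      le_trans (by nlinarith only [h0]) (Nat.le_self_pow (by omega) _), ?_⟩
    rw [← pow_mul]
    exact Nat.pow_le_pow_right (by omega) (by omega)

theorem poly_mistakes (c : ℕ) (hc : 0 < c) : ∃ C : ℕ,
    ParityLearnable (fun k n => ((n + 2) * (k + 2)) ^ C)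
      fun k n l => (n + 2) ^ (k / c) * ((n + 2) * (k + 2) * (l + 2)) ^ C := by
  obtain ⟨d, hd⟩ := general
  obtain ⟨a, ha⟩ : ∃ a, a = c * (3 * (d + 1)) := ⟨_, rfl⟩
  have a0 : 0 < a := ha ▸ Nat.mul_pos hc (by omega)
  have eJ : ∀ g, J a g = a := fun g => if_neg a0.ne'
  have key : ∀ k n, k / a + 1 ≤ k + 2 ∧
      Lm (n + 1) (k / a) a ≤ ((n + 2) * (k + 2)) ^ (2 * a + 4) := by
    intro k n
    have h1 : k / a + 1 ≤ k + 2 := by have := Nat.div_le_self k a; omega
    refine ⟨h1, (Lm_le _ _ _).trans ?_⟩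
    rw [mul_pow, Nat.mul_comm]
    exact Nat.mul_le_mul_left _ (h1.trans (Nat.le_self_pow (by omega) _))
  refine ⟨(2 * a + 4) * d + (3 * a + 5), hd a (fun k => k / a) _ _
    (fun k n l => (n + 2) ^ (3 * (k / a)) * ((n + 2) * (k + 2) * (l + 2)) ^ (2 * a + 4))
    (fun k => ?_) (fun k n => ?_) fun k n l => ?_⟩
  · rw [eJ]
    exact Nat.lt_mul_div_succ k a0
  · obtain ⟨h1, h2⟩ := key k n
    rw [eJ]
    have h0 : 2 ≤ (n + 2) * (k + 2) := by linarith only [mul_nonneg_of_nonpos_of_nonpos (Mathlib.Tactic.Linarith.sub_nonpos_of_le (Mathlib.Tactic.Linarith.natCast_nonneg ℤ k)) (Mathlib.Tactic.Linarith.sub_nonpos_of_le (Mathlib.Tactic.Linarith.natCast_nonneg ℤ n))]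
    refine (Nat.mul_le_mul (Nat.mul_le_mul (Nat.mul_le_mul_left _ h1)
      (Nat.lt_pow_self h0).le) h2).trans ?_
    generalize (n + 2) * (k + 2) = w at *
    exact (le_of_eq (by ring : w * w ^ a * w ^ (2 * a + 4) = w ^ (3 * a + 5))).trans
      (Nat.pow_le_pow_right (by omega) (by omega))
  · obtain ⟨h1, h2⟩ := key k n
    rw [eJ]
    have h0 : n + 2 ≤ (n + 2) * (k + 2) := Nat.le_mul_of_pos_right _ (by omega)
    have h3 : (6 * (n + 1)) ^ (k / a + 1) ≤ (n + 2) ^ (3 * (k / a)) * (n + 2) ^ 3 := by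
      rw [← pow_add, ← Nat.mul_succ, pow_mul]
      exact Nat.pow_le_pow_left (base_le n).2.2 _
    have h5 : 3 * (k / a) * d ≤ k / c := by
      rw [ha, ← Nat.div_div_eq_div_mul]
      have := Nat.mul_div_le (k / c) (3 * (d + 1))
      linarith only [this, Nat.zero_le (k / c / (3 * (d + 1)))]
    have h6 : ((n + 2) ^ (3 * (k / a))) ^ d ≤ (n + 2) ^ (k / c) := by
      rw [← pow_mul]
      exact Nat.pow_le_pow_right (by omega) h5
    have h7 : 0 < (n + 2) ^ (3 * (k / a)) := pow_pos (by omega) _
    generalize (n + 2) * (k + 2) = w at *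
    generalize (n + 2) ^ (3 * (k / a)) = u at *
    have h4 : w ≤ w * (l + 2) := Nat.le_mul_of_pos_right _ (by omega)
    have h8 : 2 * l ≤ w * (l + 2) := by nlinarith only [h0]
    generalize w * (l + 2) = v at *
    have h9 : v ^ (2 * a + 4) ≤ u * v ^ (2 * a + 4) := Nat.le_mul_of_pos_left _ h7
    refine ⟨le_trans ?_ h9, h2.trans ((Nat.pow_le_pow_left h4 _).trans h9),
      h3.trans (Nat.mul_le_mul_left _ ((Nat.pow_le_pow_left (h0.trans h4) _).trans
        (Nat.pow_le_pow_right (by omega) (by omega)))),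
      h8.trans ((Nat.le_self_pow (by omega) _).trans h9), ?_⟩
    · exact (Nat.lt_pow_self (by omega : 1 < v)).le.trans
        (Nat.pow_le_pow_right (by omega) (by omega))
    · rw [mul_pow, ← pow_mul]
      exact Nat.mul_le_mul h6 (Nat.pow_le_pow_right (by omega) (by omega))

end Pool.Agent.Work.MP_1595dd_lc
end
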